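import Pool.Agent.BootPerc.Growth3

set_option autoImplicit false
set_option linter.unusedVariables false

namespace Pool.Agent.BootPerc

open Sys

theorem base_facts {m n : ℤ} (hm : 2 ≤ m) (hn : 2 ≤ n) : 0 ≤ base m n ∧ 7 - 2 * m ≤ base m n ∧
    7 - 2 * n ≤ base m n ∧ (m = 2 → base m n = 5) ∧ (n = 2 → base m n = 5) := by
  unfold base
  split_ifs <;> omega

theorem base_comm (m n : ℤ) : base m n = base n m := by
  unfold base
  split_ifs <;> omega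

/-- type one, growth in the first direction -/
theorem arith_one10 {m n u v k : ℤ} (h1 : -2 ≤ u) (h2 : -2 ≤ v) (h3 : -2 ≤ u + v)
    (hnn : ¬ (-2 ≤ u - 1 ∧ -2 ≤ v ∧ -2 ≤ (u - 1) + v)) (ho1 : u ≤ m - 2) (ho2 : v ≤ n - 2)
    (hm : 2 ≤ m - 1) (hn : 2 ≤ n) (hP : base (m - 1) n ≤ 2 * (m - 1 + 3) * (n + 3) - 5 - 15 * k) :
    (4 + u) * (4 + v) - 2 * ((m - 1 - u) + (n - 1 - v)) ≤
      2 * (m + 3) * (n + 3) - 5 - 15 * (k + 1) := by
  obtain ⟨b1, b2, b3, b4, b5⟩ := base_facts hm hn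
  have e : 2 * (m + 3) * (n + 3) = 2 * (m - 1 + 3) * (n + 3) + 2 * (n + 3) := by ring
  rw [e]
  generalize 2 * (m - 1 + 3) * (n + 3) = Z at *
  rcases (show u = -2 ∨ (u = -1 ∧ v = -1) ∨ (v = -2 ∧ u = 0) by omega) with h | h | h
  · subst h; omega
  · obtain ⟨rfl, rfl⟩ := h; omega
  · obtain ⟨rfl, rfl⟩ := h; omega

theorem arith_one20 {m n u v k : ℤ} (h1 : -2 ≤ u) (h2 : -2 ≤ v) (h3 : -2 ≤ u + v)
    (hnn : ¬ (-2 ≤ u - 2 ∧ -2 ≤ v ∧ -2 ≤ (u - 2) + v)) (ho1 : u ≤ m - 2) (ho2 : v ≤ n - 2)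
    (hm : 2 ≤ m - 2) (hn : 2 ≤ n) (hP : base (m - 2) n ≤ 2 * (m - 2 + 3) * (n + 3) - 5 - 15 * k) :
    (4 + u) * (4 + v) - 2 * ((m - 1 - u) + (n - 1 - v)) ≤
      2 * (m + 3) * (n + 3) - 5 - 15 * (k + 1) := by
  obtain ⟨b1, b2, b3, b4, b5⟩ := base_facts hm hn
  have e : 2 * (m + 3) * (n + 3) = 2 * (m - 2 + 3) * (n + 3) + 4 * (n + 3) := by ring
  rw [e]
  generalize 2 * (m - 2 + 3) * (n + 3) = Z at *
  rcases (show u = -2 ∨ u = -1 ∨ (v = -1 ∧ u = 0) ∨ (v = -2 ∧ u = 0) ∨ (v = -2 ∧ u = 1) by omega)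
    with h | h | h | h | h
  · subst h; omega
  · subst h; omega
  · obtain ⟨rfl, rfl⟩ := h; omega
  · obtain ⟨rfl, rfl⟩ := h; omega
  · obtain ⟨rfl, rfl⟩ := h; omega

theorem arith_one11 {m n u v k : ℤ} (h1 : -2 ≤ u) (h2 : -2 ≤ v) (h3 : -2 ≤ u + v)
    (hnn : u = -2 ∨ v = -2 ∨ u + v ≤ -1) (ho1 : u ≤ m - 2)
    (ho2 : v ≤ n - 2) (hm : 2 ≤ m - 1) (hn : 2 ≤ n - 1)
    (hP : 0 ≤ 2 * (m - 1 + 3) * (n - 1 + 3) - 5 - 15 * k) :
    (4 + u) * (4 + v) - 2 * ((m - 1 - u) + (n - 1 - v)) ≤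
      2 * (m + 3) * (n + 3) - 5 - 15 * (k + 1) := by
  have e : 2 * (m + 3) * (n + 3) = 2 * (m - 1 + 3) * (n - 1 + 3) + 2 * (m + n + 5) := by ring
  rw [e]
  generalize 2 * (m - 1 + 3) * (n - 1 + 3) = Z at *
  rcases hnn with h | h | h
  · subst h; omega
  · subst h; omega
  · rcases (show (u = -2) ∨ (u = -1) ∨ (u = 0) ∨ (u = 1 ∧ v = -2) by omega) with h' | h' | h' | h'
    · subst h'; omega
    · subst h'; omega
    · subst h'; omega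
    · obtain ⟨rfl, rfl⟩ := h'; omega

theorem arith_one {m n u v i j k : ℤ}
    (hij : (i = 1 ∧ j = 0) ∨ (i = 2 ∧ j = 0) ∨ (i = 0 ∧ j = 1) ∨ (i = 0 ∧ j = 2) ∨
      (i = 1 ∧ j = 1))
    (h1 : -2 ≤ u) (h2 : -2 ≤ v) (h3 : -2 ≤ u + v)
    (hnn : ¬ (-2 ≤ u - i ∧ -2 ≤ v - j ∧ -2 ≤ (u - i) + (v - j))) (ho1 : u ≤ m - 2)
    (ho2 : v ≤ n - 2) (hm : 2 ≤ m - i) (hn : 2 ≤ n - j)
    (hP : base (m - i) (n - j) ≤ 2 * (m - i + 3) * (n - j + 3) - 5 - 15 * k) :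
    (4 + u) * (4 + v) - 2 * ((m - 1 - u) + (n - 1 - v)) ≤
      2 * (m + 3) * (n + 3) - 5 - 15 * (k + 1) := by
  rcases hij with ⟨rfl, rfl⟩ | ⟨rfl, rfl⟩ | ⟨rfl, rfl⟩ | ⟨rfl, rfl⟩ | ⟨rfl, rfl⟩
  · rw [sub_zero] at *
    exact arith_one10 h1 h2 h3 (by omega) ho1 ho2 hm hn hP
  · rw [sub_zero] at *
    exact arith_one20 h1 h2 h3 (by omega) ho1 ho2 hm hn hP
  · have := arith_one10 (m := n) (n := m) (u := v) (v := u) (k := k) h2 h1 (by omega) (by omega)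
      ho2 ho1 hn (by omega)
      (by
        rw [base_comm]
        rw [sub_zero] at hP
        refine hP.trans (le_of_eq ?_)
        ring)
    calc (4 + u) * (4 + v) - 2 * ((m - 1 - u) + (n - 1 - v))
        = (4 + v) * (4 + u) - 2 * ((n - 1 - v) + (m - 1 - u)) := by ring
      _ ≤ _ := this
      _ = _ := by ring
  · have := arith_one20 (m := n) (n := m) (u := v) (v := u) (k := k) h2 h1 (by omega) (by omega)
      ho2 ho1 hn (by omega)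
      (by
        rw [base_comm]
        rw [sub_zero] at hP
        refine hP.trans (le_of_eq ?_)
        ring)
    calc (4 + u) * (4 + v) - 2 * ((m - 1 - u) + (n - 1 - v))
        = (4 + v) * (4 + u) - 2 * ((n - 1 - v) + (m - 1 - u)) := by ring
      _ ≤ _ := this
      _ = _ := by ring
  · have hb := (base_facts hm hn).1
    exact arith_one11 h1 h2 h3 (by omega) ho1 ho2 hm hn (by omega)

/-- the lower bound obtained for a cut -/
theorem arith_pair {aa bb cc dd P x y : ℤ} (hx : P - 2 * (bb + dd) ≤ x)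
    (hy : P - 2 * (aa + cc) ≤ y) :
    2 * ((bb - 1) * (cc - 1)) + 2 * ((aa - 1) * (dd - 1)) + 1 ≤
      x + y + 2 * (bb * cc + aa * dd - P) + 5 := by
  nlinarith

/-- type F2, half of the cases -/
theorem arith_F2_half {u v u' v' κ ρ a c x y : ℤ} (n1 : -2 ≤ u) (n2 : -2 ≤ v) (n3 : -2 ≤ u + v)
    (n1' : -2 ≤ u') (n2' : -2 ≤ v') (n3' : -2 ≤ u' + v')
    (hcase : 0 ≤ v ∨ (u = -1 ∧ v = -1))
    (hκ : min (u + 3) (u + v + 3) ≤ κ) (hρ : min (v + 3) (u + v + 3) ≤ ρ)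
    (ha : 1 ≤ a) (hc : 1 ≤ c) (hκ1 : 1 ≤ κ) (hρ1 : 1 ≤ ρ) (hx0 : 0 ≤ x) (hy0 : 0 ≤ y)
    (hx : (4 + u') * (4 + v') - 2 * (κ + c) ≤ x) (hy : (4 + u') * (4 + v') - 2 * (a + ρ) ≤ y)
    (g1 : 0 ≤ u' → 0 ≤ v' → 3 ≤ κ)
    (g2 : κ = 1 → v' = -2 ∨ (v' = -1 ∧ 4 * u' + 5 ≤ x ∧ 4 ≤ c))
    (hh : 2 ≤ c + v' + 1) :
    u * v + 6 * u + 6 * v + 20 ≤
      x + y + 2 * (κ * ρ + a * c - (4 + u') * (4 + v')) + 5 +
        2 * ((a + κ + u' + 1) + (c + ρ + v' + 1)) := by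
  have hac1 : a ≤ a * c := by nlinarith
  have hac2 : c ≤ a * c := by nlinarith
  have hi : 2 * (κ * ρ) + 2 * (a * c) + 2 * (u' + v') + 9 ≤
      x + y + 2 * (κ * ρ + a * c - (4 + u') * (4 + v')) + 5 +
        2 * ((a + κ + u' + 1) + (c + ρ + v' + 1)) := by
    linarith
  have hii : 2 * (κ * ρ) + 2 * ρ + 2 * (a * c) + 2 * a - 7 - 2 * (u' + v') - u' * v' ≤
      x + y + 2 * (κ * ρ + a * c - (4 + u') * (4 + v')) + 5 +
        2 * ((a + κ + u' + 1) + (c + ρ + v' + 1)) := by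
    nlinarith
  have hv2 : v' = -1 → x + y + 2 * (κ * ρ) + 2 * (a * c) + 2 * a + 2 * c + 2 * κ + 2 * ρ - 17
      - 4 * u' ≤
      x + y + 2 * (κ * ρ + a * c - (4 + u') * (4 + v')) + 5 +
        2 * ((a + κ + u' + 1) + (c + ρ + v' + 1)) := by
    rintro rfl
    nlinarith
  have huv : ¬ (0 ≤ u' ∧ 0 ≤ v') → u' * v' ≤ 1 := by
    intro h
    rcases (show u' = -1 ∧ v' = -1 ∨ (u' ≤ 0 ∧ 0 ≤ v') ∨ (0 ≤ u' ∧ v' ≤ 0) by omega) with h | h | h
    · obtain ⟨rfl, rfl⟩ := h; norm_num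
    · nlinarith
    · nlinarith
  set R := x + y + 2 * (κ * ρ + a * c - (4 + u') * (4 + v')) + 5 +
        2 * ((a + κ + u' + 1) + (c + ρ + v' + 1)) with hR
  clear_value R
  have hκρ : κ * ρ ≥ κ ∧ κ * ρ ≥ ρ := ⟨by nlinarith, by nlinarith⟩
  rcases (show (0 ≤ u ∧ 0 ≤ v) ∨ (u = -1 ∧ 0 ≤ v) ∨ (u = -2 ∧ 0 ≤ v) ∨ (u = -1 ∧ v = -1) by omega)
    with h | h | h | h
  · have hk : u + 3 ≤ κ := by omega
    have hr : v + 3 ≤ ρ := by omega
    clear hii hv2 huv g1 g2 hκ hρ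
    have p1 : 0 ≤ (κ - 3 - u) * (ρ + 3) := mul_nonneg (by omega) (by omega)
    have p2 : 0 ≤ (ρ - 3 - v) * (u + 6) := mul_nonneg (by omega) (by omega)
    have p3 : 0 ≤ (κ - 3) * (ρ - 3) := mul_nonneg (by omega) (by omega)
    nlinarith
  · obtain ⟨rfl, hv⟩ := h
    have hk : 2 ≤ κ := by omega
    have hr : v + 2 ≤ ρ := by omega
    rcases eq_or_lt_of_le hk with hk2 | hk2
    · subst hk2
      have hno : ¬ (0 ≤ u' ∧ 0 ≤ v') := by
        rintro ⟨q1, q2⟩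
        have := g1 q1 q2
        omega
      have := huv hno
      clear huv g1 g2 hv2 hκ hρ
      generalize u' * v' = Z at *
      generalize a * c = Z' at *
      omega
    · have hkr : 3 * ρ ≤ κ * ρ := by nlinarith
      clear huv g1 g2 hv2 hκ hρ hii
      generalize a * c = Z' at *
      generalize κ * ρ = Z at *
      omega
  · obtain ⟨rfl, hv⟩ := h
    have hr : v + 1 ≤ ρ := by omega
    rcases eq_or_lt_of_le hκ1 with hk2 | hk2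
    · subst hk2
      rcases g2 rfl with h5 | ⟨h5, h6, h7⟩
      · subst h5
        have h3c : 3 ≤ c := by omega
        have h8 : 3 * a ≤ a * c := by nlinarith
        clear huv g1 g2 hv2 hκ hρ
        have e : u' * -2 = -2 * u' := by ring
        rw [e] at hii
        generalize a * c = Z' at *
        omega
      · have := hv2 h5
        subst h5
        have h8 : 4 * a ≤ a * c := by nlinarith
        clear huv g1 g2 hv2 hκ hρ hii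
        generalize a * c = Z' at *
        omega
    · have hkr : 2 * ρ ≤ κ * ρ := by nlinarith
      clear huv g1 g2 hv2 hκ hρ hii
      generalize a * c = Z' at *
      generalize κ * ρ = Z at *
      omega
  · obtain ⟨rfl, rfl⟩ := h
    clear huv g1 g2 hv2 hκ hρ hii
    generalize a * c = Z' at *
    generalize κ * ρ = Z at *
    omega

/-- type F2 -/
theorem arith_F2 {u v u' v' κ ρ a c x y : ℤ} (n1 : -2 ≤ u) (n2 : -2 ≤ v) (n3 : -2 ≤ u + v)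
    (n1' : -2 ≤ u') (n2' : -2 ≤ v') (n3' : -2 ≤ u' + v')
    (hκ : min (u + 3) (u + v + 3) ≤ κ) (hρ : min (v + 3) (u + v + 3) ≤ ρ)
    (ha : 1 ≤ a) (hc : 1 ≤ c) (hκ1 : 1 ≤ κ) (hρ1 : 1 ≤ ρ) (hx0 : 0 ≤ x) (hy0 : 0 ≤ y)
    (hx : (4 + u') * (4 + v') - 2 * (κ + c) ≤ x) (hy : (4 + u') * (4 + v') - 2 * (a + ρ) ≤ y)
    (g1 : 0 ≤ u' → 0 ≤ v' → 3 ≤ κ ∧ 3 ≤ ρ)
    (g2 : κ = 1 → v' = -2 ∨ (v' = -1 ∧ 4 * u' + 5 ≤ x ∧ 4 ≤ c))
    (g2' : ρ = 1 → u' = -2 ∨ (u' = -1 ∧ 4 * v' + 5 ≤ y ∧ 4 ≤ a))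
    (hh : 2 ≤ c + v' + 1) (hh' : 2 ≤ a + u' + 1) :
    (4 + u) * (4 + v) - 2 * ((a + κ + u' + 1 - 1 - u) + (c + ρ + v' + 1 - 1 - v)) ≤
      x + y + 2 * (κ * ρ + a * c - (4 + u') * (4 + v')) + 5 := by
  by_cases hcase : 0 ≤ v ∨ (u = -1 ∧ v = -1)
  · have := arith_F2_half n1 n2 n3 n1' n2' n3' hcase hκ hρ ha hc hκ1 hρ1 hx0 hy0 hx hy
      (fun q1 q2 => (g1 q1 q2).1) g2 hh
    linarith
  · have := arith_F2_half (u := v) (v := u) (u' := v') (v' := u') (κ := ρ) (ρ := κ) (a := c)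
      (c := a) (x := y) (y := x) n2 n1 (by omega) n2' n1' (by omega) (by omega) (by omega)
      (by omega) hc ha hρ1 hκ1 hy0 hx0 (by linarith) (by linarith)
      (fun q1 q2 => (g1 q2 q1).2) g2' hh'
    linarith

/-- type two: inner term -/
theorem arith_two_inner {u v : ℤ} (n1 : -2 ≤ u) (n2 : -2 ≤ v) (n3 : -2 ≤ u + v) :
    -4 ≤ 2 * ((min (u + 3) (u + v + 3) - 1) * (min (v + 3) (u + v + 3) - 1)) - 7
      - 2 * (u + v) - u * v := by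
  rcases (show (0 ≤ u ∧ 0 ≤ v) ∨ (u = -1 ∧ 0 ≤ v) ∨ (u = -2 ∧ 0 ≤ v) ∨ (u = -1 ∧ v = -1) ∨
    (0 ≤ u ∧ v = -1) ∨ (0 ≤ u ∧ v = -2) by omega) with h | h | h | h | h | h
  · rw [min_eq_left (by omega), min_eq_left (by omega)]
    nlinarith
  · obtain ⟨rfl, h⟩ := h
    rw [min_eq_left (by omega), min_eq_right (by omega)]
    nlinarith
  · obtain ⟨rfl, h⟩ := h
    rw [min_eq_left (by omega), min_eq_right (by omega)]
    nlinarith
  · obtain ⟨rfl, rfl⟩ := h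
    norm_num
  · obtain ⟨h, rfl⟩ := h
    rw [min_eq_right (by omega), min_eq_left (by omega)]
    nlinarith
  · obtain ⟨h, rfl⟩ := h
    rw [min_eq_right (by omega), min_eq_left (by omega)]
    nlinarith

/-- type two: outer term -/
theorem arith_two_outer {u v : ℤ} (n1 : -2 ≤ u) (n2 : -2 ≤ v) (n3 : -2 ≤ u + v) :
    12 - 4 * max 3 (min (u + 3) (u + v + 3) + 1) - 4 * max 3 (min (v + 3) (u + v + 3) + 1) ≤
      2 * ((min (u + 3) (u + v + 3) - 1) * (min (v + 3) (u + v + 3) - 1)) -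
        (u * v + 6 * u + 6 * v + 20) := by
  rcases (show (0 ≤ u ∧ 0 ≤ v) ∨ (u = -1 ∧ 0 ≤ v) ∨ (u = -2 ∧ 0 ≤ v) ∨ (u = -1 ∧ v = -1) ∨
    (0 ≤ u ∧ v = -1) ∨ (0 ≤ u ∧ v = -2) by omega) with h | h | h | h | h | h
  · rw [min_eq_left (by omega), min_eq_left (by omega), max_eq_right (by omega),
      max_eq_right (by omega)]
    nlinarith
  · obtain ⟨rfl, h⟩ := h
    rw [min_eq_left (by omega), min_eq_right (by omega), max_eq_right (by omega),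
      max_eq_right (by omega)]
    nlinarith
  · obtain ⟨rfl, h⟩ := h
    rw [min_eq_left (by omega), min_eq_right (by omega)]
    have e : (2 : ℤ) * ((-2 + 3 - 1) * (-2 + v + 3 - 1)) = 0 := by ring
    rw [e]
    omega
  · obtain ⟨rfl, rfl⟩ := h
    norm_num
  · obtain ⟨h, rfl⟩ := h
    rw [min_eq_right (by omega), min_eq_left (by omega), max_eq_right (by omega),
      max_eq_right (by omega)]
    nlinarith
  · obtain ⟨h, rfl⟩ := h
    rw [min_eq_right (by omega), min_eq_left (by omega)]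
    have e : (2 : ℤ) * ((u + -2 + 3 - 1) * (-2 + 3 - 1)) = 0 := by ring
    rw [e]
    omega

/-- type two -/
theorem arith_two {u v u' v' aa bb cc dd x y : ℤ} (n1 : -2 ≤ u) (n2 : -2 ≤ v) (n3 : -2 ≤ u + v)
    (n1' : -2 ≤ u') (n2' : -2 ≤ v') (n3' : -2 ≤ u' + v')
    (hbb : 1 ≤ bb) (hdd : 1 ≤ dd)
    (haa : min 3 (v' + 3) ≤ aa) (hcc : min 3 (u' + 3) ≤ cc)
    (haa2 : min (u + 3) (u + v + 3) + min 3 (v' + 3) - 2 ≤ aa)
    (hcc2 : min (v + 3) (u + v + 3) + min 3 (u' + 3) - 2 ≤ cc)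
    (hx : (4 + u') * (4 + v') - 2 * (bb + dd) ≤ x)
    (hy : 2 * ((min (u + 3) (u + v + 3) - 1) * (min (v + 3) (u + v + 3) - 1)) +
      2 * ((min (u' + 3) (u' + v' + 3) - 1) * (min (v' + 3) (u' + v' + 3) - 1)) ≤ y) :
    (4 + u) * (4 + v) - 2 * ((bb + aa + u' + 1 - 1 - u) + (dd + cc + v' + 1 - 1 - v)) ≤
      x + y + 2 * (bb * cc + aa * dd - (4 + u') * (4 + v')) + 5 := by
  have hi := arith_two_inner n1' n2' n3'
  have ho := arith_two_outer n1 n2 n3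
  have hs : max 3 (min (u + 3) (u + v + 3) + 1) + max 3 (min (v + 3) (u + v + 3) + 1) - 2 ≤
      aa + cc := by omega
  have p1 : cc ≤ bb * cc := by
    have : 0 ≤ cc := by omega
    nlinarith
  have p2 : aa ≤ aa * dd := by
    have : 0 ≤ aa := by omega
    nlinarith
  nlinarith

end Pool.Agent.BootPerc
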