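import Pool.Agent.BootPerc.Lower2

set_option autoImplicit false

namespace Pool.Agent.BootPerc

theorem mem_grid {m n : ℕ} {p : ℤ × ℤ} :
    p ∈ grid m n ↔ 1 ≤ p.1 ∧ p.1 ≤ m ∧ 1 ≤ p.2 ∧ p.2 ≤ n := by
  unfold grid
  rw [Finset.mem_product, Finset.mem_Icc, Finset.mem_Icc]
  tauto

theorem mem_grid_box {m n : ℕ} {p : ℤ × ℤ} : p ∈ grid m n ↔ p ∈ box 1 m 1 n := by
  rw [mem_grid, mem_box]

theorem mem_infStep {m n : ℕ} {A : Finset (ℤ × ℤ)} {p : ℤ × ℤ} : p ∈ infStep m n A ↔
    p ∈ A ∨ (p ∈ grid m n ∧ ∃ q ∈ A, ∃ r ∈ A, q ≠ r ∧ Adj p q ∧ Adj p r) := by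
  unfold infStep
  rw [Finset.mem_union, Finset.mem_filter]
  constructor
  · rintro (h | ⟨h1, h2⟩)
    · exact Or.inl h
    · right
      refine ⟨h1, ?_⟩
      obtain ⟨q, hq, r, hr, hne⟩ := Finset.one_lt_card.1 (show 1 < _ from h2)
      rw [Finset.mem_filter] at hq hr
      exact ⟨q, hq.1, r, hr.1, hne, hq.2, hr.2⟩
  · rintro (h | ⟨h1, q, hq, r, hr, hne, h2, h3⟩)
    · exact Or.inl h
    · right
      refine ⟨h1, ?_⟩
      have : 1 < (A.filter (fun q => Adj p q)).card := Finset.one_lt_card.2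
        ⟨q, Finset.mem_filter.2 ⟨hq, h2⟩, r, Finset.mem_filter.2 ⟨hr, h3⟩, hne⟩
      exact this

theorem inf_of_iterate {m n : ℕ} {A : Finset (ℤ × ℤ)} (k : ℕ) :
    ∀ p ∈ (infStep m n)^[k] A, Inf A p := by
  induction k with
  | zero => intro p hp; exact Inf.base (by simpa using hp)
  | succ k ih =>
    intro p hp
    rw [Function.iterate_succ_apply', mem_infStep] at hp
    rcases hp with h | ⟨_, q, hq, r, hr, hne, h2, h3⟩
    · exact ih p h
    · exact Inf.step hne h2 h3 (ih q hq) (ih r hr)

theorem iterate_sub_grid {m n : ℕ} {A : Finset (ℤ × ℤ)} (hA : A ⊆ grid m n) (k : ℕ) :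
    (infStep m n)^[k] A ⊆ grid m n := by
  induction k with
  | zero => simpa using hA
  | succ k ih =>
    intro p hp
    rw [Function.iterate_succ_apply', mem_infStep] at hp
    rcases hp with h | ⟨h, _⟩
    · exact ih h
    · exact h

theorem percolates_iff {m n : ℕ} {A : Finset (ℤ × ℤ)} :
    Percolates m n A ↔ A ⊆ grid m n ∧ ∀ p ∈ grid m n, Inf A p := by
  constructor
  · rintro ⟨h1, k, hk⟩
    refine ⟨h1, fun p hp => inf_of_iterate k p (by rw [hk]; exact hp)⟩
  · rintro ⟨h1, h2⟩
    refine ⟨h1, ?_⟩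
    -- the iterates stabilise
    have hstab : ∃ k : ℕ, (infStep m n)^[k + 1] A = (infStep m n)^[k] A := by
      by_contra hcon
      push Not at hcon
      have hsub : ∀ k, (infStep m n)^[k] A ⊆ (infStep m n)^[k + 1] A := by
        intro k
        rw [Function.iterate_succ_apply']
        exact Finset.subset_union_left
      have hcard : ∀ k : ℕ, k ≤ ((infStep m n)^[k] A).card := by
        intro k
        induction k with
        | zero => simp
        | succ k ih =>
          have : (infStep m n)^[k] A ⊂ (infStep m n)^[k + 1] A :=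
            Finset.ssubset_iff_subset_ne.2 ⟨hsub k, fun h => hcon k h.symm⟩
          have := Finset.card_lt_card this
          omega
      have e1 := hcard ((grid m n).card + 1)
      have e2 := Finset.card_le_card (iterate_sub_grid h1 ((grid m n).card + 1))
      omega
    obtain ⟨k, hk⟩ := hstab
    refine ⟨k, ?_⟩
    set C := (infStep m n)^[k] A with hC
    have hsubC : C ⊆ grid m n := iterate_sub_grid h1 k
    have hstepC : infStep m n C = C := by
      rw [Function.iterate_succ_apply'] at hk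
      exact hk
    have hAC : A ⊆ C := by
      have : ∀ j : ℕ, A ⊆ (infStep m n)^[j] A := by
        intro j
        induction j with
        | zero => simp
        | succ j ih =>
          rw [Function.iterate_succ_apply']
          exact ih.trans Finset.subset_union_left
      exact this k
    have hclosed : Closed (C : Set (ℤ × ℤ)) := by
      intro p q r hne e1 e2 hq hr
      have hq' := hsubC hq
      have hr' := hsubC hr
      have hp : p ∈ grid m n := by
        rw [mem_grid_box] at *
        exact closed_box _ _ _ _ p q r hne e1 e2 hq' hr'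
      have : p ∈ infStep m n C := mem_infStep.2 (Or.inr ⟨hp, q, hq, r, hr, hne, e1, e2⟩)
      rw [hstepC] at this
      exact this
    apply Finset.Subset.antisymm hsubC
    intro p hp
    exact (h2 p hp).sub hclosed (fun q hq => hAC hq)

/-- Spanning sets of the box with an avoided site are minimal percolating sets. -/
theorem minPercolates_of {m n : ℕ} {T : Finset (ℤ × ℤ)} (h : Spans T 1 m 1 n)
    {p : ℤ × ℤ} (hp : p ∈ box 1 m 1 n) (hav : Av T p) : MinPercolates m n T := by
  constructor
  · rw [percolates_iff]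
    exact ⟨fun q hq => mem_grid_box.2 ((h q).1 (Inf.base hq)), fun q hq => (h q).2 (mem_grid_box.1 hq)⟩
  · intro B hB hperc
    rw [percolates_iff] at hperc
    obtain ⟨x, hx, hxB⟩ := Finset.exists_of_ssubset hB
    refine hav x hx ((hperc.2 p (mem_grid_box.2 hp)).mono ?_)
    intro y hy
    exact Finset.mem_erase.2 ⟨fun e => hxB (e ▸ hy), hB.1 hy⟩

theorem bddAbove_minPerc (m n : ℕ) :
    BddAbove {k : ℕ | ∃ A : Finset (ℤ × ℤ), MinPercolates m n A ∧ A.card = k} := by
  refine ⟨(grid m n).card, ?_⟩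
  rintro k ⟨A, hA, rfl⟩
  exact Finset.card_le_card hA.1.1

theorem le_maxMinPerc {m n : ℕ} {A : Finset (ℤ × ℤ)} (hA : MinPercolates m n A) :
    A.card ≤ maxMinPerc m n := le_csSup (bddAbove_minPerc m n) ⟨A, hA, rfl⟩

theorem lower_bound {n s K k : ℕ} (hs : 1 ≤ s) (hsk : s ≤ 2 ^ k) (hw : 5 * s ≤ n + 1)
    (hh : 3 * K + 2 * k + 4 ≤ n) (hK : 1 ≤ K) : s * (2 * K + 2) ≤ maxMinPerc n n := by
  obtain ⟨T, h1, h2, p, hp, hav⟩ := exists_large hs hsk hw hh hK
  exact h1.trans (le_maxMinPerc (minPercolates_of h2 hp hav))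

end Pool.Agent.BootPerc
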