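import Pool.Agent.BootPerc.Defs

set_option autoImplicit false

namespace Pool.Agent.BootPerc

theorem Adj.symm {p q : ℤ × ℤ} (h : Adj p q) : Adj q p := by
  unfold Adj at *
  rw [abs_sub_comm q.1, abs_sub_comm q.2]; exact h

theorem adj_iff {p q : ℤ × ℤ} : Adj p q ↔
    (p.1 = q.1 + 1 ∧ p.2 = q.2) ∨ (p.1 + 1 = q.1 ∧ p.2 = q.2) ∨
    (p.1 = q.1 ∧ p.2 = q.2 + 1) ∨ (p.1 = q.1 ∧ p.2 + 1 = q.2) := by
  unfold Adj
  rcases abs_cases (p.1 - q.1) with h | h <;> rcases abs_cases (p.2 - q.2) with h' | h' <;>
    omega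

theorem adj_mk {a b c d : ℤ} : Adj (a, b) (c, d) ↔
    (a = c + 1 ∧ b = d) ∨ (a + 1 = c ∧ b = d) ∨
    (a = c ∧ b = d + 1) ∨ (a = c ∧ b + 1 = d) := adj_iff

theorem ne_mk {a b c d : ℤ} : (a, b) ≠ (c, d) ↔ a ≠ c ∨ b ≠ d := by
  simp only [ne_eq, Prod.mk.injEq]
  tauto

/-- The sites eventually infected from `A` by the 2-neighbour rule in the whole lattice. -/
inductive Inf (A : Finset (ℤ × ℤ)) : ℤ × ℤ → Prop
  | base {p : ℤ × ℤ} : p ∈ A → Inf A p
  | step {p q r : ℤ × ℤ} : q ≠ r → Adj p q → Adj p r → Inf A q → Inf A r → Inf A p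

/-- Closed under the 2-neighbour rule. -/
def Closed (C : Set (ℤ × ℤ)) : Prop :=
  ∀ p q r : ℤ × ℤ, q ≠ r → Adj p q → Adj p r → q ∈ C → r ∈ C → p ∈ C

theorem Inf.sub {A : Finset (ℤ × ℤ)} {C : Set (ℤ × ℤ)} (hC : Closed C)
    (hA : ∀ p ∈ A, p ∈ C) {p : ℤ × ℤ} (h : Inf A p) : p ∈ C := by
  induction h with
  | base hp => exact hA _ hp
  | step hne h1 h2 _ _ ih1 ih2 => exact hC _ _ _ hne h1 h2 ih1 ih2

theorem closed_Inf (A : Finset (ℤ × ℤ)) : Closed {p | Inf A p} := by
  intro p q r hne h1 h2 hq hr
  exact Inf.step hne h1 h2 hq hr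

theorem Inf.mono {A B : Finset (ℤ × ℤ)} (h : A ⊆ B) {p : ℤ × ℤ} (hp : Inf A p) : Inf B p :=
  hp.sub (closed_Inf B) (fun _ hq => Inf.base (h hq))

theorem Inf.trans {A B : Finset (ℤ × ℤ)} (h : ∀ q ∈ A, Inf B q) {p : ℤ × ℤ} (hp : Inf A p) :
    Inf B p :=
  hp.sub (closed_Inf B) h

/-- The box `[l,r] × [b,t]`. -/
def box (l r b t : ℤ) : Set (ℤ × ℤ) := {p | l ≤ p.1 ∧ p.1 ≤ r ∧ b ≤ p.2 ∧ p.2 ≤ t}

theorem mem_box {l r b t : ℤ} {p : ℤ × ℤ} :
    p ∈ box l r b t ↔ l ≤ p.1 ∧ p.1 ≤ r ∧ b ≤ p.2 ∧ p.2 ≤ t := Iff.rfl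

theorem closed_box (l r b t : ℤ) : Closed (box l r b t) := by
  rintro ⟨p1, p2⟩ ⟨q1, q2⟩ ⟨r1, r2⟩ hne h1 h2 hq hr
  rw [adj_iff] at h1 h2
  rw [mem_box] at *
  simp only [ne_eq, Prod.mk.injEq] at *
  omega

/-- All sites of the box get infected from `A`. -/
def Fills (A : Finset (ℤ × ℤ)) (l r b t : ℤ) : Prop := ∀ p ∈ box l r b t, Inf A p

theorem Fills.of {A : Finset (ℤ × ℤ)} {l r b t : ℤ} (h : Fills A l r b t) {x y : ℤ}
    (h1 : l ≤ x) (h2 : x ≤ r) (h3 : b ≤ y) (h4 : y ≤ t) : Inf A (x, y) :=
  h (x, y) ⟨h1, h2, h3, h4⟩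

/-- Column growth: if the column left of `x` is infected on `[b,t]` and one site of the column `x`
is infected in this range, then the whole column is. -/
theorem fill_col {A : Finset (ℤ × ℤ)} {x x' b t y : ℤ} (hx : x' = x + 1 ∨ x' = x - 1)
    (h : ∀ z, b ≤ z → z ≤ t → Inf A (x', z)) (hb : b ≤ y) (ht : y ≤ t) (hy : Inf A (x, y)) :
    ∀ z, b ≤ z → z ≤ t → Inf A (x, z) := by
  have up : ∀ n : ℕ, y + n ≤ t → Inf A (x, y + n) := by
    intro n
    induction n with
    | zero => intro _; simpa using hy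
    | succ n ih =>
      intro hn
      have h1 : Inf A (x, y + n) := ih (by push_cast at hn ⊢; omega)
      refine Inf.step (q := (x, y + n)) (r := (x', y + (n + 1 : ℕ))) ?_ ?_ ?_ h1
        (h _ (by omega) hn)
      · rw [ne_mk]; omega
      · rw [adj_mk]; push_cast; omega
      · rw [adj_mk]; push_cast; omega
  have down : ∀ n : ℕ, b ≤ y - n → Inf A (x, y - n) := by
    intro n
    induction n with
    | zero => intro _; simpa using hy
    | succ n ih =>
      intro hn
      have h1 : Inf A (x, y - n) := ih (by push_cast at hn ⊢; omega)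
      refine Inf.step (q := (x, y - n)) (r := (x', y - (n + 1 : ℕ))) ?_ ?_ ?_ h1
        (h _ hn (by omega))
      · rw [ne_mk]; omega
      · rw [adj_mk]; push_cast; omega
      · rw [adj_mk]; push_cast; omega
  intro z hz1 hz2
  rcases le_total y z with hyz | hyz
  · have := up (z - y).toNat (by omega)
    have e : y + ((z - y).toNat : ℤ) = z := by omega
    rwa [e] at this
  · have := down (y - z).toNat (by omega)
    have e : y - ((y - z).toNat : ℤ) = z := by omega
    rwa [e] at this

/-- Row growth. -/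
theorem fill_row {A : Finset (ℤ × ℤ)} {y y' l r x : ℤ} (hy : y' = y + 1 ∨ y' = y - 1)
    (h : ∀ z, l ≤ z → z ≤ r → Inf A (z, y')) (hb : l ≤ x) (ht : x ≤ r) (hx : Inf A (x, y)) :
    ∀ z, l ≤ z → z ≤ r → Inf A (z, y) := by
  have up : ∀ n : ℕ, x + n ≤ r → Inf A (x + n, y) := by
    intro n
    induction n with
    | zero => intro _; simpa using hx
    | succ n ih =>
      intro hn
      have h1 : Inf A (x + n, y) := ih (by push_cast at hn ⊢; omega)
      refine Inf.step (q := (x + n, y)) (r := (x + (n + 1 : ℕ), y')) ?_ ?_ ?_ h1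
        (h _ (by omega) hn)
      · rw [ne_mk]; omega
      · rw [adj_mk]; push_cast; omega
      · rw [adj_mk]; push_cast; omega
  have down : ∀ n : ℕ, l ≤ x - n → Inf A (x - n, y) := by
    intro n
    induction n with
    | zero => intro _; simpa using hx
    | succ n ih =>
      intro hn
      have h1 : Inf A (x - n, y) := ih (by push_cast at hn ⊢; omega)
      refine Inf.step (q := (x - n, y)) (r := (x - (n + 1 : ℕ), y')) ?_ ?_ ?_ h1
        (h _ hn (by omega))
      · rw [ne_mk]; omega
      · rw [adj_mk]; push_cast; omega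
      · rw [adj_mk]; push_cast; omega
  intro z hz1 hz2
  rcases le_total x z with hyz | hyz
  · have := up (z - x).toNat (by omega)
    have e : x + ((z - x).toNat : ℤ) = z := by omega
    rwa [e] at this
  · have := down (x - z).toNat (by omega)
    have e : x - ((x - z).toNat : ℤ) = z := by omega
    rwa [e] at this

theorem Fills.right {A : Finset (ℤ × ℤ)} {l r b t y : ℤ} (h : Fills A l r b t) (hlr : l ≤ r)
    (hb : b ≤ y) (ht : y ≤ t) (hy : Inf A (r + 1, y)) : Fills A l (r + 1) b t := by
  intro p hp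
  obtain ⟨x, z⟩ := p
  obtain ⟨h1, h2, h3, h4⟩ := hp
  simp only at h1 h2 h3 h4
  rcases lt_or_eq_of_le h2 with h5 | h5
  · exact h _ ⟨h1, by simp only; omega, h3, h4⟩
  · subst h5
    exact fill_col (x := r + 1) (x' := r) (Or.inr (by omega))
      (fun z hz1 hz2 => h.of hlr (le_refl _) hz1 hz2) hb ht hy z h3 h4

theorem Fills.left {A : Finset (ℤ × ℤ)} {l r b t y : ℤ} (h : Fills A l r b t) (hlr : l ≤ r)
    (hb : b ≤ y) (ht : y ≤ t) (hy : Inf A (l - 1, y)) : Fills A (l - 1) r b t := by
  intro p hp
  obtain ⟨x, z⟩ := p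
  obtain ⟨h1, h2, h3, h4⟩ := hp
  simp only at h1 h2 h3 h4
  rcases lt_or_eq_of_le h1 with h5 | h5
  · exact h _ ⟨by simp only; omega, h2, h3, h4⟩
  · subst h5
    exact fill_col (x := l - 1) (x' := l) (Or.inl (by omega))
      (fun z hz1 hz2 => h.of (le_refl _) hlr hz1 hz2) hb ht hy z h3 h4

theorem Fills.up {A : Finset (ℤ × ℤ)} {l r b t x : ℤ} (h : Fills A l r b t) (hbt : b ≤ t)
    (hb : l ≤ x) (ht : x ≤ r) (hy : Inf A (x, t + 1)) : Fills A l r b (t + 1) := by
  intro p hp
  obtain ⟨w, z⟩ := p
  obtain ⟨h1, h2, h3, h4⟩ := hp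
  simp only at h1 h2 h3 h4
  rcases lt_or_eq_of_le h4 with h5 | h5
  · exact h _ ⟨h1, h2, h3, by simp only; omega⟩
  · subst h5
    exact fill_row (y := t + 1) (y' := t) (Or.inr (by omega))
      (fun z hz1 hz2 => h.of hz1 hz2 hbt (le_refl _)) hb ht hy w h1 h2

theorem Fills.down {A : Finset (ℤ × ℤ)} {l r b t x : ℤ} (h : Fills A l r b t) (hbt : b ≤ t)
    (hb : l ≤ x) (ht : x ≤ r) (hy : Inf A (x, b - 1)) : Fills A l r (b - 1) t := by
  intro p hp
  obtain ⟨w, z⟩ := p
  obtain ⟨h1, h2, h3, h4⟩ := hp
  simp only at h1 h2 h3 h4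
  rcases lt_or_eq_of_le h3 with h5 | h5
  · exact h _ ⟨h1, h2, by simp only; omega, h4⟩
  · subst h5
    exact fill_row (y := b - 1) (y' := b) (Or.inl (by omega))
      (fun z hz1 hz2 => h.of hz1 hz2 (le_refl _) hbt) hb ht hy w h1 h2

theorem Fills.right_to {A : Finset (ℤ × ℤ)} {l r b t : ℤ} (h : Fills A l r b t) (hlr : l ≤ r)
    (r' : ℤ) (H : ∀ x, r < x → x ≤ r' → ∃ y, b ≤ y ∧ y ≤ t ∧ Inf A (x, y)) :
    Fills A l (max r r') b t := by
  rcases le_total r r' with hr | hr
  · rw [max_eq_right hr]
    have key : ∀ n : ℕ, r + n ≤ r' → Fills A l (r + n) b t := by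
      intro n
      induction n with
      | zero => intro _; simpa using h
      | succ n ih =>
        intro hn
        push_cast at hn ⊢
        obtain ⟨y, hy1, hy2, hy3⟩ := H (r + n + 1) (by omega) (by omega)
        have := (ih (by omega)).right (by omega) hy1 hy2 hy3
        rwa [← add_assoc]
    have := key (r' - r).toNat (by omega)
    have e : r + ((r' - r).toNat : ℤ) = r' := by omega
    rwa [e] at this
  · rw [max_eq_left hr]; exact h

theorem Fills.left_to {A : Finset (ℤ × ℤ)} {l r b t : ℤ} (h : Fills A l r b t) (hlr : l ≤ r)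
    (l' : ℤ) (H : ∀ x, l' ≤ x → x < l → ∃ y, b ≤ y ∧ y ≤ t ∧ Inf A (x, y)) :
    Fills A (min l l') r b t := by
  rcases le_total l' l with hr | hr
  · rw [min_eq_right hr]
    have key : ∀ n : ℕ, l' ≤ l - n → Fills A (l - n) r b t := by
      intro n
      induction n with
      | zero => intro _; simpa using h
      | succ n ih =>
        intro hn
        push_cast at hn ⊢
        obtain ⟨y, hy1, hy2, hy3⟩ := H (l - n - 1) (by omega) (by omega)
        have := (ih (by omega)).left (by omega) hy1 hy2 hy3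
        have e : l - ((n : ℤ) + 1) = l - n - 1 := by ring
        rwa [e]
    have := key (l - l').toNat (by omega)
    have e : l - ((l - l').toNat : ℤ) = l' := by omega
    rwa [e] at this
  · rw [min_eq_left hr]; exact h

theorem Fills.up_to {A : Finset (ℤ × ℤ)} {l r b t : ℤ} (h : Fills A l r b t) (hbt : b ≤ t)
    (t' : ℤ) (H : ∀ y, t < y → y ≤ t' → ∃ x, l ≤ x ∧ x ≤ r ∧ Inf A (x, y)) :
    Fills A l r b (max t t') := by
  rcases le_total t t' with hr | hr
  · rw [max_eq_right hr]
    have key : ∀ n : ℕ, t + n ≤ t' → Fills A l r b (t + n) := by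
      intro n
      induction n with
      | zero => intro _; simpa using h
      | succ n ih =>
        intro hn
        push_cast at hn ⊢
        obtain ⟨y, hy1, hy2, hy3⟩ := H (t + n + 1) (by omega) (by omega)
        have := (ih (by omega)).up (by omega) hy1 hy2 hy3
        rwa [← add_assoc]
    have := key (t' - t).toNat (by omega)
    have e : t + ((t' - t).toNat : ℤ) = t' := by omega
    rwa [e] at this
  · rw [max_eq_left hr]; exact h

theorem Fills.down_to {A : Finset (ℤ × ℤ)} {l r b t : ℤ} (h : Fills A l r b t) (hbt : b ≤ t)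
    (b' : ℤ) (H : ∀ y, b' ≤ y → y < b → ∃ x, l ≤ x ∧ x ≤ r ∧ Inf A (x, y)) :
    Fills A l r (min b b') t := by
  rcases le_total b' b with hr | hr
  · rw [min_eq_right hr]
    have key : ∀ n : ℕ, b' ≤ b - n → Fills A l r (b - n) t := by
      intro n
      induction n with
      | zero => intro _; simpa using h
      | succ n ih =>
        intro hn
        push_cast at hn ⊢
        obtain ⟨y, hy1, hy2, hy3⟩ := H (b - n - 1) (by omega) (by omega)
        have := (ih (by omega)).down (by omega) hy1 hy2 hy3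
        have e : b - ((n : ℤ) + 1) = b - n - 1 := by ring
        rwa [e]
    have := key (b - b').toNat (by omega)
    have e : b - ((b - b').toNat : ℤ) = b' := by omega
    rwa [e] at this
  · rw [min_eq_left hr]; exact h

/-- Two boxes `[l,r]×[b,t]` and `[l',r']×[b',t']` at L1 distance at most two. -/
def NearB (l r b t l' r' b' t' : ℤ) : Prop :=
  l' - r ≤ 2 ∧ l - r' ≤ 2 ∧ b' - t ≤ 2 ∧ b - t' ≤ 2 ∧
  (l' - r) + (b' - t) ≤ 2 ∧ (l' - r) + (b - t') ≤ 2 ∧
  (l - r') + (b' - t) ≤ 2 ∧ (l - r') + (b - t') ≤ 2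

/-- Two filled boxes with a common site: the hull gets filled. -/
theorem fill_inter {A : Finset (ℤ × ℤ)} {l r b t l' r' b' t' : ℤ} (h : Fills A l r b t)
    (h' : Fills A l' r' b' t') {x y : ℤ} (h1 : l ≤ x) (h2 : x ≤ r) (h3 : b ≤ y) (h4 : y ≤ t)
    (h1' : l' ≤ x) (h2' : x ≤ r') (h3' : b' ≤ y) (h4' : y ≤ t') :
    Fills A (min l l') (max r r') (min b b') (max t t') := by
  have e1 : Fills A l (max r r') b t :=
    h.right_to (by omega) r' (fun z hz1 hz2 => ⟨y, h3, h4, h'.of (by omega) hz2 h3' h4'⟩)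
  have e2 : Fills A (min l l') (max r r') b t :=
    e1.left_to (by omega) l' (fun z hz1 hz2 => ⟨y, h3, h4, h'.of hz1 (by omega) h3' h4'⟩)
  have e3 : Fills A (min l l') (max r r') b (max t t') :=
    e2.up_to (by omega) t' (fun z hz1 hz2 => ⟨x, by omega, by omega, h'.of h1' h2' (by omega) hz2⟩)
  exact e3.down_to (by omega) b'
    (fun z hz1 hz2 => ⟨x, by omega, by omega, h'.of h1' h2' hz1 (by omega)⟩)

/-- A filled box and a near infected site: the hull gets filled. -/
theorem fill_point {A : Finset (ℤ × ℤ)} {l r b t x y : ℤ} (h : Fills A l r b t) (hlr : l ≤ r)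
    (hbt : b ≤ t) (hp : Inf A (x, y)) (hn : NearB l r b t x x y y) :
    Fills A (min l x) (max r x) (min b y) (max t y) := by
  unfold NearB at hn
  obtain ⟨n1, n2, n3, n4, n5, n6, n7, n8⟩ := hn
  have mid : ∀ {p q s : ℤ × ℤ}, q ≠ s → Adj p q → Adj p s → Inf A q → Inf A s → Inf A p :=
    fun h1 h2 h3 h4 h5 => Inf.step h1 h2 h3 h4 h5
  -- first make a filled box that contains the point's column or row
  rcases lt_or_ge r x with hx | hx
  · -- point strictly on the right
    rcases lt_or_ge t y with hy | hy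
    · -- corner
      have ex : x = r + 1 := by omega
      have ey : y = t + 1 := by omega
      subst ex ey
      have i1 : Inf A (r + 1, t) := mid (q := (r, t)) (s := (r + 1, t + 1))
        (by rw [ne_mk]; omega) (by rw [adj_mk]; omega)
        (by rw [adj_mk]; omega) (h.of hlr le_rfl hbt le_rfl) hp
      have f1 := (h.right hlr hbt le_rfl i1).up hbt (by omega) le_rfl hp
      convert f1 using 1 <;> omega
    · rcases lt_or_ge y b with hy' | hy'
      · have ex : x = r + 1 := by omega
        have ey : y = b - 1 := by omega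
        subst ex ey
        have i1 : Inf A (r + 1, b) := mid (q := (r, b)) (s := (r + 1, b - 1))
          (by rw [ne_mk]; omega) (by rw [adj_mk]; omega)
          (by rw [adj_mk]; omega) (h.of hlr le_rfl le_rfl hbt) hp
        have f1 := (h.right hlr le_rfl hbt i1).down hbt (by omega) le_rfl hp
        convert f1 using 1 <;> omega
      · rcases lt_or_ge (r + 1) x with hx2 | hx2
        · have ex : x = r + 2 := by omega
          subst ex
          have i1 : Inf A (r + 1, y) := mid (q := (r, y)) (s := (r + 2, y))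
            (by rw [ne_mk]; omega) (by rw [adj_mk]; omega)
            (by rw [adj_mk]; omega) (h.of hlr le_rfl hy' hy) hp
          have f1 := (h.right hlr hy' hy i1).right (by omega) hy' hy
            (by have e : r + 1 + 1 = r + 2 := by ring
                rw [e]; exact hp)
          convert f1 using 1 <;> omega
        · have ex : x = r + 1 := by omega
          subst ex
          have f1 := h.right hlr hy' hy hp
          convert f1 using 1 <;> omega
  · rcases lt_or_ge x l with hx' | hx'
    · rcases lt_or_ge t y with hy | hy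
      · have ex : x = l - 1 := by omega
        have ey : y = t + 1 := by omega
        subst ex ey
        have i1 : Inf A (l - 1, t) := mid (q := (l, t)) (s := (l - 1, t + 1))
          (by rw [ne_mk]; omega) (by rw [adj_mk]; omega)
          (by rw [adj_mk]; omega) (h.of le_rfl hlr hbt le_rfl) hp
        have f1 := (h.left hlr hbt le_rfl i1).up hbt le_rfl (by omega) hp
        convert f1 using 1 <;> omega
      · rcases lt_or_ge y b with hy' | hy'
        · have ex : x = l - 1 := by omega
          have ey : y = b - 1 := by omega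
          subst ex ey
          have i1 : Inf A (l - 1, b) := mid (q := (l, b)) (s := (l - 1, b - 1))
            (by rw [ne_mk]; omega) (by rw [adj_mk]; omega)
            (by rw [adj_mk]; omega) (h.of le_rfl hlr le_rfl hbt) hp
          have f1 := (h.left hlr le_rfl hbt i1).down hbt le_rfl (by omega) hp
          convert f1 using 1 <;> omega
        · rcases lt_or_ge x (l - 1) with hx2 | hx2
          · have ex : x = l - 2 := by omega
            subst ex
            have i1 : Inf A (l - 1, y) := mid (q := (l, y)) (s := (l - 2, y))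
              (by rw [ne_mk]; omega) (by rw [adj_mk]; omega)
              (by rw [adj_mk]; omega) (h.of le_rfl hlr hy' hy) hp
            have f1 := (h.left hlr hy' hy i1).left (by omega) hy' hy
              (by have e : l - 1 - 1 = l - 2 := by ring
                  rw [e]; exact hp)
            convert f1 using 1 <;> omega
          · have ex : x = l - 1 := by omega
            subst ex
            have f1 := h.left hlr hy' hy hp
            convert f1 using 1 <;> omega
    · rcases lt_or_ge t y with hy | hy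
      · rcases lt_or_ge (t + 1) y with hx2 | hx2
        · have ey : y = t + 2 := by omega
          subst ey
          have i1 : Inf A (x, t + 1) := mid (q := (x, t)) (s := (x, t + 2))
            (by rw [ne_mk]; omega) (by rw [adj_mk]; omega)
            (by rw [adj_mk]; omega) (h.of hx' hx hbt le_rfl) hp
          have f1 := (h.up hbt hx' hx i1).up (by omega) hx' hx
            (by have e : t + 1 + 1 = t + 2 := by ring
                rw [e]; exact hp)
          convert f1 using 1 <;> omega
        · have ey : y = t + 1 := by omega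
          subst ey
          have f1 := h.up hbt hx' hx hp
          convert f1 using 1 <;> omega
      · rcases lt_or_ge y b with hy' | hy'
        · rcases lt_or_ge y (b - 1) with hx2 | hx2
          · have ey : y = b - 2 := by omega
            subst ey
            have i1 : Inf A (x, b - 1) := mid (q := (x, b)) (s := (x, b - 2))
              (by rw [ne_mk]; omega) (by rw [adj_mk]; omega)
              (by rw [adj_mk]; omega) (h.of hx' hx le_rfl hbt) hp
            have f1 := (h.down hbt hx' hx i1).down (by omega) hx' hx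
              (by have e : b - 1 - 1 = b - 2 := by ring
                  rw [e]; exact hp)
            convert f1 using 1 <;> omega
          · have ey : y = b - 1 := by omega
            subst ey
            have f1 := h.down hbt hx' hx hp
            convert f1 using 1 <;> omega
        · convert h using 1 <;> omega

/-- Two near filled boxes: the hull gets filled. -/
theorem fill_near {A : Finset (ℤ × ℤ)} {l r b t l' r' b' t' : ℤ} (h : Fills A l r b t)
    (h' : Fills A l' r' b' t') (hlr : l ≤ r) (hbt : b ≤ t) (hlr' : l' ≤ r') (hbt' : b' ≤ t')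
    (hn : NearB l r b t l' r' b' t') :
    Fills A (min l l') (max r r') (min b b') (max t t') := by
  unfold NearB at hn
  obtain ⟨n1, n2, n3, n4, n5, n6, n7, n8⟩ := hn
  -- nearest coordinates in the second box
  obtain ⟨x, hx1, hx2, hx3⟩ : ∃ x, l' ≤ x ∧ x ≤ r' ∧
      ((x = l' ∧ r < l') ∨ (x = r' ∧ r' < l) ∨ (l ≤ x ∧ x ≤ r)) := by
    rcases lt_or_ge r l' with h1 | h1
    · exact ⟨l', le_rfl, hlr', Or.inl ⟨rfl, h1⟩⟩
    · rcases lt_or_ge r' l with h2 | h2
      · exact ⟨r', hlr', le_rfl, Or.inr (Or.inl ⟨rfl, h2⟩)⟩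
      · exact ⟨max l l', by omega, by omega, Or.inr (Or.inr ⟨by omega, by omega⟩)⟩
  obtain ⟨y, hy1, hy2, hy3⟩ : ∃ y, b' ≤ y ∧ y ≤ t' ∧
      ((y = b' ∧ t < b') ∨ (y = t' ∧ t' < b) ∨ (b ≤ y ∧ y ≤ t)) := by
    rcases lt_or_ge t b' with h1 | h1
    · exact ⟨b', le_rfl, hbt', Or.inl ⟨rfl, h1⟩⟩
    · rcases lt_or_ge t' b with h2 | h2
      · exact ⟨t', hbt', le_rfl, Or.inr (Or.inl ⟨rfl, h2⟩)⟩
      · exact ⟨max b b', by omega, by omega, Or.inr (Or.inr ⟨by omega, by omega⟩)⟩
  have f1 := fill_point h hlr hbt (h'.of hx1 hx2 hy1 hy2) (by unfold NearB; omega)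
  have f2 := fill_inter f1 h' (x := x) (y := y) (by omega) (by omega) (by omega) (by omega)
    hx1 hx2 hy1 hy2
  convert f2 using 1 <;> omega

end Pool.Agent.BootPerc
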