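import Mathlib

set_option autoImplicit false

namespace Pool.Agent.BootPerc

/-- Two sites of the square lattice are adjacent when they differ by one in exactly one
coordinate. -/
def Adj (p q : ℤ × ℤ) : Prop := |p.1 - q.1| + |p.2 - q.2| = 1

instance adjDecidable (p q : ℤ × ℤ) : Decidable (Adj p q) := by unfold Adj; infer_instance

/-- The `m × n` grid `{1,…,m} × {1,…,n}`. -/
noncomputable def grid (m n : ℕ) : Finset (ℤ × ℤ) := Finset.Icc (1 : ℤ) m ×ˢ Finset.Icc (1 : ℤ) n

/-- One step of 2-neighbour bootstrap percolation in the `m × n` grid: every site of the grid with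
at least two infected neighbours becomes infected; infected sites stay infected. -/
noncomputable def infStep (m n : ℕ) (A : Finset (ℤ × ℤ)) : Finset (ℤ × ℤ) :=
  A ∪ (grid m n).filter (fun p => 2 ≤ (A.filter (fun q => Adj p q)).card)

/-- `A` is a set of sites of the grid from which every site is eventually infected. -/
def Percolates (m n : ℕ) (A : Finset (ℤ × ℤ)) : Prop :=
  A ⊆ grid m n ∧ ∃ k : ℕ, (infStep m n)^[k] A = grid m n

/-- `A` percolates and no proper subset of `A` percolates. -/
def MinPercolates (m n : ℕ) (A : Finset (ℤ × ℤ)) : Prop :=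
  Percolates m n A ∧ ∀ B : Finset (ℤ × ℤ), B ⊂ A → ¬ Percolates m n B

/-- The largest cardinality of a minimal percolating set of the `m × n` grid. -/
noncomputable def maxMinPerc (m n : ℕ) : ℕ :=
  sSup {k : ℕ | ∃ A : Finset (ℤ × ℤ), MinPercolates m n A ∧ A.card = k}

end Pool.Agent.BootPerc
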