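import Pool.Agent.BootPerc.Bridge

set_option autoImplicit false

namespace Pool.Agent.BootPerc

open Filter Topology

theorem tendsto_log_div : Tendsto (fun n : ℕ => (Nat.log 2 n : ℝ) / n) atTop (𝓝 0) := by
  have h1 : Tendsto (fun x : ℝ => Real.log x / x) atTop (𝓝 0) := by
    have := Real.isLittleO_log_id_atTop.tendsto_div_nhds_zero
    simpa using this
  have h2 : Tendsto (fun n : ℕ => Real.log n / n) atTop (𝓝 0) :=
    h1.comp tendsto_natCast_atTop_atTop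
  have h3 : Tendsto (fun n : ℕ => (1 / Real.log 2) * (Real.log n / n)) atTop (𝓝 0) := by
    have := h2.const_mul (1 / Real.log 2)
    simpa using this
  refine squeeze_zero (fun n => by positivity) (fun n => ?_) h3
  have h4 : (Nat.log 2 n : ℝ) ≤ Real.logb 2 n := by exact_mod_cast Real.natLog_le_logb n 2
  have h5 : Real.logb 2 n = (1 / Real.log 2) * Real.log n := by
    rw [Real.logb]; ring
  rw [h5] at h4
  calc (Nat.log 2 n : ℝ) / n ≤ ((1 / Real.log 2) * Real.log n) / n :=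
        div_le_div_of_nonneg_right h4 (Nat.cast_nonneg n)
    _ = (1 / Real.log 2) * (Real.log n / n) := by ring

theorem explicit_lower {n : ℕ} (hn : 40 ≤ n) (hl : 3 + 2 * (Nat.log 2 n + 1) + 4 ≤ n) :
    (2 / 15 : ℝ) * (n - 3) * (n - 3 - 2 * (Nat.log 2 n + 1)) ≤ (maxMinPerc n n : ℝ) := by
  set k := Nat.log 2 n + 1 with hk
  have h1 := lower_bound (n := n) (s := (n + 1) / 5) (K := (n - 4 - 2 * k) / 3) (k := k) (by omega)
    (by
      have := Nat.lt_pow_succ_log_self (b := 2) (by norm_num) n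
      have h3 : (n + 1) / 5 ≤ n := by omega
      rw [hk]
      exact h3.trans this.le) (by omega) (by omega) (by omega)
  have h2 : ((n : ℝ) - 3) / 5 ≤ (((n + 1) / 5 : ℕ) : ℝ) := by
    have : n - 3 ≤ 5 * ((n + 1) / 5) := by omega
    have h4 : ((n - 3 : ℕ) : ℝ) ≤ 5 * (((n + 1) / 5 : ℕ) : ℝ) := by exact_mod_cast this
    rw [Nat.cast_sub (by omega)] at h4
    push_cast at h4 ⊢
    linarith
  have h3 : (2 / 3 : ℝ) * ((n : ℝ) - 3 - 2 * k) ≤ 2 * (((n - 4 - 2 * k) / 3 : ℕ) : ℝ) + 2 := by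
    have : n - 6 - 2 * k ≤ 3 * ((n - 4 - 2 * k) / 3) := by omega
    have h4 : ((n - 6 - 2 * k : ℕ) : ℝ) ≤ 3 * (((n - 4 - 2 * k) / 3 : ℕ) : ℝ) := by
      exact_mod_cast this
    rcases Nat.lt_or_ge n (6 + 2 * k) with h5 | h5
    · have h6 : (n : ℝ) < 6 + 2 * k := by exact_mod_cast h5
      have h7 : (0 : ℝ) ≤ (((n - 4 - 2 * k) / 3 : ℕ) : ℝ) := Nat.cast_nonneg _
      linarith
    · rw [Nat.cast_sub (by omega), Nat.cast_sub (by omega)] at h4
      push_cast at h4 ⊢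
      linarith
  have h4 : ((((n + 1) / 5 : ℕ) : ℝ)) * (2 * (((n - 4 - 2 * k) / 3 : ℕ) : ℝ) + 2) ≤
      (maxMinPerc n n : ℝ) := by exact_mod_cast h1
  have hk' : (k : ℝ) = (Nat.log 2 n : ℝ) + 1 := by rw [hk]; push_cast; ring
  have h5 : (0 : ℝ) ≤ (n : ℝ) - 3 - 2 * k := by
    have : 3 + 2 * k + 4 ≤ n := hl
    have : (3 + 2 * k + 4 : ℝ) ≤ n := by exact_mod_cast this
    linarith
  have h6 : (0 : ℝ) ≤ ((n : ℝ) - 3) / 5 := by
    have : (40 : ℝ) ≤ n := by exact_mod_cast hn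
    linarith
  calc (2 / 15 : ℝ) * (n - 3) * (n - 3 - 2 * (Nat.log 2 n + 1))
      = ((n : ℝ) - 3) / 5 * ((2 / 3 : ℝ) * ((n : ℝ) - 3 - 2 * k)) := by rw [hk']; ring
    _ ≤ ((((n + 1) / 5 : ℕ) : ℝ)) * (2 * (((n - 4 - 2 * k) / 3 : ℕ) : ℝ) + 2) :=
        mul_le_mul h2 h3 (by positivity) (by positivity)
    _ ≤ _ := h4

theorem tendsto_lower_aux : Tendsto (fun n : ℕ =>
    (2 / 15 : ℝ) * (1 - 3 / n) * (1 - 3 / n - 2 * ((Nat.log 2 n : ℝ) / n + 1 / n))) atTop
    (𝓝 (2 / 15)) := by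
  have h0 : Tendsto (fun n : ℕ => (1 : ℝ) / n) atTop (𝓝 0) := tendsto_one_div_atTop_nhds_zero_nat
  have h3 : Tendsto (fun n : ℕ => (3 : ℝ) / n) atTop (𝓝 0) := by
    have := h0.const_mul 3
    rw [mul_zero] at this
    refine this.congr (fun n => ?_)
    ring
  have h4 : Tendsto (fun n : ℕ => (1 : ℝ) - 3 / n) atTop (𝓝 1) := by
    simpa using tendsto_const_nhds.sub h3 (a := (1 : ℝ))
  have h5 : Tendsto (fun n : ℕ => (1 : ℝ) - 3 / n - 2 * ((Nat.log 2 n : ℝ) / n + 1 / n)) atTop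
      (𝓝 1) := by
    have := h4.sub ((tendsto_log_div.add h0).const_mul 2)
    simpa using this
  have := (h4.const_mul (2 / 15)).mul h5
  simpa using this

theorem eventually_lower_fun : ∀ᶠ n : ℕ in atTop,
    (2 / 15 : ℝ) * (1 - 3 / n) * (1 - 3 / n - 2 * ((Nat.log 2 n : ℝ) / n + 1 / n)) ≤
      (maxMinPerc n n : ℝ) / (n : ℝ) ^ 2 := by
  have h1 : ∀ᶠ n : ℕ in atTop, (Nat.log 2 n : ℝ) / n < 1 / 4 :=
    tendsto_log_div.eventually (gt_mem_nhds (by norm_num))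
  filter_upwards [h1, eventually_ge_atTop 40] with n hn1 hn2
  have hn0 : (0 : ℝ) < n := by
    have : 0 < n := by omega
    exact_mod_cast this
  have hl : 3 + 2 * (Nat.log 2 n + 1) + 4 ≤ n := by
    rw [div_lt_iff₀ hn0] at hn1
    have h40 : (40 : ℝ) ≤ n := by exact_mod_cast hn2
    have : (3 + 2 * ((Nat.log 2 n : ℝ) + 1) + 4 : ℝ) ≤ n := by linarith
    exact_mod_cast this
  have := explicit_lower hn2 hl
  rw [le_div_iff₀ (by positivity)]
  refine le_trans (le_of_eq ?_) this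
  field_simp

/-- Lower bound: the density of the largest minimal percolating sets is eventually at least
`2/15 - ε`. -/
theorem lower_density (ε : ℝ) (hε : 0 < ε) : ∀ᶠ n : ℕ in atTop,
    2 / 15 - ε ≤ (maxMinPerc n n : ℝ) / (n : ℝ) ^ 2 := by
  have h1 := tendsto_lower_aux.eventually (lt_mem_nhds (show (2 / 15 : ℝ) - ε < 2 / 15 by linarith))
  filter_upwards [h1, eventually_lower_fun] with n h2 h3
  linarith

end Pool.Agent.BootPerc
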