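import Pool.Agent.BootPerc.Inst
import Pool.Agent.BootPerc.LowerLim

set_option autoImplicit false

namespace Pool.Agent.BootPerc

open Filter Topology

/-- Upper bound for the extremal function. -/
theorem maxMinPerc_le {m n : ℕ} (hm : 2 ≤ m) (hn : 2 ≤ n) :
    15 * (maxMinPerc m n : ℤ) ≤ 2 * (m + 3) * (n + 3) - 5 := by
  unfold maxMinPerc
  rcases Set.eq_empty_or_nonempty
    {k : ℕ | ∃ A : Finset (ℤ × ℤ), MinPercolates m n A ∧ A.card = k} with h | h
  · rw [h]
    have e : sSup (∅ : Set ℕ) = 0 := by simp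
    rw [e]
    have h1 : (2 : ℤ) ≤ m := by exact_mod_cast hm
    have h2 : (2 : ℤ) ≤ n := by exact_mod_cast hn
    push_cast
    nlinarith
  · obtain ⟨A, hA, hAc⟩ := Nat.sSup_mem h (bddAbove_minPerc m n)
    rw [← hAc]
    exact upper_bound hm hn hA

theorem tendsto_density : Tendsto (fun n : ℕ => (maxMinPerc n n : ℝ) / (n : ℝ) ^ 2) atTop
    (𝓝 (2 / 15)) := by
  have h0 : Tendsto (fun n : ℕ => (1 : ℝ) / n) atTop (𝓝 0) := tendsto_one_div_atTop_nhds_zero_nat
  have h1 : Tendsto (fun n : ℕ => (2 / 15 : ℝ) * (1 + 3 * (1 / n)) * (1 + 3 * (1 / n))) atTop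
      (𝓝 (2 / 15)) := by
    have h2 : Tendsto (fun n : ℕ => (1 : ℝ) + 3 * (1 / n)) atTop (𝓝 1) := by
      have := (h0.const_mul 3).const_add 1
      simpa using this
    have := (h2.const_mul (2 / 15)).mul h2
    simpa using this
  refine tendsto_of_tendsto_of_tendsto_of_le_of_le' tendsto_lower_aux h1 eventually_lower_fun ?_
  filter_upwards [eventually_ge_atTop 2] with n hn
  have h2 := maxMinPerc_le hn hn
  have hn0 : (0 : ℝ) < n := by
    have : 0 < n := by omega
    exact_mod_cast this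
  have h3 : (15 : ℝ) * (maxMinPerc n n : ℝ) ≤ 2 * (n + 3) * (n + 3) - 5 := by exact_mod_cast h2
  rw [div_le_iff₀ (by positivity)]
  have e : (2 / 15 : ℝ) * (1 + 3 * (1 / n)) * (1 + 3 * (1 / n)) * (n : ℝ) ^ 2 =
      (2 / 15) * (n + 3) * (n + 3) := by
    field_simp
  rw [e]
  linarith

end Pool.Agent.BootPerc
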