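import Pool.Agent.BootPerc.Sys

set_option autoImplicit false
set_option linter.unusedSectionVars false
set_option linter.unusedVariables false
set_option linter.unusedSimpArgs false

namespace Pool.Agent.BootPerc

namespace Sys

variable {α : Type*} [DecidableEq α] {s : Sys α}

/-- the box of `A` is near the quadrant `{x ≥ l, y ≥ b}` (seen from below left) -/
def nearQ (s : Sys α) (A : Finset α) (l b : ℤ) : Prop :=
  l - s.r A ≤ 2 ∧ b - s.t A ≤ 2 ∧ (l - s.r A) + (b - s.t A) ≤ 2

/-- all proper spanned subsets are not near the quadrant -/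
def FA (s : Sys α) (S : Finset α) (l b : ℤ) : Prop :=
  ∀ C, C ⊂ S → s.Sp C → ¬ s.nearQ C l b

/-- The structure of the two parts in a cut. -/
inductive Good : Sys α → Finset α → ℤ → ℤ → Prop
  | F {s : Sys α} {S : Finset α} {l b : ℤ} : s.Sp S → 2 ≤ S.card → s.FA S l b → Good s S l b
  | one {s : Sys α} {S S' : Finset α} {c : α} {l b : ℤ} : s.Sp S → s.Sp S' → S = insert c S' →
      c ∉ S' → ¬ s.nearQ S' l b → s.l S' = s.l S → s.b S' = s.b S → s.l S' < s.r S' →
      s.b S' < s.t S' → Good s S l b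
  | two {s : Sys α} {S S' Q : Finset α} {l b : ℤ} : s.Sp S → s.Sp S' → s.Sp Q → Disjoint S' Q →
      S = S' ∪ Q → 2 ≤ Q.card → s.FA Q l b → s.neg.FA Q (- s.r S') (- s.t S') →
      Good s S' (s.l Q) (s.b Q) → ¬ s.nearQ S' l b → s.Near S' Q →
      s.l S' < s.l Q → s.b S' < s.b Q → s.r S' < s.r Q → s.t S' < s.t Q → Good s S l b

theorem Good.sp {S : Finset α} {l b : ℤ} (h : Good s S l b) : s.Sp S := by
  cases h <;> assumption

theorem nearQ_iff {T A H : Finset α} (hAT : A ⊆ T) (hA : s.Sp A)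
    (hr : s.r H = s.r T) (ht : s.t H = s.t T) : s.nearQ A (s.l H) (s.b H) ↔ s.Near A H := by
  have h1 := sub_bd hAT hA
  have h2 := wf hA
  clear hA hAT
  unfold Near nearQ
  constructor
  · rintro ⟨a, b, c⟩
    exact ⟨by omega, by omega, by omega, by omega, by omega, by omega, by omega, by omega⟩
  · rintro ⟨a, b, c, d, e, _⟩
    exact ⟨by omega, by omega, by omega⟩

theorem nearQ_neg_iff {T A H : Finset α} (hAT : A ⊆ T) (hA : s.Sp A)
    (hr : s.l H = s.l T) (ht : s.b H = s.b T) :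
    s.neg.nearQ A (- s.r H) (- s.t H) ↔ s.Near A H := by
  have h1 := sub_bd hAT hA
  have h2 := wf hA
  clear hA hAT
  unfold Near nearQ
  simp only [neg_r, neg_t]
  constructor
  · rintro ⟨a, b, c⟩
    exact ⟨by omega, by omega, by omega, by omega, by omega, by omega, by omega, by omega⟩
  · rintro ⟨a, b, c, d, e, f, g, h⟩
    exact ⟨by omega, by omega, by omega⟩

theorem sdiff_ssub {T S : Finset α} (hS : S ⊂ T) (hne : S.Nonempty) : T \ S ⊂ T := by
  rw [Finset.ssubset_iff_subset_ne]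
  refine ⟨Finset.sdiff_subset, ?_⟩
  intro h
  obtain ⟨p, hp⟩ := hne
  have : p ∈ T \ S := by rw [h]; exact hS.1 hp
  exact (Finset.mem_sdiff.1 this).2 hp

theorem diag_aux {l l1 l2 r r1 r2 : ℤ} (e1 : l = min l1 l2) (e2 : r = max r1 r2)
    (a3 : ¬ (l1 = l ∧ r1 = r)) (a4 : ¬ (l2 = l ∧ r2 = r)) :
    (l2 = l ∧ r1 = r ∧ r2 < r ∧ l < l1) ∨ (l1 = l ∧ r2 = r ∧ r1 < r ∧ l < l2) := by
  rcases le_total l1 l2 with h | h
  · rw [min_eq_left h] at e1
    rcases le_total r1 r2 with h' | h'
    · rw [max_eq_right h'] at e2; omega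
    · rw [max_eq_left h'] at e2; omega
  · rw [min_eq_right h] at e1
    rcases le_total r1 r2 with h' | h'
    · rw [max_eq_right h'] at e2; omega
    · rw [max_eq_left h'] at e2; omega

/-- position facts in the case where both complements have at least two elements -/
theorem diag_pos {T S1 S2 : Finset α} (hT : s.Sp T) (h1 : s.IsMax T S1) (h2 : s.IsMax T S2)
    (h12 : T \ S1 ⊆ S2) (c1 : 2 ≤ (T \ S1).card) (c2 : 2 ≤ (T \ S2).card) :
    ((s.l S2 = s.l T ∧ s.r S1 = s.r T ∧ s.r S2 < s.r T ∧ s.l T < s.l S1) ∨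
     (s.l S1 = s.l T ∧ s.r S2 = s.r T ∧ s.r S1 < s.r T ∧ s.l T < s.l S2)) ∧
    ((s.b S2 = s.b T ∧ s.t S1 = s.t T ∧ s.t S2 < s.t T ∧ s.b T < s.b S1) ∨
     (s.b S1 = s.b T ∧ s.t S2 = s.t T ∧ s.t S1 < s.t T ∧ s.b T < s.b S2)) := by
  have hU : S1 ∪ S2 = T := by
    apply Finset.Subset.antisymm (Finset.union_subset h1.ss.1 h2.ss.1)
    intro p hp
    by_cases h : p ∈ S1
    · exact Finset.mem_union_left _ h
    · exact Finset.mem_union_right _ (h12 (Finset.mem_sdiff.2 ⟨hp, h⟩))
  have e := union_bd h1.sp h2.sp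
  rw [hU] at e
  obtain ⟨e1, e2, e3, e4⟩ := e
  exact ⟨diag_aux e1 e2 (SL2y hT h1 c1) (SL2y hT h2 c2),
    diag_aux e3 e4 (SL2x hT h1 c1) (SL2x hT h2 c2)⟩

/-- the complement of a maximal subset touches the sides that are missed -/
theorem compl_touch {T S : Finset α} (hT : s.Sp T) (h : s.IsMax T S) :
    (s.l T < s.l S → s.l (T \ S) = s.l T) ∧ (s.r S < s.r T → s.r (T \ S) = s.r T) ∧
    (s.b T < s.b S → s.b (T \ S) = s.b T) ∧ (s.t S < s.t T → s.t (T \ S) = s.t T) := by
  have e := union_bd h.sp (SL hT h).1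
  have hU : S ∪ (T \ S) = T := Finset.union_sdiff_of_subset h.ss.1
  rw [hU] at e
  obtain ⟨e1, e2, e3, e4⟩ := e
  refine ⟨?_, ?_, ?_, ?_⟩
  · clear e2 e3 e4; omega
  · clear e1 e3 e4; omega
  · clear e1 e2 e4; omega
  · clear e1 e2 e3; omega

/-- a set all of whose sites are not near while itself is near is at least `2 × 2` -/
theorem big_of_single {T B S : Finset α} (hBT : B ⊆ T) (hB : s.Sp B)
    (hr : s.r S = s.r T) (ht : s.t S = s.t T) (hn : s.Near B S)
    (hnc : ∀ c ∈ B, ¬ s.Near {c} S) : s.l B < s.r B ∧ s.b B < s.t B := by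
  have hn1 := (nearQ_iff hBT hB hr ht).2 hn
  have hnc1 : ∀ c ∈ B, ¬ s.nearQ {c} (s.l S) (s.b S) := fun c hc h =>
    hnc c hc ((nearQ_iff ((Finset.singleton_subset_iff.2 hc).trans hBT) (s.single hB hc) hr ht).1 h)
  clear hnc hn
  have hw := wf hB
  unfold nearQ at hn1 hnc1
  constructor
  · by_contra hcon
    obtain ⟨c, hc, hc2⟩ := exists_top hB
    have e1 := mem_bd (s := s) hc
    have e2 := single_bd (s := s) c
    apply hnc1 c hc
    clear hnc1
    rw [e2.2.1, e2.2.2.2]
    refine ⟨by omega, by omega, by omega⟩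
  · by_contra hcon
    obtain ⟨c, hc, hc2⟩ := exists_right hB
    have e1 := mem_bd (s := s) hc
    have e2 := single_bd (s := s) c
    apply hnc1 c hc
    clear hnc1
    rw [e2.2.1, e2.2.2.2]
    refine ⟨by omega, by omega, by omega⟩

/-- The configuration in which both complements have at least two elements, in lower-left /
upper-right position. -/
structure Cfg (s : Sys α) (T S1 S2 : Finset α) : Prop where
  hT : s.Sp T
  h1 : s.IsMax T S1
  h2 : s.IsMax T S2
  h12 : T \ S1 ⊆ S2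
  c1 : 2 ≤ (T \ S1).card
  c2 : 2 ≤ (T \ S2).card
  hl : s.l S2 = s.l T
  hb : s.b S2 = s.b T

section Cut

variable {T S1 S2 : Finset α}

theorem Cfg.pos (h : Cfg s T S1 S2) : s.r S1 = s.r T ∧ s.r S2 < s.r T ∧ s.l T < s.l S1 ∧
    s.t S1 = s.t T ∧ s.t S2 < s.t T ∧ s.b T < s.b S1 := by
  obtain ⟨p1, p2⟩ := diag_pos h.hT h.h1 h.h2 h.h12 h.c1 h.c2
  have := h.hl
  have := h.hb
  rcases p1 with p1 | p1
  · rcases p2 with p2 | p2
    · exact ⟨p1.2.1, p1.2.2.1, p1.2.2.2, p2.2.1, p2.2.2.1, p2.2.2.2⟩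
    · omega
  · omega

theorem Cfg.h21 (h : Cfg s T S1 S2) : T \ S2 ⊆ S1 := by
  intro p hp
  by_contra hh
  rw [Finset.mem_sdiff] at hp
  exact hp.2 (h.h12 (Finset.mem_sdiff.2 ⟨hp.1, hh⟩))

theorem Cfg.tB1 (h : Cfg s T S1 S2) : s.l (T \ S1) = s.l T ∧ s.b (T \ S1) = s.b T :=
  ⟨(compl_touch h.hT h.h1).1 h.pos.2.2.1, (compl_touch h.hT h.h1).2.2.1 h.pos.2.2.2.2.2⟩

theorem Cfg.tB2 (h : Cfg s T S1 S2) : s.r (T \ S2) = s.r T ∧ s.t (T \ S2) = s.t T :=
  ⟨(compl_touch h.hT h.h2).2.1 h.pos.2.1, (compl_touch h.hT h.h2).2.2.2 h.pos.2.2.2.2.1⟩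

theorem Cfg.hall (h : Cfg s T S1 S2) {X : Finset α} (hX : s.Sp X) (hXT : X ⊆ T)
    (hX1 : T \ S1 ⊆ X) (hX2 : T \ S2 ⊆ X) : X = T := by
  have e1 := sub_bd hX1 (SL h.hT h.h1).1
  have e2 := sub_bd hX2 (SL h.hT h.h2).1
  have e3 := h.tB1
  have e4 := h.tB2
  exact eq_of_box hX h.hT hXT (by omega) (by omega) (by omega) (by omega)

theorem Cfg.touch1 (h : Cfg s T S1 S2) {X : Finset α} (hX : s.Sp X) (hXT : X ⊆ T)
    (hX1 : T \ S1 ⊆ X) : s.l X = s.l T ∧ s.b X = s.b T := by
  have e1 := sub_bd hX1 (SL h.hT h.h1).1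
  have e2 := sub_bd hXT hX
  have e3 := h.tB1
  omega

theorem Cfg.touch2 (h : Cfg s T S1 S2) {X : Finset α} (hX : s.Sp X) (hXT : X ⊆ T)
    (hX1 : T \ S2 ⊆ X) : s.r X = s.r T ∧ s.t X = s.t T := by
  have e1 := sub_bd hX1 (SL h.hT h.h2).1
  have e2 := sub_bd hXT hX
  have e3 := h.tB2
  omega

theorem Cfg.big1 (h : Cfg s T S1 S2) : s.l (T \ S1) < s.r (T \ S1) ∧
    s.b (T \ S1) < s.t (T \ S1) := by
  have hB := SL h.hT h.h1
  exact big_of_single Finset.sdiff_subset hB.1 h.pos.1 h.pos.2.2.2.1 hB.2.1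
    (fun c hc => hB.2.2 {c} (single_ssub hc h.c1) (s.single hB.1 hc))

theorem Cfg.big2 (h : Cfg s T S1 S2) : s.l (T \ S2) < s.r (T \ S2) ∧
    s.b (T \ S2) < s.t (T \ S2) := by
  have hB := SL h.hT h.h2
  have := big_of_single (s := s.neg) (T := T) (B := T \ S2) (S := S2) Finset.sdiff_subset hB.1
    (by rw [neg_r, neg_r, h.hl]) (by rw [neg_t, neg_t, h.hb])
    (by rw [neg_Near]; exact hB.2.1)
    (fun c hc hn => hB.2.2 {c} (single_ssub hc h.c2) (s.single hB.1 hc)
      (by rw [neg_Near] at hn; exact hn))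
  simp only [neg_l, neg_r, neg_b, neg_t] at this
  omega

/-- In the two-part decomposition of a spanned set the parts are near. -/
theorem near_of_cut {T G H : Finset α} (hT : s.Sp T) (hdis : Disjoint G H) (hGH : G ∪ H = T)
    (hG : s.Sp G) (hH : s.Sp H) : s.Near G H := by
  have hGT : G ⊆ T := by rw [← hGH]; exact Finset.subset_union_left
  have hHT : H ⊆ T := by rw [← hGH]; exact Finset.subset_union_right
  have hHss : H ⊂ T := by
    rw [Finset.ssubset_iff_subset_ne]
    refine ⟨hHT, ?_⟩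
    intro h
    obtain ⟨p, hp⟩ := s.ne hG
    exact Finset.disjoint_left.1 hdis hp (by rw [h]; exact hGT hp)
  obtain ⟨B', g1, g2, g3⟩ := W' hH hT hHss
  have hB'G : B' ⊆ G := by
    intro p hp
    have := Finset.mem_sdiff.1 (g1 hp)
    rw [← hGH, Finset.mem_union] at this
    tauto
  exact near_mono hB'G g2 g3

theorem insert_of_sdiff_card {T S : Finset α} (hST : S ⊆ T) (hc : (T \ S).card = 1) :
    ∃ c, c ∉ S ∧ T = insert c S := by
  obtain ⟨c, hc⟩ := Finset.card_eq_one.1 hc
  have hcD : c ∈ T \ S := by rw [hc]; exact Finset.mem_singleton_self c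
  refine ⟨c, (Finset.mem_sdiff.1 hcD).2, ?_⟩
  rw [← Finset.union_sdiff_of_subset hST, hc]
  ext x; simp only [Finset.mem_union, Finset.mem_singleton, Finset.mem_insert]; tauto

/-- the good cut property -/
def CutP (s : Sys α) (T S1 S2 G H : Finset α) : Prop :=
  Disjoint G H ∧ G ∪ H = T ∧ s.Sp G ∧ s.Sp H ∧ T \ S1 ⊆ G ∧ G ⊆ S2 ∧
      T \ S2 ⊆ H ∧ H ⊆ S1 ∧ Good s.neg H (- s.r G) (- s.t G)

theorem Cfg.cut0 (h : Cfg s T S1 S2) : CutP s T S1 S2 S2 (T \ S2) := by
  have hB2 := SL h.hT h.h2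
  refine ⟨Finset.disjoint_sdiff, Finset.union_sdiff_of_subset h.h2.ss.1,
    h.h2.sp, hB2.1, h.h12, Finset.Subset.refl _, Finset.Subset.refl _, h.h21, ?_⟩
  refine Good.F hB2.1 h.c2 ?_
  intro C hC hCs hn
  refine hB2.2.2 C hC hCs ?_
  exact (nearQ_neg_iff (s := s) (hC.1.trans Finset.sdiff_subset) hCs h.hl h.hb).1 hn

/-- one step: either the lower left part is already good, or there is a smaller cut -/
theorem Cfg.step (h : Cfg s T S1 S2) {G H : Finset α} (hc : CutP s T S1 S2 G H) :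
    Good s G (s.l H) (s.b H) ∨ ∃ G' H', G'.card < G.card ∧ CutP s T S1 S2 G' H' := by
  obtain ⟨hdis, hGH, hGs, hHs, hB1G, hGS2, hB2H, hHS1, hgood⟩ := hc
  have hB1 := SL h.hT h.h1
  have hGT : G ⊆ T := hGS2.trans h.h2.ss.1
  have hHT : H ⊆ T := hHS1.trans h.h1.ss.1
  have tH := h.touch2 hHs hHT hB2H
  have tG := h.touch1 hGs hGT hB1G
  by_cases hGB : G = T \ S1
  · left
    refine Good.F hGs (by rw [hGB]; exact h.c1) ?_
    intro C hC hCs hn
    rw [hGB] at hC
    refine hB1.2.2 C hC hCs ?_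
    have hn1 := (nearQ_iff (hC.1.trans Finset.sdiff_subset) hCs tH.1 tH.2).1 hn
    exact s.near_comm (near_mono hHS1 hHs (s.near_comm hn1))
  · have hss : T \ S1 ⊂ G := Finset.ssubset_iff_subset_ne.2 ⟨hB1G, fun h => hGB h.symm⟩
    obtain ⟨G', hG'1, hG'm⟩ := exists_max hB1.1 hss
    obtain ⟨hDs, hDn, hDmin⟩ := SL hGs hG'm
    have hG'T : G' ⊆ T := hG'm.ss.1.trans hGT
    have hDG : G \ G' ⊆ G := Finset.sdiff_subset
    have hDT : G \ G' ⊆ T := hDG.trans hGT
    have hG'D : G' ∪ (G \ G') = G := Finset.union_sdiff_of_subset hG'm.ss.1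
    have tG' := h.touch1 hG'm.sp hG'T hG'1
    -- `G'` is not near `H`
    have hG'H : ¬ s.nearQ G' (s.l H) (s.b H) := by
      intro hn
      have hn' : s.Near G' H := (nearQ_iff hG'T hG'm.sp tH.1 tH.2).1 hn
      have h3 := h.hall (merge' hG'm.sp hHs hn') (Finset.union_subset hG'T hHT)
        (hG'1.trans Finset.subset_union_left) (hB2H.trans Finset.subset_union_right)
      obtain ⟨p, hp⟩ := s.ne hDs
      have hpT : p ∈ G' ∪ H := by rw [h3]; exact hDT hp
      rcases Finset.mem_union.1 hpT with h | h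
      · exact (Finset.mem_sdiff.1 hp).2 h
      · exact Finset.disjoint_left.1 hdis (hDG hp) h
    rcases Nat.lt_or_ge (G \ G').card 2 with hD2 | hD2
    · left
      have hD1 : (G \ G').card = 1 := by
        have := Finset.card_pos.2 (s.ne hDs); omega
      obtain ⟨c, hc1, hc2⟩ := insert_of_sdiff_card hG'm.ss.1 hD1
      have hbig := h.big1
      have bd1 := sub_bd hG'1 hB1.1
      refine Good.one (S' := G') (c := c) hGs hG'm.sp hc2 hc1 hG'H ?_ ?_ ?_ ?_
      · rw [tG'.1, tG.1]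
      · rw [tG'.2, tG.2]
      · clear * - hbig bd1; omega
      · clear * - hbig bd1; omega
    · right
      have full := compl_touch hGs hG'm
      have nf1 := SL2x hGs hG'm hD2
      have nf2 := SL2y hGs hG'm hD2
      have bdG' := sub_bd hG'm.ss.1 hG'm.sp
      have k1 : s.t G' < s.t G :=
        lt_of_le_of_ne bdG'.2.2.2 (fun h => nf1 ⟨by rw [tG'.2, tG.2], h⟩)
      have k2 : s.r G' < s.r G :=
        lt_of_le_of_ne bdG'.2.1 (fun h => nf2 ⟨by rw [tG'.1, tG.1], h⟩)
      have tD1 : s.r (G \ G') = s.r G := full.2.1 k2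
      have tD2 : s.t (G \ G') = s.t G := full.2.2.2 k1
      clear full nf1 nf2
      have hGHn : s.Near G H := near_of_cut h.hT hdis hGH hGs hHs
      have hDH : s.Near (G \ G') H := by
        rw [← nearQ_iff hDT hDs tH.1 tH.2]
        rw [← nearQ_iff hGT hGs tH.1 tH.2] at hGHn
        unfold nearQ at hGHn ⊢
        rw [tD1, tD2]
        exact hGHn
      have hUs : s.Sp ((G \ G') ∪ H) := merge' hDs hHs hDH
      have hDHdis : Disjoint (G \ G') H := Finset.disjoint_of_subset_left hDG hdis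
      have hHU : H ⊂ (G \ G') ∪ H := by
        rw [Finset.ssubset_iff_subset_ne]
        refine ⟨Finset.subset_union_right, ?_⟩
        intro h
        obtain ⟨p, hp⟩ := s.ne hDs
        have : p ∈ H := by rw [h]; exact Finset.mem_union_left _ hp
        exact Finset.disjoint_left.1 hDHdis hp this
      have hUT : (G \ G') ∪ H ⊆ T := Finset.union_subset hDT hHT
      obtain ⟨T', hT'1, hT'm⟩ := exists_max hHs hHU
      obtain ⟨hEs, hEn, hEmin⟩ := SL hUs hT'm
      have hED : ((G \ G') ∪ H) \ T' ⊆ G \ G' := by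
        intro p hp
        rw [Finset.mem_sdiff, Finset.mem_union] at hp
        rcases hp.1 with h | h
        · exact h
        · exact absurd (hT'1 h) hp.2
      have hT'T : T' ⊆ T := hT'm.ss.1.trans hUT
      have tT' := h.touch2 hT'm.sp hT'T (hB2H.trans hT'1)
      have tU := h.touch2 hUs hUT (hB2H.trans Finset.subset_union_right)
      -- `T'` is not near `G'`
      have hT'G' : ¬ s.neg.nearQ T' (- s.r G') (- s.t G') := by
        intro hn
        have hn' : s.Near T' G' := (nearQ_neg_iff hT'T hT'm.sp tG'.1 tG'.2).1 hn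
        have h3 := h.hall (merge' hT'm.sp hG'm.sp hn') (Finset.union_subset hT'T hG'T)
          (hG'1.trans Finset.subset_union_right)
          ((hB2H.trans hT'1).trans Finset.subset_union_left)
        obtain ⟨p, hp⟩ := s.ne hEs
        have hpT : p ∈ T' ∪ G' := by rw [h3]; exact hDT (hED hp)
        rcases Finset.mem_union.1 hpT with h | h
        · exact (Finset.mem_sdiff.1 hp).2 h
        · exact (Finset.mem_sdiff.1 (hED hp)).2 h
      have hgoodU : Good s.neg ((G \ G') ∪ H) (- s.r G') (- s.t G') := by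
        rcases Nat.lt_or_ge (((G \ G') ∪ H) \ T').card 2 with hE2 | hE2
        · have hE1 : (((G \ G') ∪ H) \ T').card = 1 := by
            have := Finset.card_pos.2 (s.ne hEs); omega
          obtain ⟨c, hc1, hc2⟩ := insert_of_sdiff_card hT'm.ss.1 hE1
          have hbig := h.big2
          have bd1 := sub_bd (hB2H.trans hT'1) (SL h.hT h.h2).1
          refine Good.one (S' := T') (c := c) hUs hT'm.sp hc2 hc1 hT'G' ?_ ?_ ?_ ?_
          · rw [neg_l, neg_l, tT'.1, tU.1]
          · rw [neg_b, neg_b, tT'.2, tU.2]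
          · rw [neg_l, neg_r]; clear * - hbig bd1; omega
          · rw [neg_b, neg_t]; clear * - hbig bd1; omega
        · -- type two : E = D
          have full' := compl_touch hUs hT'm
          have nf1' := SL2x hUs hT'm hE2
          have nf2' := SL2y hUs hT'm hE2
          have bdT' := sub_bd hT'm.ss.1 hT'm.sp
          have k5 : s.l ((G \ G') ∪ H) < s.l T' :=
            lt_of_le_of_ne bdT'.1 (fun h => nf2' ⟨h.symm, by rw [tT'.1, tU.1]⟩)
          have k6 : s.b ((G \ G') ∪ H) < s.b T' :=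
            lt_of_le_of_ne bdT'.2.2.1 (fun h => nf1' ⟨h.symm, by rw [tT'.2, tU.2]⟩)
          have k7 := full'.1 k5
          have k8 := full'.2.2.1 k6
          clear full' nf1' nf2'
          have bdE := sub_bd hED hEs
          have bU := union_bd hDs hHs
          have tE1 : s.l (((G \ G') ∪ H) \ T') = s.l (G \ G') := by
            clear * - k7 bdE bU; omega
          have tE2 : s.b (((G \ G') ∪ H) \ T') = s.b (G \ G') := by
            clear * - k8 bdE bU; omega
          have hEeq : ((G \ G') ∪ H) \ T' = G \ G' := by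
            by_contra hne
            refine hDmin _ (Finset.ssubset_iff_subset_ne.2 ⟨hED, hne⟩) hEs ?_
            rw [← nearQ_neg_iff (hED.trans hDT) hEs tG'.1 tG'.2]
            rw [← nearQ_neg_iff hDT hDs tG'.1 tG'.2] at hDn
            unfold nearQ at hDn ⊢
            rw [neg_r, neg_t] at hDn ⊢
            rw [tE1, tE2]
            exact hDn
          have hT'H : T' = H := by
            apply Finset.Subset.antisymm _ hT'1
            intro p hp
            have hpU := hT'm.ss.1 hp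
            rcases Finset.mem_union.1 hpU with h | h
            · rw [← hEeq] at h
              exact absurd hp (Finset.mem_sdiff.1 h).2
            · exact h
          rw [hT'H] at hT'G' k5 k6 hEmin hEeq
          rw [hEeq] at hEmin
          refine Good.two (S' := H) (Q := G \ G') hUs hHs hDs hDHdis.symm
            (Finset.union_comm _ _) hD2 ?_ ?_ ?_ hT'G' ?_ ?_ ?_ ?_ ?_
          · intro C hC hCs hn
            exact hDmin C hC hCs
              ((nearQ_neg_iff (s := s) (hC.1.trans hDT) hCs tG'.1 tG'.2).1 hn)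
          · intro C hC hCs hn
            refine hEmin C hC hCs ?_
            rw [← nearQ_iff (s := s) (hC.1.trans hDT) hCs tH.1 tH.2]
            unfold nearQ at hn ⊢
            simp only [neg_r, neg_t, neg_l, neg_b, neg_neg] at hn
            exact hn
          · rw [neg_l, neg_b, tD1, tD2]
            exact hgood
          · rw [neg_Near]
            exact s.near_comm hDH
          · have := sub_bd hGS2 hGs
            have := h.pos
            rw [neg_l, neg_l, tH.1, tD1]; omega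
          · have := sub_bd hGS2 hGs
            have := h.pos
            rw [neg_b, neg_b, tH.2, tD2]; omega
          · rw [neg_r, neg_r]; clear * - k5 bU; omega
          · rw [neg_t, neg_t]; clear * - k6 bU; omega
      refine ⟨G', (G \ G') ∪ H, Finset.card_lt_card hG'm.ss, ?_, ?_, hG'm.sp, hUs, hG'1,
        hG'm.ss.1.trans hGS2, hB2H.trans Finset.subset_union_right, ?_, hgoodU⟩
      · rw [Finset.disjoint_union_right]
        exact ⟨Finset.disjoint_sdiff, Finset.disjoint_of_subset_left hG'm.ss.1 hdis⟩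
      · rw [← Finset.union_assoc, hG'D, hGH]
      · apply Finset.union_subset _ hHS1
        intro p hp
        by_contra h
        exact (Finset.mem_sdiff.1 hp).2 (hG'1 (Finset.mem_sdiff.2 ⟨hDT hp, h⟩))

/-- The cut lemma. -/
theorem Cfg.cut (h : Cfg s T S1 S2) :
    ∃ G H : Finset α, Disjoint G H ∧ G ∪ H = T ∧ s.Sp G ∧ s.Sp H ∧ T \ S1 ⊆ G ∧ G ⊆ S2 ∧
      T \ S2 ⊆ H ∧ H ⊆ S1 ∧ Good s G (s.l H) (s.b H) ∧ Good s.neg H (- s.r G) (- s.t G) := by
  have key : ∀ n : ℕ, ∀ G H, G.card = n → CutP s T S1 S2 G H →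
      ∃ G' H', CutP s T S1 S2 G' H' ∧ Good s G' (s.l H') (s.b H') := by
    intro n
    induction n using Nat.strong_induction_on with
    | _ n ih =>
      intro G H hn hc
      rcases h.step hc with hg | ⟨G', H', h1, h2⟩
      · exact ⟨G, H, hc, hg⟩
      · exact ih G'.card (by omega) G' H' rfl h2
  obtain ⟨G, H, hc, hg⟩ := key _ _ _ rfl h.cut0
  obtain ⟨hdis, hGH, hGs, hHs, hB1G, hGS2, hB2H, hHS1, hgood⟩ := hc
  exact ⟨G, H, hdis, hGH, hGs, hHs, hB1G, hGS2, hB2H, hHS1, hg, hgood⟩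

end Cut

end Sys

end Pool.Agent.BootPerc
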