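import Pool.Agent.BootPerc.Good

set_option autoImplicit false
set_option linter.unusedSectionVars false
set_option linter.unusedVariables false
set_option linter.unusedSimpArgs false

namespace Pool.Agent.BootPerc

namespace Sys

variable {α : Type*} [DecidableEq α] {s : Sys α}

/-- number of sites above the full-width spanned subset `S` -/
theorem above_bound {T : Finset α} (hT : s.Sp T) (n : ℕ) : ∀ S : Finset α, s.Sp S → S ⊆ T →
    s.l S = s.l T → s.r S = s.r T → s.t T - s.t S ≤ n →
    3 * ((T.filter (fun p => s.t S < s.Y p)).card : ℤ) ≤ 2 * (s.t T - s.t S) + 1 ∧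
    ((∀ p ∈ T, s.Y p ≠ s.t S + 1) →
      3 * ((T.filter (fun p => s.t S < s.Y p)).card : ℤ) ≤ 2 * (s.t T - s.t S)) := by
  induction n using Nat.strong_induction_on with
  | _ n ih =>
    intro S hS hST hl hr hn
    have bS := sub_bd hST hS
    have wS := wf hS
    rcases (T.filter (fun p => s.t S < s.Y p)).eq_empty_or_nonempty with he | hne
    · rw [he, Finset.card_empty]
      constructor
      · push_cast; omega
      · intro _; push_cast; omega
    · obtain ⟨p, hp, hpmin⟩ := Finset.exists_min_image _ s.Y hne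
      have hp' := Finset.mem_filter.1 hp
      have hpT := mem_bd (s := s) hp'.1
      have hY : s.Y p ≤ s.t S + 2 := by
        by_contra hcon
        obtain ⟨q, hq, hq2⟩ := stripY' (s.t S + 1) hT (by omega) (by omega)
        have := hpmin q (Finset.mem_filter.2 ⟨hq, by omega⟩)
        omega
      have hps := s.single hT hp'.1
      have e1 := single_bd (s := s) p
      have hS1 : s.Sp (S ∪ {p}) := merge' hS hps (by unfold Near; omega)
      have hS1T : S ∪ {p} ⊆ T := Finset.union_subset hST (Finset.singleton_subset_iff.2 hp'.1)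
      have e2 := union_bd hS hps
      have e3 : s.l (S ∪ {p}) = s.l T ∧ s.r (S ∪ {p}) = s.r T := by omega
      have e4 : s.t (S ∪ {p}) = s.Y p := by have := hp'.2; omega
      have e5 : s.b (S ∪ {p}) = s.b S := by have := hp'.2; omega
      clear e2
      have hmem : ∀ q ∈ T, s.t S < s.Y q → q ≠ p → s.Y p < s.Y q := by
        intro q hq hq2 hqp
        have h1 := hpmin q (Finset.mem_filter.2 ⟨hq, hq2⟩)
        by_contra h2
        have hqT := mem_bd (s := s) hq
        have : q ∈ S ∪ {p} := mem_of_box hT hq hS1 (by omega) (by omega) (by omega) (by omega)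
        rw [Finset.mem_union, Finset.mem_singleton] at this
        rcases this with h | h
        · have := mem_bd (s := s) h; omega
        · exact hqp h
      have hfil : T.filter (fun q => s.t (S ∪ {p}) < s.Y q) =
          (T.filter (fun q => s.t S < s.Y q)).erase p := by
        ext q
        rw [Finset.mem_erase, Finset.mem_filter, Finset.mem_filter, e4]
        constructor
        · rintro ⟨h1, h2⟩
          refine ⟨fun h => by rw [h] at h2; omega, h1, by have := hp'.2; omega⟩
        · rintro ⟨h1, h2, h3⟩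
          exact ⟨h2, hmem q h2 h3 h1⟩
      have hcard : ((T.filter (fun q => s.t S < s.Y q)).card : ℤ) =
          ((T.filter (fun q => s.t (S ∪ {p}) < s.Y q)).card : ℤ) + 1 := by
        rw [hfil]
        have := Finset.card_erase_add_one hp
        exact_mod_cast this.symm
      have hpY := hp'.2
      have IH := ih (s.t T - s.Y p).toNat (by omega) (S ∪ {p}) hS1 hS1T e3.1 e3.2
        (by rw [e4]; omega)
      rw [e4] at IH
      rw [e4] at hcard
      rw [hcard]
      rcases (show s.Y p = s.t S + 1 ∨ s.Y p = s.t S + 2 by omega) with h | h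
      · -- next row is empty
        have hemp : ∀ q ∈ T, s.Y q ≠ s.Y p + 1 := by
          intro q hq hq2
          have hqs := s.single hT hq
          have f1 := single_bd (s := s) q
          have hqT := mem_bd (s := s) hq
          have hS2 : s.Sp (S ∪ {q}) := merge' hS hqs (by unfold Near; omega)
          have f2 := union_bd hS hqs
          have : p ∈ S ∪ {q} := mem_of_box hT hp'.1 hS2 (by omega) (by omega) (by omega) (by omega)
          rw [Finset.mem_union, Finset.mem_singleton] at this
          rcases this with h' | h'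
          · have := mem_bd (s := s) h'; omega
          · rw [← h'] at hq2; omega
        have := IH.2 hemp
        constructor
        · omega
        · intro h2; exact absurd h (h2 p hp'.1)
      · have := IH.1
        constructor
        · omega
        · intro _; omega

/-- Growth bound for a full-width spanned subset. -/
theorem grow_bound {T S : Finset α} (hT : s.Sp T) (hS : s.Sp S) (hST : S ⊆ T)
    (hl : s.l S = s.l T) (hr : s.r S = s.r T) : ∃ a b : ℤ, 0 ≤ a ∧ 0 ≤ b ∧
    (T.card : ℤ) = S.card + a + b ∧ 3 * a ≤ 2 * (s.t T - s.t S) + 1 ∧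
    3 * b ≤ 2 * (s.b S - s.b T) + 1 ∧
    ((∀ p ∈ T, s.Y p ≠ s.t S + 1) → 3 * a ≤ 2 * (s.t T - s.t S)) ∧
    ((∀ p ∈ T, s.Y p ≠ s.b S - 1) → 3 * b ≤ 2 * (s.b S - s.b T)) := by
  have wS := wf hS
  have bS := sub_bd hST hS
  have h1 := above_bound hT (s.t T - s.t S).toNat S hS hST hl hr (by omega)
  have h2 := above_bound (s := s.negY) hT (s.b S - s.b T).toNat S hS hST
    (by simpa using hl) (by simpa using hr) (by simp only [negY_t]; omega)
  simp only [negY_t, negY_Y] at h2
  refine ⟨((T.filter (fun p => s.t S < s.Y p)).card : ℤ),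
    ((T.filter (fun p => -s.b S < -s.Y p)).card : ℤ), by positivity, by positivity, ?_, h1.1,
    by omega, h1.2, ?_⟩
  · have hd1 : Disjoint S (T.filter (fun p => s.t S < s.Y p)) := by
      rw [Finset.disjoint_left]
      intro p hp hq
      have := mem_bd (s := s) hp
      have := (Finset.mem_filter.1 hq).2
      omega
    have hd2 : Disjoint (S ∪ T.filter (fun p => s.t S < s.Y p))
        (T.filter (fun p => -s.b S < -s.Y p)) := by
      rw [Finset.disjoint_left]
      intro p hp hq
      have h3 := (Finset.mem_filter.1 hq).2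
      rcases Finset.mem_union.1 hp with h | h
      · have := mem_bd (s := s) h; omega
      · have := (Finset.mem_filter.1 h).2; omega
    have hU : T = (S ∪ T.filter (fun p => s.t S < s.Y p)) ∪
        T.filter (fun p => -s.b S < -s.Y p) := by
      ext p
      rw [Finset.mem_union, Finset.mem_union, Finset.mem_filter, Finset.mem_filter]
      constructor
      · intro hp
        rcases lt_or_ge (s.t S) (s.Y p) with h | h
        · exact Or.inl (Or.inr ⟨hp, h⟩)
        · rcases lt_or_ge (s.Y p) (s.b S) with h' | h'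
          · exact Or.inr ⟨hp, by omega⟩
          · have := mem_bd (s := s) hp
            exact Or.inl (Or.inl (mem_of_box hT hp hS (by omega) (by omega) h' h))
      · rintro ((h | h) | h)
        · exact hST h
        · exact h.1
        · exact h.1
    have := congrArg Finset.card hU
    rw [Finset.card_union_of_disjoint hd2, Finset.card_union_of_disjoint hd1] at this
    exact_mod_cast this
  · intro h
    have := h2.2 (fun p hp => by have := h p hp; omega)
    omega

theorem bound1 {T : Finset α} (hT : s.Sp T) (hw : s.r T = s.l T) :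
    3 * (T.card : ℤ) ≤ 2 * (s.t T - s.b T + 1) + 2 := by
  obtain ⟨p, hp, hp2⟩ := exists_bot hT
  have e1 := single_bd (s := s) p
  have e2 := mem_bd (s := s) hp
  obtain ⟨a, b, ha, hb, h1, h2, h3, h4, h5⟩ := grow_bound hT (s.single hT hp)
    (Finset.singleton_subset_iff.2 hp) (by omega) (by omega)
  rw [Finset.card_singleton] at h1
  push_cast at h1
  clear h4 h5
  omega

/-- minimal full-width spanned subsets -/
def IsKer (s : Sys α) (S : Finset α) : Prop :=
  s.Sp S ∧ ∀ S', S' ⊂ S → s.Sp S' → ¬ (s.l S' = s.l S ∧ s.r S' = s.r S)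

theorem exists_ker {T : Finset α} (hT : s.Sp T) : ∃ S, S ⊆ T ∧ s.IsKer S ∧ s.l S = s.l T ∧
    s.r S = s.r T := by
  have key : ∀ n : ℕ, ∀ T : Finset α, T.card = n → s.Sp T → ∃ S, S ⊆ T ∧ s.IsKer S ∧
      s.l S = s.l T ∧ s.r S = s.r T := by
    intro n
    induction n using Nat.strong_induction_on with
    | _ n ih =>
      intro T hn hT
      by_cases h : s.IsKer T
      · exact ⟨T, Finset.Subset.refl _, h, rfl, rfl⟩
      · unfold IsKer at h
        push Not at h
        obtain ⟨S', h1, h2, h3, h4⟩ := h hT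
        obtain ⟨S, g1, g2, g3, g4⟩ := ih S'.card (by rw [← hn]; exact Finset.card_lt_card h1) S' rfl h2
        exact ⟨S, g1.trans h1.1, g2, by rw [g3, h3], by rw [g4, h4]⟩
  exact key _ T rfl hT

/-- nearest sites of two one-wide sets in adjacent columns -/
theorem near_pair {A B : Finset α} (hA : s.Sp A) (hB : s.Sp B) (h1 : s.b B ≤ s.t A + 1)
    (h2 : s.b A ≤ s.t B + 1) : ∃ p ∈ A, ∃ q ∈ B, s.Y p ≤ s.Y q + 1 ∧ s.Y q ≤ s.Y p + 1 := by
  have wA := wf hA
  have wB := wf hB
  rcases lt_or_ge (s.t A) (s.b B) with h | h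
  · obtain ⟨p, hp, hp2⟩ := exists_top hA
    obtain ⟨q, hq, hq2⟩ := exists_bot hB
    exact ⟨p, hp, q, hq, by omega, by omega⟩
  rcases lt_or_ge (s.t B) (s.b A) with h' | h'
  · obtain ⟨p, hp, hp2⟩ := exists_bot hA
    obtain ⟨q, hq, hq2⟩ := exists_top hB
    exact ⟨p, hp, q, hq, by omega, by omega⟩
  rcases le_total (s.b A) (s.b B) with h3 | h3
  · obtain ⟨q, hq, hq2⟩ := exists_bot hB
    rcases eq_or_lt_of_le h with h4 | h4
    · obtain ⟨p, hp, hp2⟩ := exists_top hA
      exact ⟨p, hp, q, hq, by omega, by omega⟩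
    · obtain ⟨p, hp, hp2⟩ := stripY' (s.b B) hA h3 (by omega)
      exact ⟨p, hp, q, hq, by omega, by omega⟩
  · obtain ⟨p, hp, hp2⟩ := exists_bot hA
    rcases eq_or_lt_of_le h' with h4 | h4
    · obtain ⟨q, hq, hq2⟩ := exists_top hB
      exact ⟨p, hp, q, hq, by omega, by omega⟩
    · obtain ⟨q, hq, hq2⟩ := stripY' (s.b A) hB h3 (by omega)
      exact ⟨p, hp, q, hq, by omega, by omega⟩

theorem card_two_le_of_ne {A : Finset α} {p q : α} (hp : p ∈ A) (hq : q ∈ A) (h : p ≠ q) :
    2 ≤ A.card := by
  have : 1 < A.card := Finset.one_lt_card.2 ⟨p, hp, q, hq, h⟩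
  exact this

/-- kernels of width two -/
theorem ker2 {S : Finset α} (hS : s.IsKer S) (hw : s.r S = s.l S + 1) :
    ∃ p q, S = {p, q} ∧ s.X p = s.l S ∧ s.X q = s.r S ∧ s.Y p ≤ s.Y q + 1 ∧
      s.Y q ≤ s.Y p + 1 := by
  obtain ⟨p0, hp0, hp02⟩ := exists_left hS.1
  obtain ⟨q0, hq0, hq02⟩ := exists_right hS.1
  have hc : 2 ≤ S.card := card_two_le_of_ne hp0 hq0 (fun h => by rw [h] at hp02; omega)
  obtain ⟨S1, hS1, hm⟩ := exists_max (s.single hS.1 hp0) (single_ssub hp0 hc)
  obtain ⟨hD, hn, hmin⟩ := SL hS.1 hm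
  have hDS : S \ S1 ⊂ S := sdiff_ssub hm.ss (s.ne hm.sp)
  have k1 := hS.2 S1 hm.ss hm.sp
  have k2 := hS.2 _ hDS hD
  have b1 := sub_bd hm.ss.1 hm.sp
  have b2 := sub_bd hDS.1 hD
  have w1 := wf hm.sp
  have w2 := wf hD
  have u := union_bd hm.sp hD
  rw [Finset.union_sdiff_of_subset hm.ss.1] at u
  obtain ⟨u1, u2, u3, u4⟩ := u
  have e1 : s.l S1 = s.l S ∧ s.r S1 = s.l S := by
    have e := single_bd (s := s) p0
    have := sub_bd hS1 (s.single hS.1 hp0)
    clear u1 u2 u3 u4 k2 hn
    omega
  have e2 : s.l (S \ S1) = s.r S ∧ s.r (S \ S1) = s.r S := by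
    clear u1 u3 u4 k1 hn
    omega
  have hn' : s.b (S \ S1) ≤ s.t S1 + 1 ∧ s.b S1 ≤ s.t (S \ S1) + 1 := by
    clear u1 u2 u3 u4 k1 k2
    unfold Near at hn
    omega
  obtain ⟨p, hp, q, hq, hpq1, hpq2⟩ := near_pair hm.sp hD hn'.1 hn'.2
  have hqS := hDS.1 hq
  have hpS := hm.ss.1 hp
  have f1 := mem_bd (s := s) hp
  have f2 := mem_bd (s := s) hq
  have g1 := single_bd (s := s) p
  have g2 := single_bd (s := s) q
  have hX : s.X p = s.l S ∧ s.X q = s.r S := by omega
  have hpq : s.Sp ({p} ∪ {q}) := merge' (s.single hS.1 hpS) (s.single hS.1 hqS)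
    (by clear u1 u2 u3 u4 k1 k2 hn; unfold Near; omega)
  have hsub : {p} ∪ {q} ⊆ S := Finset.union_subset (Finset.singleton_subset_iff.2 hpS)
    (Finset.singleton_subset_iff.2 hqS)
  have v := union_bd (s.single hS.1 hpS) (s.single hS.1 hqS)
  have heq : {p} ∪ {q} = S := by
    by_contra hne
    refine hS.2 _ (Finset.ssubset_iff_subset_ne.2 ⟨hsub, hne⟩) hpq ?_
    obtain ⟨v1, v2, v3, v4⟩ := v
    clear u1 u2 u3 u4 k1 k2 hn v3 v4
    omega
  exact ⟨p, q, heq.symm, hX.1, hX.2, hpq1, hpq2⟩

theorem bound2 {T : Finset α} (hT : s.Sp T) (hw : s.r T = s.l T + 1) :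
    3 * (T.card : ℤ) ≤ 2 * (s.t T - s.b T + 1) + 4 := by
  obtain ⟨S, hST, hS, hl, hr⟩ := exists_ker hT
  obtain ⟨p, q, hpq, hX1, hX2, hY1, hY2⟩ := ker2 hS (by omega)
  have hpS : p ∈ S := by rw [hpq]; simp
  have hqS : q ∈ S := by rw [hpq]; simp
  have hne : p ≠ q := by intro h; rw [h] at hX1; omega
  have hcard : S.card = 2 := by rw [hpq]; exact Finset.card_pair hne
  have g1 := single_bd (s := s) p
  have g2 := single_bd (s := s) q
  have hps := s.single hS.1 hpS
  have hqs := s.single hS.1 hqS
  have v := union_bd hps hqs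
  have hS' : {p} ∪ {q} = S := by rw [hpq]; rfl
  rw [hS'] at v
  obtain ⟨v1, v2, v3, v4⟩ := v
  obtain ⟨a, b, ha, hb, h1, h2, h3, h4, h5⟩ := grow_bound hT hS.1 hST hl hr
  rw [hcard] at h1
  push_cast at h1
  by_cases hY : s.Y p = s.Y q
  · have tS : s.t S = s.Y p ∧ s.b S = s.Y p := by clear h4 h5; omega
    have key : ∀ z ∈ T, (s.Y z = s.Y p + 1 ∨ s.Y z = s.Y p - 1) → False := by
      intro z hz hzY
      have hzT := mem_bd (s := s) hz
      have g3 := single_bd (s := s) z
      have hzs := s.single hT hz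
      rcases (show s.X z = s.l T ∨ s.X z = s.r T by clear h4 h5; omega) with hx | hx
      · -- use q
        have hU : s.Sp ({z} ∪ {q}) := merge' hzs hqs (by clear h4 h5 v1 v2 v3 v4; unfold Near; omega)
        have u := union_bd hzs hqs
        have : p ∈ ({z} ∪ {q} : Finset α) := mem_of_box hT (hST hpS) hU
          (by clear h4 h5 v1 v2 v3 v4; omega) (by clear h4 h5 v1 v2 v3 v4; omega)
          (by clear h4 h5 v1 v2 v3 v4; omega) (by clear h4 h5 v1 v2 v3 v4; omega)
        rw [Finset.mem_union, Finset.mem_singleton, Finset.mem_singleton] at this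
        rcases this with h | h
        · rw [← h] at hzY; omega
        · exact hne h
      · have hU : s.Sp ({z} ∪ {p}) := merge' hzs hps (by clear h4 h5 v1 v2 v3 v4; unfold Near; omega)
        have u := union_bd hzs hps
        have : q ∈ ({z} ∪ {p} : Finset α) := mem_of_box hT (hST hqS) hU
          (by clear h4 h5 v1 v2 v3 v4; omega) (by clear h4 h5 v1 v2 v3 v4; omega)
          (by clear h4 h5 v1 v2 v3 v4; omega) (by clear h4 h5 v1 v2 v3 v4; omega)
        rw [Finset.mem_union, Finset.mem_singleton, Finset.mem_singleton] at this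
        rcases this with h | h
        · rw [← h] at hzY; omega
        · exact hne h.symm
    have h4' := h4 (fun z hz hz2 => key z hz (Or.inl (by omega)))
    have h5' := h5 (fun z hz hz2 => key z hz (Or.inr (by omega)))
    clear h4 h5
    omega
  · clear h4 h5
    omega

end Sys

end Pool.Agent.BootPerc
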