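import Pool.Agent.BootPerc.Growth

set_option autoImplicit false
set_option linter.unusedSectionVars false
set_option linter.unusedVariables false
set_option linter.unusedSimpArgs false

namespace Pool.Agent.BootPerc

namespace Sys

variable {α : Type*} [DecidableEq α] {s : Sys α}

theorem IsKer.negX {S : Finset α} (h : s.IsKer S) : s.negX.IsKer S := by
  refine ⟨h.1, fun S' h1 h2 h3 => h.2 S' h1 h2 ?_⟩
  simp only [negX_l, negX_r] at h3
  omega

theorem IsKer.negY {S : Finset α} (h : s.IsKer S) : s.negY.IsKer S := h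

theorem IsKer.neg {S : Finset α} (h : s.IsKer S) : s.neg.IsKer S := by
  refine ⟨h.1, fun S' h1 h2 h3 => h.2 S' h1 h2 ?_⟩
  simp only [neg_l, neg_r] at h3
  omega

/-- orientation of the two-part configuration up to reflections -/
theorem exists_cfg {T S1 S2 : Finset α} (hT : s.Sp T) (h1 : s.IsMax T S1) (h2 : s.IsMax T S2)
    (h12 : T \ S1 ⊆ S2) (c1 : 2 ≤ (T \ S1).card) (c2 : 2 ≤ (T \ S2).card) :
    Cfg s T S1 S2 ∨ Cfg s.negX T S1 S2 ∨ Cfg s.negY T S1 S2 ∨ Cfg s.neg T S1 S2 := by
  obtain ⟨p1, p2⟩ := diag_pos hT h1 h2 h12 c1 c2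
  rcases p1 with p1 | p1
  · rcases p2 with p2 | p2
    · left
      exact ⟨hT, h1, h2, h12, c1, c2, p1.1, p2.1⟩
    · right; right; left
      exact ⟨hT, h1, h2, h12, c1, c2, by simpa using p1.1, by simpa using p2.2.1⟩
  · rcases p2 with p2 | p2
    · right; left
      exact ⟨hT, h1, h2, h12, c1, c2, by simpa using p1.2.1, by simpa using p2.1⟩
    · right; right; right
      exact ⟨hT, h1, h2, h12, c1, c2, by simpa using p1.2.1, by simpa using p2.2.1⟩

/-- two maximal proper subsets covering everything -/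
theorem two_max {T : Finset α} (hT : s.Sp T) (hc : 2 ≤ T.card) :
    ∃ S1 S2, s.IsMax T S1 ∧ s.IsMax T S2 ∧ T \ S1 ⊆ S2 := by
  obtain ⟨p, hp⟩ := s.ne hT
  obtain ⟨S1, h1, h2⟩ := exists_max (s.single hT hp) (single_ssub hp hc)
  obtain ⟨S2, h3, h4⟩ := exists_max (SL hT h2).1 (sdiff_ssub h2.ss (s.ne h2.sp))
  exact ⟨S1, S2, h2, h4, h3⟩

/-- shape of a one-site extension -/
theorem one_shape {T W : Finset α} (hT : s.Sp T) (hm : s.IsMax T W) (hc : (T \ W).card = 1) :
    ∃ c, c ∈ T ∧ c ∉ W ∧ T = insert c W ∧ (T.card : ℤ) = W.card + 1 ∧ s.Near {c} W ∧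
      ¬ (s.l W ≤ s.X c ∧ s.X c ≤ s.r W ∧ s.b W ≤ s.Y c ∧ s.Y c ≤ s.t W) ∧
      s.l T = min (s.l W) (s.X c) ∧ s.r T = max (s.r W) (s.X c) ∧
      s.b T = min (s.b W) (s.Y c) ∧ s.t T = max (s.t W) (s.Y c) := by
  obtain ⟨c, h1, h2⟩ := insert_of_sdiff_card hm.ss.1 hc
  have hcT : c ∈ T := by rw [h2]; exact Finset.mem_insert_self _ _
  have hD := SL hT hm
  have hDc : T \ W = {c} := by
    rw [h2]
    ext x
    rw [Finset.mem_sdiff, Finset.mem_insert, Finset.mem_singleton]
    constructor
    · rintro ⟨h | h, h'⟩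
      · exact h
      · exact absurd h h'
    · rintro rfl
      exact ⟨Or.inl rfl, h1⟩
  rw [hDc] at hD
  refine ⟨c, hcT, h1, h2, ?_, hD.2.1, ?_, ?_⟩
  · rw [h2, Finset.card_insert_of_notMem h1]; push_cast; ring
  · rintro ⟨a1, a2, a3, a4⟩
    exact h1 (mem_of_box hT hcT hm.sp a1 a2 a3 a4)
  · have hU : W ∪ {c} = T := by rw [h2]; ext x; simp only [Finset.mem_union,
      Finset.mem_singleton, Finset.mem_insert]; tauto
    have u := union_bd hm.sp hD.1
    have e := single_bd (s := s) c
    rw [hU] at u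
    rw [e.1, e.2.1, e.2.2.1, e.2.2.2] at u
    exact u

theorem ker3_right {S W : Finset α} (hS : s.IsKer S) (hw : s.r S = s.l S + 2)
    (hm : s.IsMax S W) (hc : (S \ W).card = 1) (hr : s.r W < s.r S) :
    3 * (S.card : ℤ) ≤ 2 * (s.t S - s.b S + 1) + 6 := by
  obtain ⟨c, hcS, hcW, hins, hcard, hn, hbox, u1, u2, u3, u4⟩ := one_shape hS.1 hm hc
  have wW := wf hm.sp
  have e := single_bd (s := s) c
  have hXc : s.X c = s.r S := by clear u1 u3 u4 hbox hn; omega
  have hlW : s.l W = s.l S := by clear u3 u4 hbox hn; omega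
  have hn' : s.X c - s.r W ≤ 2 ∧ s.Y c - s.t W ≤ 2 ∧ s.b W - s.Y c ≤ 2 ∧
      (s.X c - s.r W) + (s.Y c - s.t W) ≤ 2 ∧ (s.X c - s.r W) + (s.b W - s.Y c) ≤ 2 := by
    clear u1 u2 u3 u4 hbox
    unfold Near at hn
    omega
  clear hn
  rcases (show s.r W = s.l S ∨ s.r W = s.l S + 1 by clear u1 u2 u3 u4 hbox; omega) with h | h
  · have h1 := bound1 hm.sp (by rw [h, hlW])
    have : s.b W ≤ s.Y c ∧ s.Y c ≤ s.t W := by clear u1 u2 u3 u4 hbox; omega
    clear hbox u1 u2
    omega
  · have h2 := bound2 hm.sp (by rw [h, hlW])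
    by_cases hY : s.b W ≤ s.Y c ∧ s.Y c ≤ s.t W
    · have hb : s.b S = s.b W ∧ s.t S = s.t W := by clear hbox u1 u2; omega
      clear hbox u1 u2 u3 u4
      by_cases hk : s.IsKer W
      · obtain ⟨p, q, hpq, hX1, hX2, hY1, hY2⟩ := ker2 hk (by omega)
        have hpW : p ∈ W := by rw [hpq]; simp
        have hqW : q ∈ W := by rw [hpq]; simp
        have hne : p ≠ q := by intro h'; rw [h'] at hX1; omega
        have hcard2 : W.card = 2 := by rw [hpq]; exact Finset.card_pair hne
        rw [hcard2] at hcard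
        have m1 := mem_bd (s := s) hpW
        have m2 := mem_bd (s := s) hqW
        rcases eq_or_lt_of_le wW.2 with hh | hh
        · -- height one
          exfalso
          have hps := s.single hm.sp hpW
          have hcs := s.single hS.1 hcS
          have g1 := single_bd (s := s) p
          have hU : s.Sp ({p} ∪ {c}) := merge' hps hcs (by unfold Near; omega)
          have v := union_bd hps hcs
          have : q ∈ ({p} ∪ {c} : Finset α) := mem_of_box hm.sp hqW hU (by omega) (by omega)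
            (by omega) (by omega)
          rw [Finset.mem_union, Finset.mem_singleton, Finset.mem_singleton] at this
          rcases this with h' | h'
          · exact hne h'.symm
          · exact hcW (h' ▸ hqW)
        · push_cast at hcard
          omega
      · unfold IsKer at hk
        push Not at hk
        obtain ⟨W1, f1, f2, f3, f4⟩ := hk hm.sp
        obtain ⟨W', f5, f6⟩ := exists_max f2 f1
        have b1 := sub_bd f5 f2
        have b2 := sub_bd f6.ss.1 f6.sp
        have hfull : s.l W' = s.l W ∧ s.r W' = s.r W := by omega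
        have hc1 : (W \ W').card = 1 := by
          have h3 := Finset.card_pos.2 (s.ne (SL hm.sp f6).1)
          have h4 : ¬ 2 ≤ (W \ W').card := fun h4 => SL2y hm.sp f6 h4 hfull
          omega
        obtain ⟨z, hzW, hzW', hins', hcard', hn2, hbox2, v1, v2, v3, v4⟩ := one_shape hm.sp f6 hc1
        have h5 := bound2 f6.sp (by omega)
        have wW' := wf f6.sp
        have hnn : ¬ s.Near W' {c} := by
          intro hnear
          have hcs := s.single hS.1 hcS
          have hU : s.Sp (W' ∪ {c}) := merge' f6.sp hcs hnear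
          have hz : z ∉ W' ∪ {c} := by
            rw [Finset.mem_union, Finset.mem_singleton]
            rintro (h' | h')
            · exact hzW' h'
            · exact hcW (h' ▸ hzW)
          have hsub : W' ∪ {c} ⊂ S := by
            rw [Finset.ssubset_iff_subset_ne]
            refine ⟨Finset.union_subset (f6.ss.1.trans hm.ss.1)
              (Finset.singleton_subset_iff.2 hcS), ?_⟩
            intro h'
            exact hz (by rw [h']; exact hm.ss.1 hzW)
          have u := union_bd f6.sp hcs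
          refine hS.2 _ hsub hU ?_
          clear v1 v2 v3 v4 hbox2 hn2
          omega
        have ez := single_bd (s := s) z
        have hYc : s.Y c ≥ s.t W' + 2 ∨ s.Y c ≤ s.b W' - 2 := by
          clear v1 v2 v3 v4 hbox2 hn2
          by_contra hcon
          apply hnn
          unfold Near
          omega
        clear hnn
        have hYz : s.Y z ≤ s.t W' + 2 ∧ s.b W' - 2 ≤ s.Y z := by
          clear v1 v2 v3 v4 hbox2
          unfold Near at hn2
          omega
        clear hbox2 hn2 v1 v2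
        rcases hYc with hYc | hYc
        · have : s.t W = s.t W' + 2 ∧ s.b W = s.b W' := by omega
          clear v3 v4
          omega
        · have : s.b W = s.b W' - 2 ∧ s.t W = s.t W' := by omega
          clear v3 v4
          omega
    · have : s.t S - s.b S = s.t W - s.b W + 1 := by
        clear hbox u1 u2
        omega
      clear hbox u1 u2 u3 u4
      omega

theorem ker3_one {S W : Finset α} (hS : s.IsKer S) (hw : s.r S = s.l S + 2)
    (hm : s.IsMax S W) (hc : (S \ W).card = 1) :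
    3 * (S.card : ℤ) ≤ 2 * (s.t S - s.b S + 1) + 6 := by
  have hk := hS.2 W hm.ss hm.sp
  have b := sub_bd hm.ss.1 hm.sp
  rcases (show s.r W < s.r S ∨ s.l S < s.l W by omega) with h | h
  · exact ker3_right hS hw hm hc h
  · have := ker3_right (s := s.negX) hS.negX (by simp only [negX_r, negX_l]; omega) hm.negX hc
      (by simp only [negX_r]; omega)
    simpa using this

theorem Cfg.gap {T S1 S2 : Finset α} (h : Cfg s T S1 S2) : ∃ c ∈ T \ S1,
    s.Y c = s.t (T \ S1) ∧ ¬ (s.l S1 - s.X c ≤ 2 ∧ s.b S1 - s.Y c ≤ 2 ∧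
      (s.l S1 - s.X c) + (s.b S1 - s.Y c) ≤ 2) := by
  have hB := SL h.hT h.h1
  obtain ⟨c, hc, hc2⟩ := exists_top hB.1
  refine ⟨c, hc, hc2, ?_⟩
  intro hcon
  refine hB.2.2 {c} (single_ssub hc h.c1) (s.single hB.1 hc) ?_
  rw [← nearQ_iff (T := T) (Finset.singleton_subset_iff.2 (Finset.sdiff_subset hc))
    (s.single hB.1 hc) h.pos.1 h.pos.2.2.2.1]
  have e := single_bd (s := s) c
  unfold nearQ
  rw [e.2.1, e.2.2.2]
  exact hcon

theorem Cfg.nearB {T S1 S2 : Finset α} (h : Cfg s T S1 S2) :
    s.l S1 - s.r (T \ S1) ≤ 2 ∧ s.b S1 - s.t (T \ S1) ≤ 2 ∧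
      (s.l S1 - s.r (T \ S1)) + (s.b S1 - s.t (T \ S1)) ≤ 2 := by
  have hB := SL h.hT h.h1
  exact (nearQ_iff (T := T) Finset.sdiff_subset hB.1 h.pos.1 h.pos.2.2.2.1).2 hB.2.1

theorem Cfg.cardB {T S1 S2 : Finset α} (h : Cfg s T S1 S2) :
    (T.card : ℤ) = (T \ S1).card + S1.card := by
  have := Finset.card_sdiff_add_card_eq_card h.h1.ss.1
  exact_mod_cast this.symm

theorem ker3_two {S S1 S2 : Finset α} (h : Cfg s S S1 S2) (hw : s.r S = s.l S + 2) :
    3 * (S.card : ℤ) ≤ 2 * (s.t S - s.b S + 1) + 6 := by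
  have hB := SL h.hT h.h1
  have hB2 := SL h.hT h.h2
  have pos := h.pos
  have tB := h.tB1
  have big := h.big1
  have big2 := h.big2
  have nb := h.nearB
  have cB := h.cardB
  obtain ⟨c, hc, hcY, hcn⟩ := h.gap
  have m := mem_bd (s := s) hc
  have b1 := sub_bd h.h12 hB.1
  have b2 := sub_bd h.h21 hB2.1
  have e1 : s.r (S \ S1) = s.l (S \ S1) + 1 := by clear hcn; omega
  have e2 : s.r S1 = s.l S1 + 1 := by clear hcn; omega
  have k1 := bound2 hB.1 e1
  have k2 := bound2 h.h1.sp e2
  have : s.b S1 = s.t (S \ S1) + 2 := by omega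
  clear hcn
  omega

theorem bound3 {T : Finset α} (hT : s.Sp T) (hw : s.r T = s.l T + 2) :
    3 * (T.card : ℤ) ≤ 2 * (s.t T - s.b T + 1) + 8 := by
  obtain ⟨S, hST, hS, hl, hr⟩ := exists_ker hT
  have hwS : s.r S = s.l S + 2 := by omega
  have key : 3 * (S.card : ℤ) ≤ 2 * (s.t S - s.b S + 1) + 6 := by
    obtain ⟨p0, hp0, hp02⟩ := exists_left hS.1
    obtain ⟨q0, hq0, hq02⟩ := exists_right hS.1
    have hc : 2 ≤ S.card := card_two_le_of_ne hp0 hq0 (fun h => by rw [h] at hp02; omega)
    obtain ⟨S1, S2, h1, h2, h12⟩ := two_max hS.1 hc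
    have n1 := Finset.card_pos.2 (s.ne (SL hS.1 h1).1)
    have n2 := Finset.card_pos.2 (s.ne (SL hS.1 h2).1)
    by_cases c1 : (S \ S1).card = 1
    · exact ker3_one hS hwS h1 c1
    by_cases c2 : (S \ S2).card = 1
    · exact ker3_one hS hwS h2 c2
    rcases exists_cfg hS.1 h1 h2 h12 (by omega) (by omega) with h | h | h | h
    · exact ker3_two h hwS
    · have := ker3_two h (by simp only [negX_l, negX_r]; omega)
      simpa using this
    · have := ker3_two h (by simp only [negY_l, negY_r]; omega)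
      simp only [negY_t, negY_b] at this
      omega
    · have := ker3_two h (by simp only [neg_l, neg_r]; omega)
      simp only [neg_t, neg_b] at this
      omega
  obtain ⟨a, b, ha, hb, h1, h2, h3, h4, h5⟩ := grow_bound hT hS.1 hST hl hr
  clear h4 h5
  omega

end Sys

end Pool.Agent.BootPerc
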