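import Pool.Agent.BootPerc.Growth2

set_option autoImplicit false
set_option linter.unusedSectionVars false
set_option linter.unusedVariables false
set_option linter.unusedSimpArgs false

namespace Pool.Agent.BootPerc

namespace Sys

variable {α : Type*} [DecidableEq α] {s : Sys α}

theorem bound1' {T : Finset α} (hT : s.Sp T) (hw : s.t T = s.b T) :
    3 * (T.card : ℤ) ≤ 2 * (s.r T - s.l T + 1) + 2 := bound1 (s := s.swap) hT hw
theorem bound2' {T : Finset α} (hT : s.Sp T) (hw : s.t T = s.b T + 1) :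
    3 * (T.card : ℤ) ≤ 2 * (s.r T - s.l T + 1) + 4 := bound2 (s := s.swap) hT hw
theorem bound3' {T : Finset α} (hT : s.Sp T) (hw : s.t T = s.b T + 2) :
    3 * (T.card : ℤ) ≤ 2 * (s.r T - s.l T + 1) + 8 := bound3 (s := s.swap) hT hw

theorem ker4_right {S W : Finset α} (hS : s.IsKer S) (hw : s.r S = s.l S + 3)
    (hh : 3 ≤ s.t S - s.b S)
    (hm : s.IsMax S W) (hc : (S \ W).card = 1) (hr : s.r W < s.r S) :
    15 * (S.card : ℤ) ≤ 14 * (s.t S - s.b S + 1) + 35 := by
  obtain ⟨c, hcS, hcW, hins, hcard, hn, hbox, u1, u2, u3, u4⟩ := one_shape hS.1 hm hc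
  have wW := wf hm.sp
  have e := single_bd (s := s) c
  have hXc : s.X c = s.r S := by clear u1 u3 u4 hbox hn; omega
  have hlW : s.l W = s.l S := by clear u3 u4 hbox hn; omega
  have hn' : s.X c - s.r W ≤ 2 ∧ s.Y c - s.t W ≤ 2 ∧ s.b W - s.Y c ≤ 2 ∧
      (s.X c - s.r W) + (s.Y c - s.t W) ≤ 2 ∧ (s.X c - s.r W) + (s.b W - s.Y c) ≤ 2 := by
    clear u1 u2 u3 u4 hbox
    unfold Near at hn
    omega
  clear hn u1 u2 hbox
  have hh2 : s.t S - s.b S ≤ s.t W - s.b W + 1 := by omega
  rcases (show s.r W = s.l S + 1 ∨ s.r W = s.l S + 2 by clear u3 u4; omega) with h | h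
  · have h1 := bound2 hm.sp (by rw [h, hlW])
    have : s.b W ≤ s.Y c ∧ s.Y c ≤ s.t W := by clear u3 u4; omega
    have : s.t S = s.t W ∧ s.b S = s.b W := by omega
    clear u3 u4
    omega
  · have h2 := bound3 hm.sp (by rw [h, hlW])
    have b := sub_bd hm.ss.1 hm.sp
    clear u3 u4
    rcases eq_or_lt_of_le hh with h5 | h5
    · omega
    · omega

theorem ker4_one {S W : Finset α} (hS : s.IsKer S) (hw : s.r S = s.l S + 3)
    (hh : 3 ≤ s.t S - s.b S)
    (hm : s.IsMax S W) (hc : (S \ W).card = 1) :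
    15 * (S.card : ℤ) ≤ 14 * (s.t S - s.b S + 1) + 35 := by
  have hk := hS.2 W hm.ss hm.sp
  have b := sub_bd hm.ss.1 hm.sp
  rcases (show s.r W < s.r S ∨ s.l S < s.l W by omega) with h | h
  · exact ker4_right hS hw hh hm hc h
  · have := ker4_right (s := s.negX) hS.negX (by simp only [negX_r, negX_l]; omega)
      (by simpa using hh) hm.negX hc (by simp only [negX_r]; omega)
    simpa using this

theorem ker4_two {S S1 S2 : Finset α} (h : Cfg s S S1 S2) (hw : s.r S = s.l S + 3)
    (hh : 3 ≤ s.t S - s.b S) :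
    15 * (S.card : ℤ) ≤ 14 * (s.t S - s.b S + 1) + 35 := by
  have hB := SL h.hT h.h1
  have hB2 := SL h.hT h.h2
  have pos := h.pos
  have tB := h.tB1
  have big := h.big1
  have big2 := h.big2
  have nb := h.nearB
  have cB := h.cardB
  obtain ⟨c, hc, hcY, hcn⟩ := h.gap
  have m := mem_bd (s := s) hc
  have b1 := sub_bd h.h12 hB.1
  have b2 := sub_bd h.h21 hB2.1
  have w1 := wf hB.1
  have w2 := wf h.h1.sp
  -- the four shapes
  have hgy : s.b S1 - s.t (S \ S1) ≤ 2 ∧ 1 ≤ s.b S1 - s.t (S \ S1) := by omega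
  rcases (show s.r (S \ S1) = s.l (S \ S1) + 1 ∨ s.r (S \ S1) = s.l (S \ S1) + 2 by
    clear hcn; omega) with e1 | e1
  · rcases (show s.r S1 = s.l S1 + 1 ∨ s.r S1 = s.l S1 + 2 by clear hcn; omega) with e2 | e2
    · have k1 := bound2 hB.1 e1
      have k2 := bound2 h.h1.sp e2
      have : s.b S1 = s.t (S \ S1) + 1 := by omega
      clear hcn
      omega
    · have k1 := bound2 hB.1 e1
      have k2 := bound3 h.h1.sp e2
      have : s.b S1 = s.t (S \ S1) + 2 := by omega
      clear hcn
      omega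
  · rcases (show s.r S1 = s.l S1 + 1 ∨ s.r S1 = s.l S1 + 2 by clear hcn; omega) with e2 | e2
    · have k1 := bound3 hB.1 e1
      have k2 := bound2 h.h1.sp e2
      have k3 : s.t (S \ S1) = s.b (S \ S1) + 1 → 3 * ((S \ S1).card : ℤ) ≤ 10 := by
        intro h'
        have := bound2' hB.1 h'
        omega
      clear hcn nb
      rcases (show s.b S1 = s.t (S \ S1) + 2 ∨ s.b S1 = s.t (S \ S1) + 1 by omega) with g | g
      · clear k3; omega
      · rcases lt_or_ge (s.t S - s.b S) 6 with g' | g'
        · have t1 : s.t (S \ S1) = s.b (S \ S1) + 1 ∨ s.t (S \ S1) = s.b (S \ S1) + 2 ∨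
            s.t (S \ S1) = s.b (S \ S1) + 3 := by clear k3; omega
          have t2 : s.t S1 = s.b S1 + 1 ∨ s.t S1 = s.b S1 + 2 ∨ s.t S1 = s.b S1 + 3 := by
            clear k3 t1; omega
          rcases t1 with t1 | t1 | t1
          · have := k3 t1
            clear k3
            rcases t2 with t2 | t2 | t2 <;> omega
          · clear k3
            rcases t2 with t2 | t2 | t2 <;> omega
          · clear k3
            rcases t2 with t2 | t2 | t2 <;> omega
        · clear k3; omega
    · have k1 := bound3 hB.1 e1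
      have k2 := bound3 h.h1.sp e2
      have k3 : s.t (S \ S1) = s.b (S \ S1) + 1 → 3 * ((S \ S1).card : ℤ) ≤ 10 := by
        intro h'
        have := bound2' hB.1 h'
        omega
      have k4 : s.t S1 = s.b S1 + 1 → 3 * (S1.card : ℤ) ≤ 10 := by
        intro h'
        have := bound2' h.h1.sp h'
        omega
      have g : s.b S1 = s.t (S \ S1) + 2 := by omega
      clear hcn nb
      rcases lt_or_ge (s.t S - s.b S) 8 with g' | g'
      · have t1 : s.t (S \ S1) = s.b (S \ S1) + 1 ∨ s.t (S \ S1) = s.b (S \ S1) + 2 ∨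
            s.t (S \ S1) = s.b (S \ S1) + 3 ∨ s.t (S \ S1) = s.b (S \ S1) + 4 := by
          clear k3 k4; omega
        have t2 : s.t S1 = s.b S1 + 1 ∨ s.t S1 = s.b S1 + 2 ∨ s.t S1 = s.b S1 + 3 ∨
            s.t S1 = s.b S1 + 4 := by
          clear k3 k4 t1; omega
        rcases t1 with t1 | t1 | t1 | t1
        · have := k3 t1
          clear k3
          rcases t2 with t2 | t2 | t2 | t2
          · have := k4 t2; clear k4; omega
          all_goals (clear k4; omega)
        all_goals
          clear k3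
          rcases t2 with t2 | t2 | t2 | t2
          · have := k4 t2; clear k4; omega
          all_goals (clear k4; omega)
      · clear k3 k4; omega

theorem bound4 {T : Finset α} (hT : s.Sp T) (hw : s.r T = s.l T + 3) :
    15 * (T.card : ℤ) ≤ 14 * (s.t T - s.b T + 1) + 37 := by
  obtain ⟨S, hST, hS, hl, hr⟩ := exists_ker hT
  have hwS : s.r S = s.l S + 3 := by omega
  have wS := wf hS.1
  have key : 15 * (S.card : ℤ) ≤ 14 * (s.t S - s.b S + 1) + 35 := by
    rcases (show s.t S = s.b S ∨ s.t S = s.b S + 1 ∨ s.t S = s.b S + 2 ∨ 3 ≤ s.t S - s.b S by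
      omega) with hh | hh | hh | hh
    · have := bound1' hS.1 hh; omega
    · have := bound2' hS.1 hh; omega
    · have := bound3' hS.1 hh; omega
    obtain ⟨p0, hp0, hp02⟩ := exists_left hS.1
    obtain ⟨q0, hq0, hq02⟩ := exists_right hS.1
    have hc : 2 ≤ S.card := card_two_le_of_ne hp0 hq0 (fun h => by rw [h] at hp02; omega)
    obtain ⟨S1, S2, h1, h2, h12⟩ := two_max hS.1 hc
    have n1 := Finset.card_pos.2 (s.ne (SL hS.1 h1).1)
    have n2 := Finset.card_pos.2 (s.ne (SL hS.1 h2).1)
    by_cases c1 : (S \ S1).card = 1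
    · exact ker4_one hS hwS hh h1 c1
    by_cases c2 : (S \ S2).card = 1
    · exact ker4_one hS hwS hh h2 c2
    rcases exists_cfg hS.1 h1 h2 h12 (by omega) (by omega) with h | h | h | h
    · exact ker4_two h hwS hh
    · have := ker4_two h (by simp only [negX_l, negX_r]; omega) (by simpa using hh)
      simpa using this
    · have := ker4_two h (by simp only [negY_l, negY_r]; omega)
        (by simp only [negY_t, negY_b]; omega)
      simp only [negY_t, negY_b] at this
      omega
    · have := ker4_two h (by simp only [neg_l, neg_r]; omega)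
        (by simp only [neg_t, neg_b]; omega)
      simp only [neg_t, neg_b] at this
      omega
  obtain ⟨a, b, ha, hb, h1, h2, h3, h4, h5⟩ := grow_bound hT hS.1 hST hl hr
  clear h4 h5
  have bS := sub_bd hST hS.1
  have ea : 15 * a ≤ 14 * (s.t T - s.t S) + 1 := by
    rcases eq_or_lt_of_le ha with h | h
    · omega
    · omega
  have eb : 15 * b ≤ 14 * (s.b S - s.b T) + 1 := by
    rcases eq_or_lt_of_le hb with h | h
    · omega
    · omega
  omega

theorem bound4' {T : Finset α} (hT : s.Sp T) (hw : s.t T = s.b T + 3) :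
    15 * (T.card : ℤ) ≤ 14 * (s.r T - s.l T + 1) + 37 := bound4 (s := s.swap) hT hw

/-- width -/
noncomputable def w (s : Sys α) (T : Finset α) : ℤ := s.r T - s.l T + 1
/-- height -/
noncomputable def h (s : Sys α) (T : Finset α) : ℤ := s.t T - s.b T + 1

/-- the potential -/
noncomputable def dl (s : Sys α) (T : Finset α) : ℤ :=
  2 * (s.w T + 3) * (s.h T + 3) - 5 - 15 * (T.card : ℤ)

/-- the base lower bound of the potential -/
def base (m n : ℤ) : ℤ := if m = 2 ∨ n = 2 then 5 else if m = 3 ∨ n = 3 then 1 else 0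

/-- base lower bound for narrow boxes -/
theorem base_narrow {T : Finset α} (hT : s.Sp T) (hm : 2 ≤ s.w T) (hn : 2 ≤ s.h T)
    (hs : s.w T ≤ 4 ∨ s.h T ≤ 4) : base (s.w T) (s.h T) ≤ s.dl T := by
  have gen : ∀ (s : Sys α), s.Sp T → 2 ≤ s.w T → 2 ≤ s.h T → s.w T ≤ 4 → s.w T ≤ s.h T →
      base (s.w T) (s.h T) ≤ s.dl T := by
    intro s hT hm hn h4 hle
    unfold dl base
    rcases (show s.w T = 2 ∨ s.w T = 3 ∨ s.w T = 4 by omega) with h | h | h
    · have := bound2 hT (by unfold w at h; omega)
      rw [h, if_pos (Or.inl rfl)]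
      unfold Sys.h at *
      omega
    · have := bound3 hT (by unfold w at h; omega)
      rw [h]
      unfold Sys.h at *
      rw [if_neg (by omega), if_pos (Or.inl rfl)]
      rcases (show s.t T - s.b T + 1 = 3 ∨ s.t T - s.b T + 1 = 4 ∨ 5 ≤ s.t T - s.b T + 1 by omega)
        with g | g | g <;> omega
    · have := bound4 hT (by unfold w at h; omega)
      rw [h]
      unfold Sys.h at *
      rw [if_neg (by omega), if_neg (by omega)]
      omega
  have hsym : base (s.h T) (s.w T) = base (s.w T) (s.h T) := by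
    unfold base
    split_ifs <;> omega
  rcases le_total (s.w T) (s.h T) with h | h
  · exact gen s hT hm hn (by omega) h
  · have := gen s.swap hT hn hm (by
      have e : s.swap.w T = s.h T := rfl
      rw [e]; omega) h
    have e1 : s.swap.w T = s.h T := rfl
    have e2 : s.swap.h T = s.w T := rfl
    have e3 : s.swap.dl T = s.dl T := by
      unfold dl
      rw [e1, e2]; ring
    rw [e1, e2, e3, hsym] at this
    exact this

end Sys

end Pool.Agent.BootPerc
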