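import Pool.Agent.BootPerc.Main3
import Pool.Agent.BootPerc.Bridge

set_option autoImplicit false
set_option linter.unusedSectionVars false
set_option linter.unusedVariables false

namespace Pool.Agent.BootPerc

/-- first coordinate of a site -/
def cX (p : ℤ × ℤ) : ℤ := p.1
/-- second coordinate of a site -/
def cY (p : ℤ × ℤ) : ℤ := p.2

/-- internally spanned subsets of `T0` -/
def SpSet (T0 A : Finset (ℤ × ℤ)) : Prop :=
  A ⊆ T0 ∧ A.Nonempty ∧ Spans A (lo cX A) (hi cX A) (lo cY A) (hi cY A)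

theorem mem_bbox {A : Finset (ℤ × ℤ)} {p : ℤ × ℤ} (hp : p ∈ A) :
    p ∈ box (lo cX A) (hi cX A) (lo cY A) (hi cY A) :=
  ⟨lo_le (f := cX) hp, le_hi (f := cX) hp, lo_le (f := cY) hp, le_hi (f := cY) hp⟩

theorem SpSet.of_fills {T0 A : Finset (ℤ × ℤ)} (h1 : A ⊆ T0) (h2 : A.Nonempty)
    (h3 : Fills A (lo cX A) (hi cX A) (lo cY A) (hi cY A)) : SpSet T0 A :=
  ⟨h1, h2, spans_of h3 (fun p hp => mem_bbox hp)⟩

theorem SpSet.wf {T0 A : Finset (ℤ × ℤ)} (h : SpSet T0 A) :
    lo cX A ≤ hi cX A ∧ lo cY A ≤ hi cY A := by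
  obtain ⟨p, hp⟩ := h.2.1
  have := lo_le (f := cX) hp
  have := le_hi (f := cX) hp
  have := lo_le (f := cY) hp
  have := le_hi (f := cY) hp
  omega

theorem SpSet.single {T0 : Finset (ℤ × ℤ)} {p : ℤ × ℤ} (hp : p ∈ T0) : SpSet T0 {p} := by
  refine SpSet.of_fills (Finset.singleton_subset_iff.2 hp) (Finset.singleton_nonempty p) ?_
  rw [lo_single, hi_single, lo_single, hi_single]
  rintro ⟨q1, q2⟩ hq
  rw [mem_box] at hq
  unfold cX cY at hq
  simp only at hq
  apply Inf.base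
  rw [Finset.mem_singleton]
  ext
  · simp only; omega
  · simp only; omega

theorem SpSet.merge {T0 A B : Finset (ℤ × ℤ)} (hA : SpSet T0 A) (hB : SpSet T0 B)
    (hn : NearB (lo cX A) (hi cX A) (lo cY A) (hi cY A) (lo cX B) (hi cX B) (lo cY B) (hi cY B)) :
    SpSet T0 (A ∪ B) := by
  refine SpSet.of_fills (Finset.union_subset hA.1 hB.1) (hA.2.1.mono Finset.subset_union_left) ?_
  rw [lo_union hA.2.1 hB.2.1, hi_union hA.2.1 hB.2.1, lo_union hA.2.1 hB.2.1,
    hi_union hA.2.1 hB.2.1]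
  have f1 : Fills (A ∪ B) (lo cX A) (hi cX A) (lo cY A) (hi cY A) :=
    hA.2.2.fills.mono Finset.subset_union_left
  have f2 : Fills (A ∪ B) (lo cX B) (hi cX B) (lo cY B) (hi cY B) :=
    hB.2.2.fills.mono Finset.subset_union_right
  have wA := hA.wf
  have wB := hB.wf
  exact fill_near f1 f2 wA.1 wA.2 wB.1 wB.2 hn

/-- nearness of two subsets of the plane through their bounding boxes -/
def NearS (A B : Finset (ℤ × ℤ)) : Prop :=
  NearB (lo cX A) (hi cX A) (lo cY A) (hi cY A) (lo cX B) (hi cX B) (lo cY B) (hi cY B)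

theorem NearS.symm {A B : Finset (ℤ × ℤ)} (h : NearS A B) : NearS B A := by
  unfold NearS NearB at *; omega

/-- sites of two boxes with a common neighbour make the boxes near -/
theorem nearB_of_adj {l r b t l' r' b' t' : ℤ} {p q z : ℤ × ℤ} (h1 : Adj p q) (h2 : Adj p z)
    (hq : q ∈ box l r b t) (hz : z ∈ box l' r' b' t') : NearB l r b t l' r' b' t' := by
  rw [adj_iff] at h1 h2
  rw [mem_box] at hq hz
  unfold NearB
  refine ⟨?_, ?_, ?_, ?_, ?_, ?_, ?_, ?_⟩ <;> omega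

theorem cluster {T0 B : Finset (ℤ × ℤ)} (hB : B ⊆ T0) : ∃ F : Finset (Finset (ℤ × ℤ)),
    (∀ C ∈ F, C ⊆ B ∧ SpSet T0 C) ∧ (∀ p ∈ B, ∃ C ∈ F, p ∈ C) ∧
    (∀ C ∈ F, ∀ D ∈ F, C ≠ D → ¬ NearS C D) := by
  have key : ∀ n : ℕ, ∀ F : Finset (Finset (ℤ × ℤ)), F.card = n →
      (∀ C ∈ F, C ⊆ B ∧ SpSet T0 C) → (∀ p ∈ B, ∃ C ∈ F, p ∈ C) →
      ∃ F : Finset (Finset (ℤ × ℤ)), (∀ C ∈ F, C ⊆ B ∧ SpSet T0 C) ∧
        (∀ p ∈ B, ∃ C ∈ F, p ∈ C) ∧ (∀ C ∈ F, ∀ D ∈ F, C ≠ D → ¬ NearS C D) := by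
    intro n
    induction n using Nat.strong_induction_on with
    | _ n ih =>
      intro F hn h1 h2
      by_cases h3 : ∀ C ∈ F, ∀ D ∈ F, C ≠ D → ¬ NearS C D
      · exact ⟨F, h1, h2, h3⟩
      · push Not at h3
        obtain ⟨C, hC, D, hD, hne, hnear⟩ := h3
        refine ih (insert (C ∪ D) ((F.erase C).erase D)).card ?_ _ rfl ?_ ?_
        · have e1 := Finset.card_insert_le (C ∪ D) ((F.erase C).erase D)
          have e2 := Finset.card_erase_of_mem hC
          have e3 := Finset.card_erase_of_mem (Finset.mem_erase.2 ⟨hne.symm, hD⟩)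
          have e4 := Finset.card_pos.2 ⟨C, hC⟩
          have e5 : 1 < F.card := Finset.one_lt_card.2 ⟨C, hC, D, hD, hne⟩
          omega
        · intro E hE
          rw [Finset.mem_insert, Finset.mem_erase, Finset.mem_erase] at hE
          rcases hE with rfl | hE
          · exact ⟨Finset.union_subset (h1 C hC).1 (h1 D hD).1,
              SpSet.merge (h1 C hC).2 (h1 D hD).2 hnear⟩
          · exact h1 E hE.2.2
        · intro p hp
          obtain ⟨E, hE, hpE⟩ := h2 p hp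
          by_cases hEC : E = C
          · exact ⟨C ∪ D, Finset.mem_insert_self _ _, Finset.mem_union_left _ (hEC ▸ hpE)⟩
          by_cases hED : E = D
          · exact ⟨C ∪ D, Finset.mem_insert_self _ _, Finset.mem_union_right _ (hED ▸ hpE)⟩
          · exact ⟨E, Finset.mem_insert_of_mem (Finset.mem_erase.2 ⟨hED,
              Finset.mem_erase.2 ⟨hEC, hE⟩⟩), hpE⟩
  refine key _ (B.image (fun p => {p})) rfl ?_ ?_
  · intro C hC
    rw [Finset.mem_image] at hC
    obtain ⟨p, hp, rfl⟩ := hC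
    exact ⟨Finset.singleton_subset_iff.2 hp, SpSet.single (hB hp)⟩
  · intro p hp
    exact ⟨{p}, Finset.mem_image.2 ⟨p, hp, rfl⟩, Finset.mem_singleton_self p⟩

theorem SpSet.mono {T0 S S' : Finset (ℤ × ℤ)} (hirr : ∀ x ∈ T0, ¬ Inf (T0.erase x) x)
    (hS : SpSet T0 S) (hS' : SpSet T0 S') (h1 : lo cX S' ≤ lo cX S) (h2 : hi cX S ≤ hi cX S')
    (h3 : lo cY S' ≤ lo cY S) (h4 : hi cY S ≤ hi cY S') : S ⊆ S' := by
  intro x hx
  by_contra hx'
  refine hirr x (hS.1 hx) ?_
  have hb := mem_bbox hx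
  rw [mem_box] at hb
  have : Inf S' x := hS'.2.2.fills x (by rw [mem_box]; omega)
  refine this.mono ?_
  intro y hy
  exact Finset.mem_erase.2 ⟨fun e => hx' (e ▸ hy), hS'.1 hy⟩

theorem SpSet.W {T0 S T : Finset (ℤ × ℤ)} (hirr : ∀ x ∈ T0, ¬ Inf (T0.erase x) x)
    (hS : SpSet T0 S) (hT : SpSet T0 T) (hST : S ⊂ T) :
    ∃ B, B ⊆ T \ S ∧ SpSet T0 B ∧ NearS B S := by
  obtain ⟨F, f1, f2, f3⟩ := cluster (T0 := T0) (B := T \ S) (Finset.sdiff_subset.trans hT.1)
  by_contra hcon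
  push Not at hcon
  have f4 : ∀ C ∈ F, ¬ NearS C S := fun C hC => hcon C (f1 C hC).1 (f1 C hC).2
  set U : Set (ℤ × ℤ) := {p | p ∈ box (lo cX S) (hi cX S) (lo cY S) (hi cY S) ∨
    ∃ C ∈ F, p ∈ box (lo cX C) (hi cX C) (lo cY C) (hi cY C)} with hU
  have hclosed : Closed U := by
    rintro p q z hne h1 h2 (hq | ⟨C, hC, hq⟩) (hz | ⟨D, hD, hz⟩)
    · exact Or.inl (closed_box _ _ _ _ p q z hne h1 h2 hq hz)
    · exact absurd (nearB_of_adj h2 h1 hz hq) (f4 D hD)
    · exact absurd (nearB_of_adj h1 h2 hq hz) (f4 C hC)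
    · by_cases hCD : C = D
      · subst hCD
        exact Or.inr ⟨C, hC, closed_box _ _ _ _ p q z hne h1 h2 hq hz⟩
      · exact absurd (nearB_of_adj h1 h2 hq hz) (f3 C hC D hD hCD)
  have hTU : ∀ p ∈ T, p ∈ U := by
    intro p hp
    by_cases h : p ∈ S
    · exact Or.inl (mem_bbox h)
    · obtain ⟨C, hC, hpC⟩ := f2 p (Finset.mem_sdiff.2 ⟨hp, h⟩)
      exact Or.inr ⟨C, hC, mem_bbox hpC⟩
  have hbox : ∀ p ∈ box (lo cX T) (hi cX T) (lo cY T) (hi cY T), p ∈ U := fun p hp =>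
    (hT.2.2.fills p hp).sub hclosed hTU
  have wS := hS.wf
  have b1 := lo_anti (f := cX) hST.1 hS.2.1
  have b2 := hi_mono (f := cX) hST.1 hS.2.1
  have b3 := lo_anti (f := cY) hST.1 hS.2.1
  have b4 := hi_mono (f := cY) hST.1 hS.2.1
  have nope : ∀ p ∈ box (lo cX T) (hi cX T) (lo cY T) (hi cY T),
      (∃ q ∈ box (lo cX S) (hi cX S) (lo cY S) (hi cY S), Adj p q) →
      p ∈ box (lo cX S) (hi cX S) (lo cY S) (hi cY S) := by
    rintro p hp ⟨q, hq, hpq⟩
    rcases hbox p hp with h | ⟨C, hC, h⟩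
    · exact h
    · exfalso
      refine f4 C hC ?_
      rw [adj_iff] at hpq
      rw [mem_box] at h hq
      unfold NearS NearB
      refine ⟨?_, ?_, ?_, ?_, ?_, ?_, ?_, ?_⟩ <;> omega
  have e1 : lo cX S ≤ lo cX T := by
    by_contra h
    have := nope (lo cX S - 1, lo cY S) (by rw [mem_box]; simp only; omega)
      ⟨(lo cX S, lo cY S), by rw [mem_box]; simp only; omega, by rw [adj_mk]; omega⟩
    rw [mem_box] at this
    simp only at this
    omega
  have e2 : hi cX T ≤ hi cX S := by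
    by_contra h
    have := nope (hi cX S + 1, lo cY S) (by rw [mem_box]; simp only; omega)
      ⟨(hi cX S, lo cY S), by rw [mem_box]; simp only; omega, by rw [adj_mk]; omega⟩
    rw [mem_box] at this
    simp only at this
    omega
  have e3 : lo cY S ≤ lo cY T := by
    by_contra h
    have := nope (lo cX S, lo cY S - 1) (by rw [mem_box]; simp only; omega)
      ⟨(lo cX S, lo cY S), by rw [mem_box]; simp only; omega, by rw [adj_mk]; omega⟩
    rw [mem_box] at this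
    simp only at this
    omega
  have e4 : hi cY T ≤ hi cY S := by
    by_contra h
    have := nope (lo cX S, hi cY S + 1) (by rw [mem_box]; simp only; omega)
      ⟨(lo cX S, hi cY S), by rw [mem_box]; simp only; omega, by rw [adj_mk]; omega⟩
    rw [mem_box] at this
    simp only at this
    omega
  exact hST.2 (SpSet.mono hirr hT hS e1 e2 e3 e4)

theorem SpSet.stripX {T0 S : Finset (ℤ × ℤ)} (x : ℤ) (hS : SpSet T0 S) (h1 : lo cX S ≤ x)
    (h2 : x + 1 ≤ hi cX S) : ∃ p ∈ S, cX p = x ∨ cX p = x + 1 := by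
  by_contra hcon
  push Not at hcon
  have hC : Closed {q : ℤ × ℤ | q.1 ≠ x ∧ q.1 ≠ x + 1} := by
    rintro ⟨p1, p2⟩ ⟨q1, q2⟩ ⟨r1, r2⟩ hne g1 g2 hq hr
    rw [adj_mk] at g1 g2
    rw [ne_mk] at hne
    simp only [Set.mem_ofPred_eq] at *
    omega
  have wS := hS.wf
  have := (hS.2.2.fills (x, lo cY S) (by rw [mem_box]; simp only; omega)).sub hC
    (fun p hp => hcon p hp)
  exact this.1 rfl

theorem SpSet.stripY {T0 S : Finset (ℤ × ℤ)} (y : ℤ) (hS : SpSet T0 S) (h1 : lo cY S ≤ y)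
    (h2 : y + 1 ≤ hi cY S) : ∃ p ∈ S, cY p = y ∨ cY p = y + 1 := by
  by_contra hcon
  push Not at hcon
  have hC : Closed {q : ℤ × ℤ | q.2 ≠ y ∧ q.2 ≠ y + 1} := by
    rintro ⟨p1, p2⟩ ⟨q1, q2⟩ ⟨r1, r2⟩ hne g1 g2 hq hr
    rw [adj_mk] at g1 g2
    rw [ne_mk] at hne
    simp only [Set.mem_ofPred_eq] at *
    omega
  have wS := hS.wf
  have := (hS.2.2.fills (lo cX S, y) (by rw [mem_box]; simp only; omega)).sub hC
    (fun p hp => hcon p hp)
  exact this.1 rfl

/-- The system of internally spanned subsets of an irredundant set. -/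
noncomputable def sysOf (T0 : Finset (ℤ × ℤ)) (hirr : ∀ x ∈ T0, ¬ Inf (T0.erase x) x) :
    Sys (ℤ × ℤ) where
  X := cX
  Y := cY
  Sp := SpSet T0
  ne := fun h => h.2.1
  single := fun h hp => SpSet.single (h.1 hp)
  merge := fun hA hB hn => SpSet.merge hA hB hn
  W := fun hS hT hST => SpSet.W hirr hS hT hST
  stripX := fun x hS h1 h2 => SpSet.stripX x hS h1 h2
  stripY := fun y hS h1 h2 => SpSet.stripY y hS h1 h2
  mono := fun hS hS' h1 h2 h3 h4 => SpSet.mono hirr hS hS' h1 h2 h3 h4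

/-- Upper bound for minimal percolating sets. -/
theorem upper_bound {m n : ℕ} (hm : 2 ≤ m) (hn : 2 ≤ n) {T : Finset (ℤ × ℤ)}
    (hT : MinPercolates m n T) : 15 * (T.card : ℤ) ≤ 2 * (m + 3) * (n + 3) - 5 := by
  have hperc := (percolates_iff.1 hT.1)
  have hirr : ∀ x ∈ T, ¬ Inf (T.erase x) x := by
    intro x hx hinf
    refine hT.2 (T.erase x) (Finset.erase_ssubset hx) ?_
    rw [percolates_iff]
    refine ⟨(Finset.erase_subset _ _).trans hperc.1, fun p hp => ?_⟩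
    refine (hperc.2 p hp).trans ?_
    intro q hq
    by_cases h : q = x
    · rw [h]; exact hinf
    · exact Inf.base (Finset.mem_erase.2 ⟨h, hq⟩)
  have hne : T.Nonempty := by
    rw [Finset.nonempty_iff_ne_empty]
    rintro rfl
    have := hperc.2 (1, 1) (by rw [mem_grid]; simp only; omega)
    have := this.sub closed_empty' (fun p hp => absurd hp (Finset.notMem_empty p))
    exact this
  have hsub : ∀ p ∈ T, p ∈ box 1 m 1 n := fun p hp => mem_grid_box.1 (hperc.1 hp)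
  -- the bounding box is the grid
  have hbb : ∀ p ∈ box 1 m 1 n, p ∈ box (lo cX T) (hi cX T) (lo cY T) (hi cY T) := fun p hp =>
    (hperc.2 p (mem_grid_box.2 hp)).sub (closed_box _ _ _ _) (fun q hq => mem_bbox hq)
  have c1 := hbb (1, 1) (by rw [mem_box]; simp only; omega)
  have c2 := hbb (m, n) (by rw [mem_box]; simp only; omega)
  rw [mem_box] at c1 c2
  simp only at c1 c2
  obtain ⟨p1, hp1, hp1'⟩ := exists_lo (f := cX) hne
  obtain ⟨p2, hp2, hp2'⟩ := exists_hi (f := cX) hne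
  obtain ⟨p3, hp3, hp3'⟩ := exists_lo (f := cY) hne
  obtain ⟨p4, hp4, hp4'⟩ := exists_hi (f := cY) hne
  have d1 := hsub p1 hp1
  have d2 := hsub p2 hp2
  have d3 := hsub p3 hp3
  have d4 := hsub p4 hp4
  rw [mem_box] at d1 d2 d3 d4
  unfold cX at hp1' hp2'
  unfold cY at hp3' hp4'
  have e1 : lo cX T = 1 := by unfold cX; unfold cX at c1; omega
  have e2 : hi cX T = m := by unfold cX; unfold cX at c2; omega
  have e3 : lo cY T = 1 := by unfold cY; unfold cY at c1; omega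
  have e4 : hi cY T = n := by unfold cY; unfold cY at c2; omega
  have hSp : (sysOf T hirr).Sp T := by
    refine SpSet.of_fills (Finset.Subset.refl _) hne ?_
    rw [e1, e2, e3, e4]
    exact fun p hp => hperc.2 p (mem_grid_box.2 hp)
  have hw : (sysOf T hirr).w T = m := by
    have : (sysOf T hirr).w T = hi cX T - lo cX T + 1 := rfl
    rw [this, e1, e2]; ring
  have hh : (sysOf T hirr).h T = n := by
    have : (sysOf T hirr).h T = hi cY T - lo cY T + 1 := rfl
    rw [this, e3, e4]; ring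
  have := Sys.upper hSp (by rw [hw]; exact_mod_cast hm) (by rw [hh]; exact_mod_cast hn)
  rw [hw, hh] at this
  exact this

end Pool.Agent.BootPerc
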