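import Pool.Agent.BootPerc.Core

set_option autoImplicit false

namespace Pool.Agent.BootPerc

/-- L1 distance at least three. -/
def Far (p q : ℤ × ℤ) : Prop :=
  3 ≤ (p.1 - q.1) + (p.2 - q.2) ∨ 3 ≤ (p.1 - q.1) - (p.2 - q.2) ∨
  3 ≤ -(p.1 - q.1) + (p.2 - q.2) ∨ 3 ≤ -(p.1 - q.1) - (p.2 - q.2)

theorem Far.symm {p q : ℤ × ℤ} (h : Far p q) : Far q p := by
  unfold Far at *; omega

theorem not_far_of_adj {p q r : ℤ × ℤ} (h1 : Adj p q) (h2 : Adj p r) : ¬ Far q r := by
  rw [adj_iff] at h1 h2
  unfold Far
  omega

theorem Closed.union {C D : Set (ℤ × ℤ)} (hC : Closed C) (hD : Closed D)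
    (h : ∀ p ∈ C, ∀ q ∈ D, Far p q) : Closed (C ∪ D) := by
  rintro p q r hne h1 h2 (hq | hq) (hr | hr)
  · exact Or.inl (hC p q r hne h1 h2 hq hr)
  · exact absurd (h q hq r hr) (not_far_of_adj h1 h2)
  · exact absurd (h r hr q hq) (not_far_of_adj h2 h1)
  · exact Or.inr (hD p q r hne h1 h2 hq hr)

/-- `A` spans exactly the box. -/
def Spans (A : Finset (ℤ × ℤ)) (l r b t : ℤ) : Prop := ∀ p, Inf A p ↔ p ∈ box l r b t

/-- The site `p` is not infected if any one site of `A` is removed. -/
def Av (A : Finset (ℤ × ℤ)) (p : ℤ × ℤ) : Prop := ∀ x ∈ A, ¬ Inf (A.erase x) p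

theorem Spans.fills {A : Finset (ℤ × ℤ)} {l r b t : ℤ} (h : Spans A l r b t) :
    Fills A l r b t := fun p hp => (h p).2 hp

theorem Spans.mem {A : Finset (ℤ × ℤ)} {l r b t : ℤ} (h : Spans A l r b t) {p : ℤ × ℤ}
    (hp : p ∈ A) : l ≤ p.1 ∧ p.1 ≤ r ∧ b ≤ p.2 ∧ p.2 ≤ t := (h p).1 (Inf.base hp)

theorem spans_of {A : Finset (ℤ × ℤ)} {l r b t : ℤ} (h : Fills A l r b t)
    (h' : ∀ p ∈ A, p ∈ box l r b t) : Spans A l r b t :=
  fun p => ⟨fun hp => hp.sub (closed_box l r b t) h', fun hp => h p hp⟩

theorem Fills.mono {A B : Finset (ℤ × ℤ)} {l r b t : ℤ} (h : Fills A l r b t) (hs : A ⊆ B) :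
    Fills B l r b t := fun p hp => (h p hp).mono hs

theorem Spans.erase_box {A : Finset (ℤ × ℤ)} {l r b t : ℤ} (h : Spans A l r b t) {x p : ℤ × ℤ}
    (hp : Inf (A.erase x) p) : l ≤ p.1 ∧ p.1 ≤ r ∧ b ≤ p.2 ∧ p.2 ≤ t :=
  (h p).1 (hp.mono (Finset.erase_subset _ _))

theorem closed_empty' : Closed (∅ : Set (ℤ × ℤ)) := by
  intro p q r _ _ _ hq _; exact hq

/-- Growth to the right by two columns. -/
theorem grow_right2 {T : Finset (ℤ × ℤ)} {l r b t y : ℤ} (hT : Spans T l r b t) (hlr : l ≤ r)
    (hb : b ≤ y) (ht : y ≤ t) (hav : Av T (r, y)) :
    ∃ T' : Finset (ℤ × ℤ), T.card + 1 = T'.card ∧ Spans T' l (r + 2) b t ∧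
      ∀ y', y' ≠ y → Av T' (r + 2, y') := by
  have hz : (r + 2, y) ∉ T := fun h => by have := hT.mem h; simp only at this; omega
  refine ⟨insert (r + 2, y) T, (Finset.card_insert_of_notMem hz).symm, ?_, ?_⟩
  · apply spans_of
    · have h1 : Fills (insert (r + 2, y) T) l r b t := hT.fills.mono (Finset.subset_insert _ _)
      have h2 := fill_point h1 hlr (by omega) (Inf.base (Finset.mem_insert_self (r + 2, y) T))
        (by unfold NearB; omega)
      convert h2 using 1 <;> omega
    · intro p hp
      rw [mem_box]
      rcases Finset.mem_insert.1 hp with rfl | hp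
      · simp only; omega
      · have := hT.mem hp; omega
  · intro y' hy' x hx hinf
    rcases Finset.mem_insert.1 hx with rfl | hxT
    · rw [Finset.erase_insert hz] at hinf
      have := (hT _).1 hinf
      rw [mem_box] at this; simp only at this; omega
    · have hC : Closed ({p | Inf (T.erase x) p} ∪ box (r + 2) (r + 2) y y) := by
        apply (closed_Inf _).union (closed_box _ _ _ _)
        intro p hp q hq
        have h1 := hT.erase_box hp
        rw [mem_box] at hq
        have h2 : p ≠ (r, y) := fun h => hav x hxT (h ▸ hp)
        obtain ⟨p1, p2⟩ := p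
        rw [ne_mk] at h2
        simp only at h1
        unfold Far
        simp only
        omega
      have := hinf.sub hC (by
        intro p hp
        rw [Finset.mem_erase, Finset.mem_insert] at hp
        rcases hp.2 with rfl | hp2
        · right; rw [mem_box]; simp only; omega
        · left; exact Inf.base (Finset.mem_erase.2 ⟨hp.1, hp2⟩))
      rcases this with h | h
      · have := hT.erase_box h; simp only at this; omega
      · rw [mem_box] at h; simp only at h; omega

/-- Growth to the right by three columns with two more sites. -/
theorem grow_right3 {T : Finset (ℤ × ℤ)} {l r b t y : ℤ} (hT : Spans T l r b t) (hlr : l ≤ r)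
    (hb : b ≤ y) (ht : y ≤ t) (hav : Av T (r, y)) :
    ∃ T' : Finset (ℤ × ℤ), T.card + 2 = T'.card ∧ Spans T' l (r + 3) b t ∧
      ∀ y', y' ≠ y → Av T' (r + 3, y') := by
  have hz : (r + 2, y) ∉ T := fun h => by have := hT.mem h; simp only at this; omega
  have hz' : (r + 3, y) ∉ insert (r + 2, y) T := fun h => by
    rcases Finset.mem_insert.1 h with h | h
    · rw [Prod.mk.injEq] at h; omega
    · have := hT.mem h; simp only at this; omega
  refine ⟨insert (r + 3, y) (insert (r + 2, y) T), ?_, ?_, ?_⟩
  · rw [Finset.card_insert_of_notMem hz', Finset.card_insert_of_notMem hz]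
  · apply spans_of
    · have h1 : Fills (insert (r + 3, y) (insert (r + 2, y) T)) l r b t :=
        hT.fills.mono ((Finset.subset_insert _ _).trans (Finset.subset_insert _ _))
      have h2 := fill_point h1 hlr (by omega)
        (Inf.base (Finset.mem_insert_of_mem (Finset.mem_insert_self (r + 2, y) T)))
        (by unfold NearB; omega)
      have h3 := fill_point h2 (by omega) (by omega)
        (Inf.base (Finset.mem_insert_self (r + 3, y) (insert (r + 2, y) T)))
        (by unfold NearB; omega)
      convert h3 using 1 <;> omega
    · intro p hp
      rw [mem_box]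
      rcases Finset.mem_insert.1 hp with rfl | hp
      · simp only; omega
      · rcases Finset.mem_insert.1 hp with rfl | hp
        · simp only; omega
        · have := hT.mem hp; omega
  · intro y' hy' x hx hinf
    rcases Finset.mem_insert.1 hx with rfl | hx
    · -- remove the last site
      rw [Finset.erase_insert hz'] at hinf
      have := hinf.sub (closed_box l (r + 2) b t) (by
        intro p hp
        rw [mem_box]
        rcases Finset.mem_insert.1 hp with rfl | hp
        · simp only; omega
        · have := hT.mem hp; omega)
      rw [mem_box] at this; simp only at this; omega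
    rcases Finset.mem_insert.1 hx with rfl | hxT
    · have hC : Closed (box l r b t ∪ box (r + 3) (r + 3) y y) := by
        apply (closed_box _ _ _ _).union (closed_box _ _ _ _)
        intro p hp q hq
        rw [mem_box] at hp hq
        unfold Far
        omega
      have := hinf.sub hC (by
        intro p hp
        rw [Finset.mem_erase, Finset.mem_insert, Finset.mem_insert] at hp
        rcases hp.2 with rfl | rfl | hp2
        · right; rw [mem_box]; simp only; omega
        · exact absurd rfl hp.1
        · left; exact hT.mem hp2)
      rcases this with h | h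
      · rw [mem_box] at h; simp only at h; omega
      · rw [mem_box] at h; simp only at h; omega
    · have hC : Closed ({p | Inf (T.erase x) p} ∪ box (r + 2) (r + 3) y y) := by
        apply (closed_Inf _).union (closed_box _ _ _ _)
        intro p hp q hq
        have h1 := hT.erase_box hp
        rw [mem_box] at hq
        have h2 : p ≠ (r, y) := fun h => hav x hxT (h ▸ hp)
        obtain ⟨p1, p2⟩ := p
        rw [ne_mk] at h2
        simp only at h1
        unfold Far
        simp only
        omega
      have := hinf.sub hC (by
        intro p hp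
        rw [Finset.mem_erase, Finset.mem_insert, Finset.mem_insert] at hp
        rcases hp.2 with rfl | rfl | hp2
        · right; rw [mem_box]; simp only; omega
        · right; rw [mem_box]; simp only; omega
        · left; exact Inf.base (Finset.mem_erase.2 ⟨hp.1, hp2⟩))
      rcases this with h | h
      · have := hT.erase_box h; simp only at this; omega
      · rw [mem_box] at h; simp only at h; omega

/-- Growth upwards by two rows. -/
theorem grow_up2 {T : Finset (ℤ × ℤ)} {l r b t x : ℤ} (hT : Spans T l r b t) (hbt : b ≤ t)
    (hb : l ≤ x) (ht : x ≤ r) (hav : Av T (x, t)) :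
    ∃ T' : Finset (ℤ × ℤ), T.card + 1 = T'.card ∧ Spans T' l r b (t + 2) ∧
      ∀ x', x' ≠ x → Av T' (x', t + 2) := by
  have hz : (x, t + 2) ∉ T := fun h => by have := hT.mem h; simp only at this; omega
  refine ⟨insert (x, t + 2) T, (Finset.card_insert_of_notMem hz).symm, ?_, ?_⟩
  · apply spans_of
    · have h1 : Fills (insert (x, t + 2) T) l r b t := hT.fills.mono (Finset.subset_insert _ _)
      have h2 := fill_point h1 (by omega) hbt (Inf.base (Finset.mem_insert_self (x, t + 2) T))
        (by unfold NearB; omega)
      convert h2 using 1 <;> omega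
    · intro p hp
      rw [mem_box]
      rcases Finset.mem_insert.1 hp with rfl | hp
      · simp only; omega
      · have := hT.mem hp; omega
  · intro x' hx' w hw hinf
    rcases Finset.mem_insert.1 hw with rfl | hwT
    · rw [Finset.erase_insert hz] at hinf
      have := (hT _).1 hinf
      rw [mem_box] at this; simp only at this; omega
    · have hC : Closed ({p | Inf (T.erase w) p} ∪ box x x (t + 2) (t + 2)) := by
        apply (closed_Inf _).union (closed_box _ _ _ _)
        intro p hp q hq
        have h1 := hT.erase_box hp
        rw [mem_box] at hq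
        have h2 : p ≠ (x, t) := fun h => hav w hwT (h ▸ hp)
        obtain ⟨p1, p2⟩ := p
        rw [ne_mk] at h2
        simp only at h1
        unfold Far
        simp only
        omega
      have := hinf.sub hC (by
        intro p hp
        rw [Finset.mem_erase, Finset.mem_insert] at hp
        rcases hp.2 with rfl | hp2
        · right; rw [mem_box]; simp only; omega
        · left; exact Inf.base (Finset.mem_erase.2 ⟨hp.1, hp2⟩))
      rcases this with h | h
      · have := hT.erase_box h; simp only at this; omega
      · rw [mem_box] at h; simp only at h; omega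

/-- Growth upwards by three rows with two more sites. -/
theorem grow_up3 {T : Finset (ℤ × ℤ)} {l r b t x : ℤ} (hT : Spans T l r b t) (hbt : b ≤ t)
    (hb : l ≤ x) (ht : x ≤ r) (hav : Av T (x, t)) :
    ∃ T' : Finset (ℤ × ℤ), T.card + 2 = T'.card ∧ Spans T' l r b (t + 3) ∧
      ∀ x', x' ≠ x → Av T' (x', t + 3) := by
  have hz : (x, t + 2) ∉ T := fun h => by have := hT.mem h; simp only at this; omega
  have hz' : (x, t + 3) ∉ insert (x, t + 2) T := fun h => by
    rcases Finset.mem_insert.1 h with h | h
    · rw [Prod.mk.injEq] at h; omega
    · have := hT.mem h; simp only at this; omega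
  refine ⟨insert (x, t + 3) (insert (x, t + 2) T), ?_, ?_, ?_⟩
  · rw [Finset.card_insert_of_notMem hz', Finset.card_insert_of_notMem hz]
  · apply spans_of
    · have h1 : Fills (insert (x, t + 3) (insert (x, t + 2) T)) l r b t :=
        hT.fills.mono ((Finset.subset_insert _ _).trans (Finset.subset_insert _ _))
      have h2 := fill_point h1 (by omega) hbt
        (Inf.base (Finset.mem_insert_of_mem (Finset.mem_insert_self (x, t + 2) T)))
        (by unfold NearB; omega)
      have h3 := fill_point h2 (by omega) (by omega)
        (Inf.base (Finset.mem_insert_self (x, t + 3) (insert (x, t + 2) T)))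
        (by unfold NearB; omega)
      convert h3 using 1 <;> omega
    · intro p hp
      rw [mem_box]
      rcases Finset.mem_insert.1 hp with rfl | hp
      · simp only; omega
      · rcases Finset.mem_insert.1 hp with rfl | hp
        · simp only; omega
        · have := hT.mem hp; omega
  · intro x' hx' w hw hinf
    rcases Finset.mem_insert.1 hw with rfl | hw
    · rw [Finset.erase_insert hz'] at hinf
      have := hinf.sub (closed_box l r b (t + 2)) (by
        intro p hp
        rw [mem_box]
        rcases Finset.mem_insert.1 hp with rfl | hp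
        · simp only; omega
        · have := hT.mem hp; omega)
      rw [mem_box] at this; simp only at this; omega
    rcases Finset.mem_insert.1 hw with rfl | hwT
    · have hC : Closed (box l r b t ∪ box x x (t + 3) (t + 3)) := by
        apply (closed_box _ _ _ _).union (closed_box _ _ _ _)
        intro p hp q hq
        rw [mem_box] at hp hq
        unfold Far
        omega
      have := hinf.sub hC (by
        intro p hp
        rw [Finset.mem_erase, Finset.mem_insert, Finset.mem_insert] at hp
        rcases hp.2 with rfl | rfl | hp2
        · right; rw [mem_box]; simp only; omega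
        · exact absurd rfl hp.1
        · left; exact hT.mem hp2)
      rcases this with h | h
      · rw [mem_box] at h; simp only at h; omega
      · rw [mem_box] at h; simp only at h; omega
    · have hC : Closed ({p | Inf (T.erase w) p} ∪ box x x (t + 2) (t + 3)) := by
        apply (closed_Inf _).union (closed_box _ _ _ _)
        intro p hp q hq
        have h1 := hT.erase_box hp
        rw [mem_box] at hq
        have h2 : p ≠ (x, t) := fun h => hav w hwT (h ▸ hp)
        obtain ⟨p1, p2⟩ := p
        rw [ne_mk] at h2
        simp only at h1
        unfold Far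
        simp only
        omega
      have := hinf.sub hC (by
        intro p hp
        rw [Finset.mem_erase, Finset.mem_insert, Finset.mem_insert] at hp
        rcases hp.2 with rfl | rfl | hp2
        · right; rw [mem_box]; simp only; omega
        · right; rw [mem_box]; simp only; omega
        · left; exact Inf.base (Finset.mem_erase.2 ⟨hp.1, hp2⟩))
      rcases this with h | h
      · have := hT.erase_box h; simp only at this; omega
      · rw [mem_box] at h; simp only at h; omega

/-- Growth downwards by three rows with two more sites. -/
theorem grow_down3 {T : Finset (ℤ × ℤ)} {l r b t x : ℤ} (hT : Spans T l r b t) (hbt : b ≤ t)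
    (hb : l ≤ x) (ht : x ≤ r) (hav : Av T (x, b)) :
    ∃ T' : Finset (ℤ × ℤ), T.card + 2 = T'.card ∧ Spans T' l r (b - 3) t ∧
      ∀ x', x' ≠ x → Av T' (x', b - 3) := by
  have hz : (x, b - 2) ∉ T := fun h => by have := hT.mem h; simp only at this; omega
  have hz' : (x, b - 3) ∉ insert (x, b - 2) T := fun h => by
    rcases Finset.mem_insert.1 h with h | h
    · rw [Prod.mk.injEq] at h; omega
    · have := hT.mem h; simp only at this; omega
  refine ⟨insert (x, b - 3) (insert (x, b - 2) T), ?_, ?_, ?_⟩
  · rw [Finset.card_insert_of_notMem hz', Finset.card_insert_of_notMem hz]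
  · apply spans_of
    · have h1 : Fills (insert (x, b - 3) (insert (x, b - 2) T)) l r b t :=
        hT.fills.mono ((Finset.subset_insert _ _).trans (Finset.subset_insert _ _))
      have h2 := fill_point h1 (by omega) hbt
        (Inf.base (Finset.mem_insert_of_mem (Finset.mem_insert_self (x, b - 2) T)))
        (by unfold NearB; omega)
      have h3 := fill_point h2 (by omega) (by omega)
        (Inf.base (Finset.mem_insert_self (x, b - 3) (insert (x, b - 2) T)))
        (by unfold NearB; omega)
      convert h3 using 1 <;> omega
    · intro p hp
      rw [mem_box]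
      rcases Finset.mem_insert.1 hp with rfl | hp
      · simp only; omega
      · rcases Finset.mem_insert.1 hp with rfl | hp
        · simp only; omega
        · have := hT.mem hp; omega
  · intro x' hx' w hw hinf
    rcases Finset.mem_insert.1 hw with rfl | hw
    · rw [Finset.erase_insert hz'] at hinf
      have := hinf.sub (closed_box l r (b - 2) t) (by
        intro p hp
        rw [mem_box]
        rcases Finset.mem_insert.1 hp with rfl | hp
        · simp only; omega
        · have := hT.mem hp; omega)
      rw [mem_box] at this; simp only at this; omega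
    rcases Finset.mem_insert.1 hw with rfl | hwT
    · have hC : Closed (box l r b t ∪ box x x (b - 3) (b - 3)) := by
        apply (closed_box _ _ _ _).union (closed_box _ _ _ _)
        intro p hp q hq
        rw [mem_box] at hp hq
        unfold Far
        omega
      have := hinf.sub hC (by
        intro p hp
        rw [Finset.mem_erase, Finset.mem_insert, Finset.mem_insert] at hp
        rcases hp.2 with rfl | rfl | hp2
        · right; rw [mem_box]; simp only; omega
        · exact absurd rfl hp.1
        · left; exact hT.mem hp2)
      rcases this with h | h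
      · rw [mem_box] at h; simp only at h; omega
      · rw [mem_box] at h; simp only at h; omega
    · have hC : Closed ({p | Inf (T.erase w) p} ∪ box x x (b - 3) (b - 2)) := by
        apply (closed_Inf _).union (closed_box _ _ _ _)
        intro p hp q hq
        have h1 := hT.erase_box hp
        rw [mem_box] at hq
        have h2 : p ≠ (x, b) := fun h => hav w hwT (h ▸ hp)
        obtain ⟨p1, p2⟩ := p
        rw [ne_mk] at h2
        simp only at h1
        unfold Far
        simp only
        omega
      have := hinf.sub hC (by
        intro p hp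
        rw [Finset.mem_erase, Finset.mem_insert, Finset.mem_insert] at hp
        rcases hp.2 with rfl | rfl | hp2
        · right; rw [mem_box]; simp only; omega
        · right; rw [mem_box]; simp only; omega
        · left; exact Inf.base (Finset.mem_erase.2 ⟨hp.1, hp2⟩))
      rcases this with h | h
      · have := hT.erase_box h; simp only at this; omega
      · rw [mem_box] at h; simp only at h; omega

/-- The merging step. -/
theorem merge_PQ {P Q : Finset (ℤ × ℤ)} {l1 r1 b1 t1 r2 b2 t2 : ℤ} (hP : Spans P l1 r1 b1 t1)
    (hQ : Spans Q (r1 + 4) r2 b2 t2) (h1 : l1 ≤ r1) (h2 : r1 + 4 ≤ r2) (h3 : b1 ≤ b2)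
    (h4 : b2 ≤ t1) (h5 : t1 ≤ t2) (hPav : Av P (r1, b1)) (hQav : Av Q (r1 + 4, t2)) :
    ∃ T : Finset (ℤ × ℤ), P.card + Q.card + 2 = T.card ∧
      Spans T l1 r2 (b1 - 1) (t2 + 1) ∧ Av T (l1, t2 + 1) ∧ Av T (r2, b1 - 1) := by
  have hPm : ∀ p ∈ P, l1 ≤ p.1 ∧ p.1 ≤ r1 ∧ b1 ≤ p.2 ∧ p.2 ≤ t1 := fun p hp => hP.mem hp
  have hQm : ∀ p ∈ Q, r1 + 4 ≤ p.1 ∧ p.1 ≤ r2 ∧ b2 ≤ p.2 ∧ p.2 ≤ t2 := fun p hp => hQ.mem hp
  have hdisj : Disjoint P Q := by
    rw [Finset.disjoint_left]
    intro p hp hq
    have := hPm p hp; have := hQm p hq; omega
  have hs : (r1 + 1, b1 - 1) ∉ P ∪ Q := by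
    intro h
    rcases Finset.mem_union.1 h with h | h
    · have := hPm _ h; simp only at this; omega
    · have := hQm _ h; simp only at this; omega
  have hs' : (r1 + 3, t2 + 1) ∉ insert (r1 + 1, b1 - 1) (P ∪ Q) := by
    intro h
    rcases Finset.mem_insert.1 h with h | h
    · rw [Prod.mk.injEq] at h; omega
    rcases Finset.mem_union.1 h with h | h
    · have := hPm _ h; simp only at this; omega
    · have := hQm _ h; simp only at this; omega
  set T := insert (r1 + 3, t2 + 1) (insert (r1 + 1, b1 - 1) (P ∪ Q)) with hTdef
  have hPT : P ⊆ T := by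
    intro p hp; rw [hTdef]
    exact Finset.mem_insert_of_mem (Finset.mem_insert_of_mem (Finset.mem_union_left _ hp))
  have hQT : Q ⊆ T := by
    intro p hp; rw [hTdef]
    exact Finset.mem_insert_of_mem (Finset.mem_insert_of_mem (Finset.mem_union_right _ hp))
  have hcl : ∀ x ∈ T, ∃ C : Set (ℤ × ℤ), Closed C ∧ (∀ p ∈ T.erase x, p ∈ C) ∧
      (l1, t2 + 1) ∉ C ∧ (r2, b1 - 1) ∉ C := by
    intro x hx
    rw [hTdef] at hx
    rcases Finset.mem_insert.1 hx with rfl | hx
    · -- remove s'
      refine ⟨box l1 (r1 + 1) (b1 - 1) t1 ∪ box (r1 + 4) r2 b2 t2, ?_, ?_, ?_, ?_⟩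
      · apply (closed_box _ _ _ _).union (closed_box _ _ _ _)
        intro p hp q hq
        rw [mem_box] at hp hq
        unfold Far
        omega
      · intro p hp
        rw [hTdef, Finset.erase_insert hs'] at hp
        rcases Finset.mem_insert.1 hp with rfl | hp
        · left; rw [mem_box]; simp only; omega
        rcases Finset.mem_union.1 hp with hp | hp
        · left; rw [mem_box]; have := hPm _ hp; omega
        · right; exact hQm _ hp
      · rintro (h | h) <;> (rw [mem_box] at h; simp only at h; omega)
      · rintro (h | h) <;> (rw [mem_box] at h; simp only at h; omega)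
    rcases Finset.mem_insert.1 hx with rfl | hx
    · refine ⟨box l1 r1 b1 t1 ∪ box (r1 + 3) r2 b2 (t2 + 1), ?_, ?_, ?_, ?_⟩
      · apply (closed_box _ _ _ _).union (closed_box _ _ _ _)
        intro p hp q hq
        rw [mem_box] at hp hq
        unfold Far
        omega
      · intro p hp
        rw [Finset.mem_erase, hTdef, Finset.mem_insert, Finset.mem_insert, Finset.mem_union] at hp
        rcases hp.2 with rfl | rfl | hp | hp
        · right; rw [mem_box]; simp only; omega
        · exact absurd rfl hp.1
        · left; exact hPm _ hp
        · right; rw [mem_box]; have := hQm _ hp; omega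
      · rintro (h | h) <;> (rw [mem_box] at h; simp only at h; omega)
      · rintro (h | h) <;> (rw [mem_box] at h; simp only at h; omega)
    rcases Finset.mem_union.1 hx with hx | hx
    · refine ⟨({p | Inf (P.erase x) p} ∪ box (r1 + 1) (r1 + 1) (b1 - 1) (b1 - 1)) ∪
        box (r1 + 3) r2 b2 (t2 + 1), ?_, ?_, ?_, ?_⟩
      · apply Closed.union _ (closed_box _ _ _ _)
        · rintro p (hp | hp) q hq
          · have := hP.erase_box hp
            rw [mem_box] at hq
            unfold Far
            omega
          · rw [mem_box] at hp hq
            unfold Far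
            omega
        · apply (closed_Inf _).union (closed_box _ _ _ _)
          intro p hp q hq
          have e1 := hP.erase_box hp
          rw [mem_box] at hq
          have e2 : p ≠ (r1, b1) := fun h => hPav x hx (h ▸ hp)
          obtain ⟨p1, p2⟩ := p
          rw [ne_mk] at e2
          simp only at e1
          unfold Far
          simp only
          omega
      · intro p hp
        rw [Finset.mem_erase, hTdef, Finset.mem_insert, Finset.mem_insert, Finset.mem_union] at hp
        rcases hp.2 with rfl | rfl | hp2 | hp2
        · right; rw [mem_box]; simp only; omega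
        · left; right; rw [mem_box]; simp only; omega
        · left; left; exact Inf.base (Finset.mem_erase.2 ⟨hp.1, hp2⟩)
        · right; rw [mem_box]; have := hQm _ hp2; omega
      · rintro ((h | h) | h)
        · have := hP.erase_box h; simp only at this; omega
        · rw [mem_box] at h; simp only at h; omega
        · rw [mem_box] at h; simp only at h; omega
      · rintro ((h | h) | h)
        · have := hP.erase_box h; simp only at this; omega
        · rw [mem_box] at h; simp only at h; omega
        · rw [mem_box] at h; simp only at h; omega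
    · refine ⟨({p | Inf (Q.erase x) p} ∪ box (r1 + 3) (r1 + 3) (t2 + 1) (t2 + 1)) ∪
        box l1 (r1 + 1) (b1 - 1) t1, ?_, ?_, ?_, ?_⟩
      · apply Closed.union _ (closed_box _ _ _ _)
        · rintro p (hp | hp) q hq
          · have := hQ.erase_box hp
            rw [mem_box] at hq
            unfold Far
            omega
          · rw [mem_box] at hp hq
            unfold Far
            omega
        · apply (closed_Inf _).union (closed_box _ _ _ _)
          intro p hp q hq
          have e1 := hQ.erase_box hp
          rw [mem_box] at hq
          have e2 : p ≠ (r1 + 4, t2) := fun h => hQav x hx (h ▸ hp)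
          obtain ⟨p1, p2⟩ := p
          rw [ne_mk] at e2
          simp only at e1
          unfold Far
          simp only
          omega
      · intro p hp
        rw [Finset.mem_erase, hTdef, Finset.mem_insert, Finset.mem_insert, Finset.mem_union] at hp
        rcases hp.2 with rfl | rfl | hp2 | hp2
        · left; right; rw [mem_box]; simp only; omega
        · right; rw [mem_box]; simp only; omega
        · right; rw [mem_box]; have := hPm _ hp2; omega
        · left; left; exact Inf.base (Finset.mem_erase.2 ⟨hp.1, hp2⟩)
      · rintro ((h | h) | h)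
        · have := hQ.erase_box h; simp only at this; omega
        · rw [mem_box] at h; simp only at h; omega
        · rw [mem_box] at h; simp only at h; omega
      · rintro ((h | h) | h)
        · have := hQ.erase_box h; simp only at this; omega
        · rw [mem_box] at h; simp only at h; omega
        · rw [mem_box] at h; simp only at h; omega
  refine ⟨T, ?_, ?_, ?_, ?_⟩
  · rw [hTdef, Finset.card_insert_of_notMem hs', Finset.card_insert_of_notMem hs,
      Finset.card_union_of_disjoint hdisj]
  · apply spans_of
    · have f1 : Fills T l1 r1 b1 t1 := hP.fills.mono hPT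
      have f2 : Fills T (r1 + 4) r2 b2 t2 := hQ.fills.mono hQT
      have g1 := fill_point f1 h1 (by omega) (x := r1 + 1) (y := b1 - 1)
        (Inf.base (by rw [hTdef]; simp)) (by unfold NearB; omega)
      have g2 := fill_point f2 h2 (by omega) (x := r1 + 3) (y := t2 + 1)
        (Inf.base (by rw [hTdef]; simp)) (by unfold NearB; omega)
      have g3 := fill_near g1 g2 (by omega) (by omega) (by omega) (by omega)
        (by unfold NearB; omega)
      convert g3 using 1 <;> omega
    · intro p hp
      rw [hTdef, Finset.mem_insert, Finset.mem_insert, Finset.mem_union] at hp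
      rw [mem_box]
      rcases hp with rfl | rfl | hp | hp
      · simp only; omega
      · simp only; omega
      · have := hPm _ hp; omega
      · have := hQm _ hp; omega
  · intro x hx hinf
    obtain ⟨C, hC, h1, h2, h3⟩ := hcl x hx
    exact h2 (hinf.sub hC h1)
  · intro x hx hinf
    obtain ⟨C, hC, h1, h2, h3⟩ := hcl x hx
    exact h3 (hinf.sub hC h1)

end Pool.Agent.BootPerc
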