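import Pool.Agent.BootPerc.Lower

set_option autoImplicit false

namespace Pool.Agent.BootPerc

/-- The two-site nucleus of a `2 × 2` box. -/
theorem nucleus (l b c c' : ℤ) (h : (c = l ∧ c' = l + 1) ∨ (c = l + 1 ∧ c' = l)) :
    ∃ T : Finset (ℤ × ℤ), T.card = 2 ∧ Spans T l (l + 1) b (b + 1) ∧ Av T (c, b) ∧
      Av T (c', b + 1) := by
  have hne : (c', b) ≠ (c, b + 1) := by rw [ne_mk]; omega
  refine ⟨{(c', b), (c, b + 1)}, Finset.card_pair hne, ?_, ?_, ?_⟩
  · apply spans_of
    · have f0 : Fills {(c', b), (c, b + 1)} c' c' b b := by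
        rintro ⟨p1, p2⟩ hp
        rw [mem_box] at hp
        simp only at hp
        have e1 : p1 = c' := by omega
        have e2 : p2 = b := by omega
        subst e1 e2
        exact Inf.base (by simp)
      have f1 := fill_point f0 le_rfl le_rfl (x := c) (y := b + 1) (Inf.base (by simp))
        (by unfold NearB; omega)
      convert f1 using 1 <;> omega
    · intro p hp
      rw [Finset.mem_insert, Finset.mem_singleton] at hp
      rw [mem_box]
      rcases hp with rfl | rfl <;> (simp only; omega)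
  · intro x hx hinf
    rw [Finset.mem_insert, Finset.mem_singleton] at hx
    rcases hx with rfl | rfl
    · have := hinf.sub (closed_box c c (b + 1) (b + 1)) (by
        intro p hp
        rw [Finset.mem_erase, Finset.mem_insert, Finset.mem_singleton] at hp
        rcases hp.2 with rfl | rfl
        · exact absurd rfl hp.1
        · rw [mem_box]; simp only; omega)
      rw [mem_box] at this; simp only at this; omega
    · have := hinf.sub (closed_box c' c' b b) (by
        intro p hp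
        rw [Finset.mem_erase, Finset.mem_insert, Finset.mem_singleton] at hp
        rcases hp.2 with rfl | rfl
        · rw [mem_box]; simp only; omega
        · exact absurd rfl hp.1)
      rw [mem_box] at this; simp only at this; omega
  · intro x hx hinf
    rw [Finset.mem_insert, Finset.mem_singleton] at hx
    rcases hx with rfl | rfl
    · have := hinf.sub (closed_box c c (b + 1) (b + 1)) (by
        intro p hp
        rw [Finset.mem_erase, Finset.mem_insert, Finset.mem_singleton] at hp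
        rcases hp.2 with rfl | rfl
        · exact absurd rfl hp.1
        · rw [mem_box]; simp only; omega)
      rw [mem_box] at this; simp only at this; omega
    · have := hinf.sub (closed_box c' c' b b) (by
        intro p hp
        rw [Finset.mem_erase, Finset.mem_insert, Finset.mem_singleton] at hp
        rcases hp.2 with rfl | rfl
        · rw [mem_box]; simp only; omega
        · exact absurd rfl hp.1)
      rw [mem_box] at this; simp only at this; omega

theorem stripP (K : ℕ) : ∀ (l b c : ℤ), (c = l ∨ c = l + 1) →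
    ∃ T : Finset (ℤ × ℤ), T.card = 2 * K + 2 ∧ Spans T l (l + 1) b (b + 3 * K + 1) ∧
      Av T (c, b) := by
  induction K with
  | zero =>
    intro l b c hc
    obtain ⟨T, h1, h2, h3, h4⟩ := nucleus l b c (2 * l + 1 - c) (by omega)
    exact ⟨T, by omega, by simpa using h2, h3⟩
  | succ K ih =>
    intro l b c hc
    obtain ⟨T, h1, h2, h3⟩ := ih l (b + 3) (2 * l + 1 - c) (by omega)
    obtain ⟨T', g1, g2, g3⟩ := grow_down3 h2 (by omega) (x := 2 * l + 1 - c) (by omega) (by omega) h3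
    refine ⟨T', by omega, ?_, ?_⟩
    · convert g2 using 1 <;> push_cast <;> ring
    · have := g3 c (by omega)
      convert this using 2; ring

theorem stripQ (K : ℕ) : ∀ (l b c : ℤ), (c = l ∨ c = l + 1) →
    ∃ T : Finset (ℤ × ℤ), T.card = 2 * K + 2 ∧ Spans T l (l + 1) b (b + 3 * K + 1) ∧
      Av T (c, b + 3 * K + 1) := by
  induction K with
  | zero =>
    intro l b c hc
    obtain ⟨T, h1, h2, h3, h4⟩ := nucleus l b (2 * l + 1 - c) c (by omega)
    exact ⟨T, by omega, by simpa using h2, by simpa using h4⟩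
  | succ K ih =>
    intro l b c hc
    obtain ⟨T, h1, h2, h3⟩ := ih l b (2 * l + 1 - c) (by omega)
    obtain ⟨T', g1, g2, g3⟩ := grow_up3 h2 (by omega) (x := 2 * l + 1 - c) (by omega) (by omega) h3
    refine ⟨T', by omega, ?_, ?_⟩
    · convert g2 using 1; push_cast; ring
    · have := g3 c (by omega)
      convert this using 2; push_cast; ring

/-- There are spanning sets with at least `N` sites whose lower right corner is avoided. -/
def GP (W H : ℤ) (N : ℕ) : Prop := ∀ l b : ℤ, ∃ T : Finset (ℤ × ℤ), N ≤ T.card ∧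
  Spans T l (l + W - 1) b (b + H - 1) ∧ Av T (l + W - 1, b)

/-- There are spanning sets with at least `N` sites whose upper left corner is avoided. -/
def GQ (W H : ℤ) (N : ℕ) : Prop := ∀ l b : ℤ, ∃ T : Finset (ℤ × ℤ), N ≤ T.card ∧
  Spans T l (l + W - 1) b (b + H - 1) ∧ Av T (l, b + H - 1)

theorem G_merge {W1 W2 H1 H2 : ℤ} {N1 N2 : ℕ} (hW1 : 1 ≤ W1) (hW2 : 1 ≤ W2) (hH1 : 1 ≤ H1)
    (hH2 : 1 ≤ H2) (hP : GP W1 H1 N1) (hQ : GQ W2 H2 N2) :
    GP (W1 + W2 + 3) (max H1 H2 + 2) (N1 + N2) ∧ GQ (W1 + W2 + 3) (max H1 H2 + 2) (N1 + N2) := by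
  have key : ∀ l b : ℤ, ∃ T : Finset (ℤ × ℤ), N1 + N2 ≤ T.card ∧
      Spans T l (l + (W1 + W2 + 3) - 1) b (b + (max H1 H2 + 2) - 1) ∧
      Av T (l, b + (max H1 H2 + 2) - 1) ∧ Av T (l + (W1 + W2 + 3) - 1, b) := by
    intro l b
    obtain ⟨P, p1, p2, p3⟩ := hP l (b + 1)
    obtain ⟨Q, q1, q2, q3⟩ := hQ (l + W1 + 3) (b + max H1 H2 - H2 + 1)
    have e1 : Spans Q (l + W1 - 1 + 4) (l + (W1 + W2 + 3) - 1) (b + max H1 H2 - H2 + 1)
        (b + max H1 H2) := by
      convert q2 using 1 <;> ring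
    have e2 : Av Q (l + W1 - 1 + 4, b + max H1 H2) := by
      convert q3 using 2 <;> ring
    have e3 : Spans P l (l + W1 - 1) (b + 1) (b + H1) := by
      convert p2 using 1; ring
    obtain ⟨T, t1, t2, t3, t4⟩ := merge_PQ e3 e1 (by omega) (by omega) (by omega) (by omega)
      (by omega) p3 e2
    refine ⟨T, by omega, ?_, ?_, ?_⟩
    · convert t2 using 1 <;> ring
    · convert t3 using 2; ring
    · convert t4 using 2; ring
  constructor
  · intro l b
    obtain ⟨T, h1, h2, h3, h4⟩ := key l b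
    exact ⟨T, h1, h2, h4⟩
  · intro l b
    obtain ⟨T, h1, h2, h3, h4⟩ := key l b
    exact ⟨T, h1, h2, h3⟩

theorem tree (K : ℕ) : ∀ (k s : ℕ), 1 ≤ s → s ≤ 2 ^ k →
    ∃ H : ℤ, 3 * K + 2 ≤ H ∧ H ≤ 3 * K + 2 + 2 * k ∧ GP (5 * s - 3) H (s * (2 * K + 2)) ∧
      GQ (5 * s - 3) H (s * (2 * K + 2)) := by
  have base : GP 2 (3 * K + 2) (2 * K + 2) ∧ GQ 2 (3 * K + 2) (2 * K + 2) := by
    constructor
    · intro l b
      obtain ⟨T, h1, h2, h3⟩ := stripP K l b (l + 1) (Or.inr rfl)
      refine ⟨T, by omega, ?_, ?_⟩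
      · convert h2 using 1 <;> ring
      · convert h3 using 2; ring
    · intro l b
      obtain ⟨T, h1, h2, h3⟩ := stripQ K l b l (Or.inl rfl)
      refine ⟨T, by omega, ?_, ?_⟩
      · convert h2 using 1 <;> ring
      · convert h3 using 2; ring
  intro k
  induction k with
  | zero =>
    intro s h1 h2
    have hs : s = 1 := by simpa using le_antisymm h2 h1
    subst hs
    exact ⟨3 * K + 2, by omega, by simp, by simpa using base.1, by simpa using base.2⟩
  | succ k ih =>
    intro s h1 h2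
    rcases eq_or_lt_of_le h1 with hs | hs
    · subst hs
      exact ⟨3 * K + 2, by omega, by push_cast; omega, by simpa using base.1,
        by simpa using base.2⟩
    · have hpow : 2 ^ (k + 1) = 2 * 2 ^ k := by ring
      obtain ⟨H1, a1, a2, a3, a4⟩ := ih (s / 2) (by omega) (by omega)
      obtain ⟨H2, b1, b2, b3, b4⟩ := ih (s - s / 2) (by omega) (by omega)
      have hsum : s / 2 + (s - s / 2) = s := by omega
      have := G_merge (by omega) (by omega) (by omega) (by omega) a3 b4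
      have e1 : 5 * ((s / 2 : ℕ) : ℤ) - 3 + (5 * ((s - s / 2 : ℕ) : ℤ) - 3) + 3 = 5 * (s : ℤ) - 3 := by
        have : ((s / 2 : ℕ) : ℤ) + ((s - s / 2 : ℕ) : ℤ) = (s : ℤ) := by exact_mod_cast hsum
        linarith
      have e2 : s / 2 * (2 * K + 2) + (s - s / 2) * (2 * K + 2) = s * (2 * K + 2) := by
        rw [← add_mul, hsum]
      rw [e1, e2] at this
      exact ⟨max H1 H2 + 2, by omega, by push_cast; omega, this.1, this.2⟩

theorem right_many (i : ℕ) : 2 ≤ i → ∀ (T : Finset (ℤ × ℤ)) (l r b t : ℤ), Spans T l r b t →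
    l ≤ r → b + 2 ≤ t → (∃ y, b ≤ y ∧ y < t ∧ Av T (r, y)) →
    ∃ T' : Finset (ℤ × ℤ), T.card ≤ T'.card ∧ Spans T' l (r + i) b t ∧ Av T' (r + i, t) := by
  induction i using Nat.strong_induction_on with
  | _ i ih =>
    intro hi T l r b t hT hlr hbt ⟨y, hy1, hy2, hy3⟩
    rcases Nat.lt_or_ge i 4 with h4 | h4
    · obtain rfl | rfl : i = 2 ∨ i = 3 := by omega
      · obtain ⟨T', h1, h2, h3⟩ := grow_right2 hT hlr hy1 hy2.le hy3
        exact ⟨T', by omega, h2, h3 t (by omega)⟩
      · obtain ⟨T', h1, h2, h3⟩ := grow_right3 hT hlr hy1 hy2.le hy3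
        exact ⟨T', by omega, h2, h3 t (by omega)⟩
    · obtain ⟨T', h1, h2, h3⟩ := grow_right2 hT hlr hy1 hy2.le hy3
      obtain ⟨T'', g1, g2, g3⟩ := ih (i - 2) (by omega) (by omega) T' l (r + 2) b t h2 (by omega) hbt
        (by
          rcases eq_or_ne y b with h | h
          · exact ⟨b + 1, by omega, by omega, h3 _ (by omega)⟩
          · exact ⟨b, by omega, by omega, h3 _ (by omega)⟩)
      have e : r + 2 + ((i - 2 : ℕ) : ℤ) = r + i := by omega
      rw [e] at g2 g3
      exact ⟨T'', by omega, g2, g3⟩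

theorem up_many (j : ℕ) : 2 ≤ j → ∀ (T : Finset (ℤ × ℤ)) (l r b t : ℤ), Spans T l r b t →
    l < r → b ≤ t → (∃ x, l ≤ x ∧ x ≤ r ∧ Av T (x, t)) →
    ∃ T' : Finset (ℤ × ℤ), T.card ≤ T'.card ∧ Spans T' l r b (t + j) ∧
      ∃ x, l ≤ x ∧ x ≤ r ∧ Av T' (x, t + j) := by
  induction j using Nat.strong_induction_on with
  | _ j ih =>
    intro hj T l r b t hT hlr hbt ⟨x, hx1, hx2, hx3⟩
    have other : ∃ x', l ≤ x' ∧ x' ≤ r ∧ x' ≠ x := by
      rcases eq_or_ne x l with h | h
      · exact ⟨r, by omega, by omega, by omega⟩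
      · exact ⟨l, by omega, by omega, by omega⟩
    obtain ⟨x', o1, o2, o3⟩ := other
    rcases Nat.lt_or_ge j 4 with h4 | h4
    · obtain rfl | rfl : j = 2 ∨ j = 3 := by omega
      · obtain ⟨T', h1, h2, h3⟩ := grow_up2 hT hbt hx1 hx2 hx3
        exact ⟨T', by omega, h2, x', o1, o2, h3 x' o3⟩
      · obtain ⟨T', h1, h2, h3⟩ := grow_up3 hT hbt hx1 hx2 hx3
        exact ⟨T', by omega, h2, x', o1, o2, h3 x' o3⟩
    · obtain ⟨T', h1, h2, h3⟩ := grow_up2 hT hbt hx1 hx2 hx3
      obtain ⟨T'', g1, g2, g3⟩ := ih (j - 2) (by omega) (by omega) T' l r b (t + 2) h2 hlr (by omega)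
        ⟨x', o1, o2, h3 x' o3⟩
      have e : t + 2 + ((j - 2 : ℕ) : ℤ) = t + j := by omega
      rw [e] at g2 g3
      exact ⟨T'', by omega, g2, g3⟩

/-- Large minimal spanning sets of the `n × n` box. -/
theorem exists_large {n s K k : ℕ} (hs : 1 ≤ s) (hsk : s ≤ 2 ^ k) (hw : 5 * s ≤ n + 1)
    (hh : 3 * K + 2 * k + 4 ≤ n) (hK : 1 ≤ K) :
    ∃ T : Finset (ℤ × ℤ), s * (2 * K + 2) ≤ T.card ∧ Spans T 1 n 1 n ∧
      ∃ p ∈ box 1 n 1 n, Av T p := by
  obtain ⟨H, h1, h2, h3, h4⟩ := tree K k s hs hsk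
  obtain ⟨T, t1, t2, t3⟩ := h3 1 1
  obtain ⟨T', a1, a2, a3⟩ := right_many (n + 3 - 5 * s) (by omega) T 1 (1 + (5 * s - 3) - 1) 1
    (1 + H - 1) t2 (by omega) (by omega) ⟨1, by omega, by omega, t3⟩
  have e1 : (1 : ℤ) + (5 * s - 3) - 1 + ((n + 3 - 5 * s : ℕ) : ℤ) = n := by omega
  rw [e1] at a2 a3
  obtain ⟨T'', b1, b2, x, b3, b4, b5⟩ := up_many (n - H.toNat) (by omega) T' 1 n 1 (1 + H - 1) a2
    (by omega) (by omega) ⟨n, by omega, by omega, a3⟩
  have e2 : (1 : ℤ) + H - 1 + ((n - H.toNat : ℕ) : ℤ) = n := by omega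
  rw [e2] at b2 b5
  exact ⟨T'', by omega, b2, (x, (n : ℤ)), by rw [mem_box]; simp only; omega, b5⟩

end Pool.Agent.BootPerc
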