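import Pool.Agent.BootPerc.Arith

set_option autoImplicit false
set_option linter.unusedSectionVars false
set_option linter.unusedVariables false
set_option linter.unusedSimpArgs false

namespace Pool.Agent.BootPerc

namespace Sys

variable {α : Type*} [DecidableEq α] {s : Sys α}

/-- the strengthened bound attached to a quadrant -/
noncomputable def star (s : Sys α) (T : Finset α) (l b : ℤ) : ℤ :=
  (4 + (s.r T - l)) * (4 + (s.t T - b)) - 2 * ((l - s.l T) + (b - s.b T))

/-- first claim of the induction -/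
def PC (s : Sys α) (T : Finset α) : Prop :=
  2 ≤ s.w T → 2 ≤ s.h T → base (s.w T) (s.h T) ≤ s.dl T

/-- second claim of the induction -/
def QC (s : Sys α) (T : Finset α) : Prop :=
  ∀ l b, Good s T l b → s.nearQ T l b → s.l T < l → s.b T < b → s.star T l b ≤ s.dl T

/-- induction hypothesis -/
def IHyp (α : Type*) [DecidableEq α] (n : ℕ) : Prop :=
  ∀ (s : Sys α) (T : Finset α), T.card < n → s.Sp T → PC s T ∧ QC s T

theorem PC.nonneg {T : Finset α} (h : PC s T) (h1 : s.l T < s.r T) (h2 : s.b T < s.t T) :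
    0 ≤ s.dl T := by
  have e1 : 2 ≤ s.w T := by unfold w; omega
  have e2 : 2 ≤ s.h T := by unfold Sys.h; omega
  have := h e1 e2
  have := (base_facts e1 e2).1
  omega

theorem neg_w (T : Finset α) : s.neg.w T = s.w T := by
  unfold w; rw [neg_l, neg_r]; ring

theorem neg_h (T : Finset α) : s.neg.h T = s.h T := by
  unfold Sys.h; rw [neg_b, neg_t]; ring

theorem neg_dl (T : Finset α) : s.neg.dl T = s.dl T := by
  unfold dl; rw [neg_w, neg_h]

theorem negX_w (T : Finset α) : s.negX.w T = s.w T := by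
  unfold w; rw [negX_l, negX_r]; ring

theorem negX_h (T : Finset α) : s.negX.h T = s.h T := rfl

theorem negX_dl (T : Finset α) : s.negX.dl T = s.dl T := by
  unfold dl; rw [negX_w, negX_h]

theorem negY_w (T : Finset α) : s.negY.w T = s.w T := rfl

theorem negY_h (T : Finset α) : s.negY.h T = s.h T := by
  unfold Sys.h; rw [negY_b, negY_t]; ring

theorem negY_dl (T : Finset α) : s.negY.dl T = s.dl T := by
  unfold dl; rw [negY_w, negY_h]

theorem swap_dl (T : Finset α) : s.swap.dl T = s.dl T := by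
  have e1 : s.swap.w T = s.h T := rfl
  have e2 : s.swap.h T = s.w T := rfl
  unfold dl
  rw [e1, e2]; ring

theorem isMax_of_insert {S S' : Finset α} {c : α} (hS' : s.Sp S') (hins : S = insert c S')
    (hc : c ∉ S') : s.IsMax S S' ∧ (S \ S').card = 1 := by
  have hss : S' ⊂ S := by rw [hins]; exact Finset.ssubset_insert hc
  constructor
  · refine ⟨hS', hss, ?_⟩
    intro S'' h1 h2 h3
    apply Finset.Subset.antisymm _ h2
    intro x hx
    have hxS := h3.1 hx
    rw [hins, Finset.mem_insert] at hxS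
    rcases hxS with h | h
    · exfalso
      subst h
      apply h3.ne
      apply Finset.Subset.antisymm h3.1
      rw [hins]
      exact Finset.insert_subset hx h2
    · exact h
  · rw [Finset.card_sdiff_of_subset hss.1, hins, Finset.card_insert_of_notMem hc]
    omega

/-- bigness of near sets satisfying the avoidance property -/
theorem big_of_FA {S : Finset α} {l b : ℤ} (hS : s.Sp S) (hc : 2 ≤ S.card) (hFA : s.FA S l b)
    (hn : s.nearQ S l b) : s.l S < s.r S ∧ s.b S < s.t S := by
  have hnc1 : ∀ c ∈ S, ¬ s.nearQ {c} l b := fun c hc' =>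
    hFA {c} (single_ssub hc' hc) (s.single hS hc')
  have hw := wf hS
  unfold nearQ at hn hnc1
  constructor
  · by_contra hcon
    obtain ⟨c, hc, hc2⟩ := exists_top hS
    have e1 := mem_bd (s := s) hc
    have e2 := single_bd (s := s) c
    apply hnc1 c hc
    clear hnc1
    rw [e2.2.1, e2.2.2.2]
    refine ⟨by omega, by omega, by omega⟩
  · by_contra hcon
    obtain ⟨c, hc, hc2⟩ := exists_right hS
    have e1 := mem_bd (s := s) hc
    have e2 := single_bd (s := s) c
    apply hnc1 c hc
    clear hnc1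
    rw [e2.2.1, e2.2.2.2]
    refine ⟨by omega, by omega, by omega⟩

theorem Good.big {S : Finset α} {l b : ℤ} (hg : Good s S l b) (hn : s.nearQ S l b) :
    s.l S < s.r S ∧ s.b S < s.t S := by
  cases hg with
  | F hS hc hFA => exact big_of_FA hS hc hFA hn
  | one hS hS' hins hc hnn hl hb h1 h2 =>
    have hsub := Finset.subset_insert (α := α) _ _ |>.trans (le_of_eq hins.symm)
    have := sub_bd (s := s) hsub hS'
    omega
  | two hS hS' hQ hd hU hc h1 h2 hg' hnn hnear p1 p2 p3 p4 =>
    have e := union_bd hS' hQ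
    rw [← hU] at e
    have wQ := wf hQ
    omega

/-- consequence of the avoidance property for subsets touching the top -/
theorem FA.top {S C : Finset α} {l b : ℤ} (h : s.FA S l b) (hn : s.nearQ S l b) (hC : C ⊂ S)
    (hCs : s.Sp C) (ht : s.t C = s.t S) :
    min (s.r S - l + 3) (s.r S - l + (s.t S - b) + 3) ≤ s.r S - s.r C := by
  have := h C hC hCs
  unfold nearQ at this hn
  omega

/-- consequence of the avoidance property for subsets touching the right side -/
theorem FA.right {S C : Finset α} {l b : ℤ} (h : s.FA S l b) (hn : s.nearQ S l b) (hC : C ⊂ S)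
    (hCs : s.Sp C) (ht : s.r C = s.r S) :
    min (s.t S - b + 3) (s.r S - l + (s.t S - b) + 3) ≤ s.t S - s.t C := by
  have := h C hC hCs
  unfold nearQ at this hn
  omega

/-- overhang lemma for sets with the avoidance property -/
theorem FA.over {S : Finset α} {l b : ℤ} (hS : s.Sp S) (hc : 2 ≤ S.card) (h : s.FA S l b)
    (hn : s.nearQ S l b) : min 3 (s.t S - b + 3) ≤ l - s.l S ∧ min 3 (s.r S - l + 3) ≤ b - s.b S := by
  obtain ⟨p, hp, hp2⟩ := exists_top hS
  obtain ⟨q, hq, hq2⟩ := exists_right hS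
  have e1 := single_bd (s := s) p
  have e2 := single_bd (s := s) q
  have f1 := h.top hn (single_ssub hp hc) (s.single hS hp) (by rw [e1.2.2.2, hp2])
  have f2 := h.right hn (single_ssub hq hc) (s.single hS hq) (by rw [e2.2.1, hq2])
  have m1 := mem_bd (s := s) hp
  have m2 := mem_bd (s := s) hq
  rw [e1.2.1] at f1
  rw [e2.2.2.2] at f2
  omega

/-- growth type in case one -/
theorem one_ij {S S' : Finset α} {c : α} (hS : s.Sp S) (hS' : s.Sp S') (hins : S = insert c S')
    (hc : c ∉ S') (hl : s.l S' = s.l S) (hb : s.b S' = s.b S) :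
    (S.card : ℤ) = S'.card + 1 ∧
    ((s.r S = s.r S' + 1 ∧ s.t S = s.t S') ∨ (s.r S = s.r S' + 2 ∧ s.t S = s.t S') ∨
     (s.r S = s.r S' ∧ s.t S = s.t S' + 1) ∨ (s.r S = s.r S' ∧ s.t S = s.t S' + 2) ∨
     (s.r S = s.r S' + 1 ∧ s.t S = s.t S' + 1)) := by
  obtain ⟨hm, hcard⟩ := isMax_of_insert hS' hins hc
  obtain ⟨c', h1, h2, h3, h4, h5, h6, h7, h8, h9, h10⟩ := one_shape hS hm hcard
  refine ⟨h4, ?_⟩
  have e := single_bd (s := s) c'
  have m := mem_bd (s := s) h1
  have hn : s.X c' - s.r S' ≤ 2 ∧ s.Y c' - s.t S' ≤ 2 ∧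
      (s.X c' - s.r S') + (s.Y c' - s.t S') ≤ 2 := by
    unfold Near at h5
    omega
  clear h5 h7 h9
  rcases lt_or_ge (s.r S') (s.X c') with g | g
  · rcases lt_or_ge (s.t S') (s.Y c') with g' | g' <;> omega
  · rcases lt_or_ge (s.t S') (s.Y c') with g' | g' <;> omega

/-- facts about good sets used in the inequalities -/
theorem Good.facts {S : Finset α} {l b : ℤ} (hg : Good s S l b) (hn : s.nearQ S l b)
    (hl : s.l S < l) (hb : s.b S < b) (IHP : ∀ T', T' ⊂ S → s.Sp T' → PC s T') :
    (0 ≤ s.r S - l → 0 ≤ s.t S - b → 3 ≤ l - s.l S ∧ 3 ≤ b - s.b S) ∧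
    (l - s.l S = 1 → s.t S - b = -2 ∨
      (s.t S - b = -1 ∧ 4 * (s.r S - l) + 5 ≤ s.dl S ∧ 4 ≤ b - s.b S)) ∧
    (b - s.b S = 1 → s.r S - l = -2 ∨
      (s.r S - l = -1 ∧ 4 * (s.t S - b) + 5 ≤ s.dl S ∧ 4 ≤ l - s.l S)) := by
  cases hg with
  | F hS hc hFA =>
    have := hFA.over hS hc hn
    unfold nearQ at hn
    refine ⟨by omega, by omega, by omega⟩
  | @one _ S' c _ _ hS hS' hins hc hnn e1 e2 h1 h2 =>
    obtain ⟨hcard, hij⟩ := one_ij hS hS' hins hc e1 e2
    have hss : S' ⊂ S := by rw [hins]; exact Finset.ssubset_insert hc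
    have hp := (IHP S' hss hS').nonneg h1 h2
    unfold nearQ at hn hnn
    refine ⟨by omega, ?_, ?_⟩
    · intro h3
      rcases (show s.t S - b = -2 ∨ (s.t S - b = -1 ∧ s.t S = s.t S' + 2 ∧ s.r S = s.r S') by omega)
        with h | ⟨h, h', h''⟩
      · exact Or.inl h
      · right
        refine ⟨h, ?_, by omega⟩
        unfold dl w Sys.h at hp ⊢
        rw [e1, e2] at hp
        rw [h', h'', hcard]
        have : s.r S' - l = s.r S' - s.l S - 1 := by omega
        rw [this]
        linarith
    · intro h3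
      rcases (show s.r S - l = -2 ∨ (s.r S - l = -1 ∧ s.r S = s.r S' + 2 ∧ s.t S = s.t S') by omega)
        with h | ⟨h, h', h''⟩
      · exact Or.inl h
      · right
        refine ⟨h, ?_, by omega⟩
        unfold dl w Sys.h at hp ⊢
        rw [e1, e2] at hp
        rw [h', h'', hcard]
        have : s.t S' - b = s.t S' - s.b S - 1 := by omega
        rw [this]
        linarith
  | @two _ S' Q _ _ hS hS' hQ hd hU hc h1 h2 hg' hnn hnear p1 p2 p3 p4 =>
    have e := union_bd hS' hQ
    rw [← hU] at e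
    have e1 : s.r S = s.r Q ∧ s.t S = s.t Q ∧ s.l S = s.l S' ∧ s.b S = s.b S' := by omega
    have hnQ : s.nearQ Q l b := by
      unfold nearQ at hn ⊢
      rw [← e1.1, ← e1.2.1]; exact hn
    have := h1.over hQ hc hnQ
    rw [← e1.1, ← e1.2.1] at this
    unfold nearQ at hn
    clear e
    refine ⟨by omega, by omega, by omega⟩

/-- Type one of the second claim. -/
theorem Q_one {S S' : Finset α} {c : α} {l b : ℤ} (hS : s.Sp S) (hS' : s.Sp S')
    (hins : S = insert c S') (hc : c ∉ S') (hnn : ¬ s.nearQ S' l b) (e1 : s.l S' = s.l S)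
    (e2 : s.b S' = s.b S) (h1 : s.l S' < s.r S') (h2 : s.b S' < s.t S')
    (hn : s.nearQ S l b) (hl : s.l S < l) (hb : s.b S < b) (IHP : PC s S') :
    s.star S l b ≤ s.dl S := by
  obtain ⟨hcard, hij⟩ := one_ij hS hS' hins hc e1 e2
  have hp := IHP (by unfold w; omega) (by unfold Sys.h; omega)
  unfold star
  unfold nearQ at hn hnn
  unfold dl at hp ⊢
  have k1 : s.w S' = s.w S - (s.r S - s.r S') := by unfold w; omega
  have k2 : s.h S' = s.h S - (s.t S - s.t S') := by unfold Sys.h; omega
  have kw : s.w S = s.r S - s.l S + 1 := rfl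
  have kh : s.h S = s.t S - s.b S + 1 := rfl
  have kw' : s.w S' = s.r S' - s.l S' + 1 := rfl
  have kh' : s.h S' = s.t S' - s.b S' + 1 := rfl
  have := arith_one (m := s.w S) (n := s.h S) (u := s.r S - l) (v := s.t S - b)
    (i := s.r S - s.r S') (j := s.t S - s.t S') (k := (S'.card : ℤ)) (by omega) (by omega)
    (by omega) (by omega) (by omega) (by omega) (by omega) (by omega) (by omega)
    (by rw [← k1, ← k2]; exact hp)
  rw [hcard]
  refine le_trans (le_of_eq ?_) this
  rw [kw, kh]
  ring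

end Sys

end Pool.Agent.BootPerc
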