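import Pool.Agent.BootPerc.Main1

set_option autoImplicit false
set_option linter.unusedSectionVars false
set_option linter.unusedVariables false
set_option linter.unusedSimpArgs false

namespace Pool.Agent.BootPerc

namespace Sys

variable {α : Type*} [DecidableEq α] {s : Sys α}

/-- all data of a cut -/
structure CutData (s : Sys α) (T G H : Finset α) : Prop where
  G_sp : s.Sp G
  H_sp : s.Sp H
  GT : G ⊂ T
  HT : H ⊂ T
  lG : s.l G = s.l T
  bG : s.b G = s.b T
  rH : s.r H = s.r T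
  tH : s.t H = s.t T
  rG : s.r G < s.r T
  tG : s.t G < s.t T
  lH : s.l T < s.l H
  bH : s.b T < s.b H
  n1 : -2 ≤ s.r G - s.l H
  n2 : -2 ≤ s.t G - s.b H
  n3 : -2 ≤ (s.r G - s.l H) + (s.t G - s.b H)
  bigG : s.l G < s.r G ∧ s.b G < s.t G
  bigH : s.l H < s.r H ∧ s.b H < s.t H
  pG : 0 ≤ s.dl G
  pH : 0 ≤ s.dl H
  qG : (4 + (s.r G - s.l H)) * (4 + (s.t G - s.b H)) - 2 * ((s.l H - s.l T) + (s.b H - s.b T)) ≤
    s.dl G
  qH : (4 + (s.r G - s.l H)) * (4 + (s.t G - s.b H)) - 2 * ((s.r T - s.r G) + (s.t T - s.t G)) ≤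
    s.dl H
  dT : s.dl T = s.dl G + s.dl H + 2 * ((s.l H - s.l T) * (s.t T - s.t G) +
    (s.r T - s.r G) * (s.b H - s.b T) - (4 + (s.r G - s.l H)) * (4 + (s.t G - s.b H))) + 5
  fG : (0 ≤ s.r G - s.l H → 0 ≤ s.t G - s.b H → 3 ≤ s.l H - s.l T ∧ 3 ≤ s.b H - s.b T) ∧
    (s.l H - s.l T = 1 → s.t G - s.b H = -2 ∨
      (s.t G - s.b H = -1 ∧ 4 * (s.r G - s.l H) + 5 ≤ s.dl G ∧ 4 ≤ s.b H - s.b T)) ∧
    (s.b H - s.b T = 1 → s.r G - s.l H = -2 ∨
      (s.r G - s.l H = -1 ∧ 4 * (s.t G - s.b H) + 5 ≤ s.dl G ∧ 4 ≤ s.l H - s.l T))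
  fH : (0 ≤ s.r G - s.l H → 0 ≤ s.t G - s.b H → 3 ≤ s.r T - s.r G ∧ 3 ≤ s.t T - s.t G) ∧
    (s.r T - s.r G = 1 → s.t G - s.b H = -2 ∨
      (s.t G - s.b H = -1 ∧ 4 * (s.r G - s.l H) + 5 ≤ s.dl H ∧ 4 ≤ s.t T - s.t G)) ∧
    (s.t T - s.t G = 1 → s.r G - s.l H = -2 ∨
      (s.r G - s.l H = -1 ∧ 4 * (s.t G - s.b H) + 5 ≤ s.dl H ∧ 4 ≤ s.r T - s.r G))

/-- the potential of a disjoint union of two sets in diagonal position -/
theorem dl_union {T G H : Finset α} (hcard : (T.card : ℤ) = G.card + H.card)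
    (lG : s.l G = s.l T) (bG : s.b G = s.b T) (rH : s.r H = s.r T) (tH : s.t H = s.t T) :
    s.dl T = s.dl G + s.dl H + 2 * ((s.l H - s.l T) * (s.t T - s.t G) +
    (s.r T - s.r G) * (s.b H - s.b T) - (4 + (s.r G - s.l H)) * (4 + (s.t G - s.b H))) + 5 := by
  unfold dl w Sys.h
  rw [hcard, lG, bG, rH, tH]
  ring

theorem cut_data {T S1 S2 : Finset α} (h : Cfg s T S1 S2)
    (IH : ∀ (s : Sys α) (T' : Finset α), T'.card < T.card → s.Sp T' → PC s T' ∧ QC s T') :
    ∃ G H : Finset α, CutData s T G H := by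
  obtain ⟨G, H, hdis, hGH, hGs, hHs, hB1G, hGS2, hB2H, hHS1, hgG, hgH⟩ := h.cut
  have hGT : G ⊂ T := lt_of_le_of_lt hGS2 h.h2.ss
  have hHT : H ⊂ T := lt_of_le_of_lt hHS1 h.h1.ss
  have tG := h.touch1 hGs hGT.1 hB1G
  have tH := h.touch2 hHs hHT.1 hB2H
  have pos := h.pos
  have bd1 := sub_bd hGS2 hGs
  have bd2 := sub_bd hHS1 hHs
  have wG := wf hGs
  have wH := wf hHs
  have hnear := near_of_cut h.hT hdis hGH hGs hHs
  have hnG : s.nearQ G (s.l H) (s.b H) := (nearQ_iff hGT.1 hGs tH.1 tH.2).2 hnear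
  have hnH : s.neg.nearQ H (- s.r G) (- s.t G) :=
    (nearQ_neg_iff hHT.1 hHs tG.1 tG.2).2 (s.near_comm hnear)
  have bigG := hgG.big hnG
  have bigH : s.l H < s.r H ∧ s.b H < s.t H := by
    have := hgH.big hnH
    simp only [neg_l, neg_r, neg_b, neg_t] at this
    omega
  have cG := Finset.card_lt_card hGT
  have cH := Finset.card_lt_card hHT
  have iG := IH s G cG hGs
  have iH := IH s H cH hHs
  have iH' := IH s.neg H cH hHs
  have rG : s.r G < s.r T := by omega
  have tG' : s.t G < s.t T := by omega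
  have lH : s.l T < s.l H := by omega
  have bH : s.b T < s.b H := by omega
  have qG := iG.2 _ _ hgG hnG (by omega) (by omega)
  have qH := iH'.2 _ _ hgH hnH (by simp only [neg_l]; omega) (by simp only [neg_b]; omega)
  have fG := hgG.facts hnG (by omega) (by omega)
    (fun T' hT' hs' => (IH s T' ((Finset.card_lt_card hT').trans cG) hs').1)
  have fH := hgH.facts hnH (by simp only [neg_l]; omega) (by simp only [neg_b]; omega)
    (fun T' hT' hs' => (IH s.neg T' ((Finset.card_lt_card hT').trans cH) hs').1)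
  have hcard : (T.card : ℤ) = G.card + H.card := by
    rw [← hGH, Finset.card_union_of_disjoint hdis]; push_cast; ring
  have hdT := dl_union (s := s) hcard tG.1 tG.2 tH.1 tH.2
  unfold nearQ at hnG
  refine ⟨G, H, hGs, hHs, hGT, hHT, tG.1, tG.2, tH.1, tH.2, rG, tG', lH, bH, by omega, by omega,
    by omega, bigG, bigH, iG.1.nonneg bigG.1 bigG.2, iH.1.nonneg bigH.1 bigH.2, ?_, ?_, hdT, ?_, ?_⟩
  · unfold star at qG
    rw [tG.1, tG.2] at qG
    exact qG
  · unfold star at qH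
    rw [neg_dl] at qH
    simp only [neg_l, neg_r, neg_b, neg_t] at qH
    rw [tH.1, tH.2] at qH
    refine le_trans (le_of_eq ?_) qH
    ring
  · rw [tG.1, tG.2] at fG
    exact fG
  · rw [neg_dl] at fH
    simp only [neg_l, neg_r, neg_b, neg_t] at fH
    rw [tH.1, tH.2] at fH
    obtain ⟨f1, f2, f3⟩ := fH
    refine ⟨?_, ?_, ?_⟩
    · intro a1 a2
      have := f1 (by omega) (by omega)
      omega
    · intro a1
      rcases f2 (by omega) with h' | h'
      · left; omega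
      · right; omega
    · intro a1
      rcases f3 (by omega) with h' | h'
      · left; omega
      · right; omega

/-- the pair bound -/
theorem CutData.bound {T G H : Finset α} (h : CutData s T G H) :
    2 * ((s.l H - s.l T - 1) * (s.t T - s.t G - 1)) +
      2 * ((s.r T - s.r G - 1) * (s.b H - s.b T - 1)) + 1 ≤ s.dl T := by
  rw [h.dT]
  exact arith_pair h.qG h.qH

theorem CutData.one_le {T G H : Finset α} (h : CutData s T G H) : 1 ≤ s.dl T := by
  have h1 := h.bound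
  have a1 := h.lH
  have a2 := h.bH
  have a3 := h.rG
  have a4 := h.tG
  have p1 : 0 ≤ (s.l H - s.l T - 1) * (s.t T - s.t G - 1) := mul_nonneg (by omega) (by omega)
  have p2 : 0 ≤ (s.r T - s.r G - 1) * (s.b H - s.b T - 1) := mul_nonneg (by omega) (by omega)
  omega

/-- Both complements have at least two elements: the potential is positive. -/
theorem two_bound {T S1 S2 : Finset α} (hT : s.Sp T) (h1 : s.IsMax T S1) (h2 : s.IsMax T S2)
    (h12 : T \ S1 ⊆ S2) (c1 : 2 ≤ (T \ S1).card) (c2 : 2 ≤ (T \ S2).card)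
    (IH : ∀ (s : Sys α) (T' : Finset α), T'.card < T.card → s.Sp T' → PC s T' ∧ QC s T') :
    1 ≤ s.dl T := by
  rcases exists_cfg hT h1 h2 h12 c1 c2 with h | h | h | h
  · obtain ⟨G, H, hd⟩ := cut_data h IH
    exact hd.one_le
  · obtain ⟨G, H, hd⟩ := cut_data h IH
    have := hd.one_le
    rwa [negX_dl] at this
  · obtain ⟨G, H, hd⟩ := cut_data h IH
    have := hd.one_le
    rwa [negY_dl] at this
  · obtain ⟨G, H, hd⟩ := cut_data h IH
    have := hd.one_le
    rwa [neg_dl] at this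

/-- First claim, induction step. -/
theorem P_step {T : Finset α} (hT : s.Sp T)
    (IH : ∀ (s : Sys α) (T' : Finset α), T'.card < T.card → s.Sp T' → PC s T' ∧ QC s T') :
    PC s T := by
  intro hw hh
  by_cases hs : s.w T ≤ 4 ∨ s.h T ≤ 4
  · exact base_narrow hT hw hh hs
  have hb : base (s.w T) (s.h T) = 0 := by unfold base; split_ifs <;> omega
  rw [hb]
  obtain ⟨p0, hp0, hp02⟩ := exists_left hT
  obtain ⟨q0, hq0, hq02⟩ := exists_right hT
  have kw : s.w T = s.r T - s.l T + 1 := rfl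
  have kh : s.h T = s.t T - s.b T + 1 := rfl
  have hc : 2 ≤ T.card := card_two_le_of_ne hp0 hq0 (fun h => by rw [h] at hp02; omega)
  obtain ⟨S1, S2, h1, h2, h12⟩ := two_max hT hc
  have n1 := Finset.card_pos.2 (s.ne (SL hT h1).1)
  have n2 := Finset.card_pos.2 (s.ne (SL hT h2).1)
  have one : ∀ W, s.IsMax T W → (T \ W).card = 1 → 0 ≤ s.dl T := by
    intro W hm hc1
    obtain ⟨c, h1, h2, h3, h4, h5, h6, h7, h8, h9, h10⟩ := one_shape hT hm hc1
    have e := single_bd (s := s) c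
    have m := mem_bd (s := s) h1
    have wW := wf hm.sp
    have hn : s.X c - s.r W ≤ 2 ∧ s.l W - s.X c ≤ 2 ∧ s.Y c - s.t W ≤ 2 ∧ s.b W - s.Y c ≤ 2 ∧
        (s.X c - s.r W) + (s.Y c - s.t W) ≤ 2 ∧ (s.X c - s.r W) + (s.b W - s.Y c) ≤ 2 ∧
        (s.l W - s.X c) + (s.Y c - s.t W) ≤ 2 ∧ (s.l W - s.X c) + (s.b W - s.Y c) ≤ 2 := by
      clear h6 h7 h8 h9 h10 hs
      unfold Near at h5
      omega
    clear h5
    have kw' : s.w W = s.r W - s.l W + 1 := rfl
    have kh' : s.h W = s.t W - s.b W + 1 := rfl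
    have bd := sub_bd hm.ss.1 hm.sp
    have x1 : s.w T = s.w W ∨ s.w T = s.w W + 1 ∨ s.w T = s.w W + 2 := by
      clear h6 h9 h10 hs; omega
    have y1 : s.h T = s.h W ∨ s.h T = s.h W + 1 ∨ s.h T = s.h W + 2 := by
      clear h6 h7 h8 hs x1; omega
    have hW : 3 ≤ s.w W ∧ 3 ≤ s.h W := by
      clear h6 h7 h8 h9 h10 hn; omega
    have hxy : s.w T ≠ s.w W ∨ s.h T ≠ s.h W := by
      by_contra hcon
      push Not at hcon
      have : W = T := eq_of_box hm.sp hT hm.ss.1 (by omega) (by omega) (by omega) (by omega)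
      exact hm.ss.ne this
    have hP := (IH s W (Finset.card_lt_card hm.ss) hm.sp).1.nonneg (by omega) (by omega)
    unfold dl at hP ⊢
    rw [h4]
    clear h6 h7 h8 h9 h10 hn bd
    have w5 : 5 ≤ s.w T := by omega
    have h5 : 5 ≤ s.h T := by omega
    have ew : 0 ≤ s.w T - s.w W := by omega
    have eh : 0 ≤ s.h T - s.h W := by omega
    have key : (s.w W + 3) * (s.h W + 3) + 8 ≤ (s.w T + 3) * (s.h T + 3) := by
      rcases (show s.w W + 1 ≤ s.w T ∨ s.h W + 1 ≤ s.h T by omega) with g | g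
      · have q1 : (s.w W + 1 + 3) * (s.h T + 3) ≤ (s.w T + 3) * (s.h T + 3) := by
          apply mul_le_mul_of_nonneg_right (by omega) (by omega)
        have q2 : (s.w W + 3) * (s.h W + 3) ≤ (s.w W + 3) * (s.h T + 3) := by
          apply mul_le_mul_of_nonneg_left (by omega) (by omega)
        nlinarith
      · have q1 : (s.w T + 3) * (s.h W + 1 + 3) ≤ (s.w T + 3) * (s.h T + 3) := by
          apply mul_le_mul_of_nonneg_left (by omega) (by omega)
        have q2 : (s.w W + 3) * (s.h W + 3) ≤ (s.w T + 3) * (s.h W + 3) := by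
          apply mul_le_mul_of_nonneg_right (by omega) (by omega)
        nlinarith
    linarith
  by_cases c1 : (T \ S1).card = 1
  · exact one S1 h1 c1
  by_cases c2 : (T \ S2).card = 1
  · exact one S2 h2 c2
  have := two_bound hT h1 h2 h12 (by omega) (by omega) IH
  omega

/-- The doubly avoiding lemma. -/
theorem DB {Q : Finset α} (hQ : s.Sp Q) (hc : 2 ≤ Q.card) (hbig : s.l Q < s.r Q ∧ s.b Q < s.t Q)
    (hPQ : PC s Q)
    (IH : ∀ (s : Sys α) (T' : Finset α), T'.card < Q.card → s.Sp T' → PC s T' ∧ QC s T')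
    {κ ρ κ' ρ' : ℤ} (k1 : 1 ≤ κ) (k2 : 1 ≤ ρ) (k3 : 1 ≤ κ') (k4 : 1 ≤ ρ')
    (ft : ∀ C, C ⊂ Q → s.Sp C → s.t C = s.t Q → κ ≤ s.r Q - s.r C)
    (fr : ∀ C, C ⊂ Q → s.Sp C → s.r C = s.r Q → ρ ≤ s.t Q - s.t C)
    (fb : ∀ C, C ⊂ Q → s.Sp C → s.b C = s.b Q → κ' ≤ s.l C - s.l Q)
    (fl : ∀ C, C ⊂ Q → s.Sp C → s.l C = s.l Q → ρ' ≤ s.b C - s.b Q) :
    2 * ((κ - 1) * (ρ - 1)) + 2 * ((κ' - 1) * (ρ' - 1)) ≤ s.dl Q ∧
      κ + κ' - 1 ≤ s.w Q ∧ ρ + ρ' - 1 ≤ s.h Q := by
  have kw : s.w Q = s.r Q - s.l Q + 1 := rfl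
  have kh : s.h Q = s.t Q - s.b Q + 1 := rfl
  -- single sites
  have s1 : κ + 1 ≤ s.w Q ∧ κ' + 1 ≤ s.w Q ∧ ρ + 1 ≤ s.h Q ∧ ρ' + 1 ≤ s.h Q := by
    obtain ⟨p, hp, hp2⟩ := exists_top hQ
    obtain ⟨q, hq, hq2⟩ := exists_right hQ
    obtain ⟨p', hp', hp2'⟩ := exists_bot hQ
    obtain ⟨q', hq', hq2'⟩ := exists_left hQ
    have e1 := single_bd (s := s) p
    have e2 := single_bd (s := s) q
    have e3 := single_bd (s := s) p'
    have e4 := single_bd (s := s) q'
    have f1 := ft _ (single_ssub hp hc) (s.single hQ hp) (by rw [e1.2.2.2, hp2])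
    have f2 := fr _ (single_ssub hq hc) (s.single hQ hq) (by rw [e2.2.1, hq2])
    have f3 := fb _ (single_ssub hp' hc) (s.single hQ hp') (by rw [e3.2.2.1, hp2'])
    have f4 := fl _ (single_ssub hq' hc) (s.single hQ hq') (by rw [e4.1, hq2'])
    have m1 := mem_bd (s := s) hp
    have m2 := mem_bd (s := s) hq
    have m3 := mem_bd (s := s) hp'
    have m4 := mem_bd (s := s) hq'
    omega
  obtain ⟨S1, S2, h1, h2, h12⟩ := two_max hQ hc
  have n1 := Finset.card_pos.2 (s.ne (SL hQ h1).1)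
  have n2 := Finset.card_pos.2 (s.ne (SL hQ h2).1)
  have one : ∀ W, s.IsMax Q W → (Q \ W).card = 1 → (κ = 1 ∧ ρ' = 1) ∨ (κ' = 1 ∧ ρ = 1) := by
    intro W hm hc1
    obtain ⟨c, h1, h2, h3, h4, h5, h6, h7, h8, h9, h10⟩ := one_shape hQ hm hc1
    have e := single_bd (s := s) c
    have m := mem_bd (s := s) h1
    have wW := wf hm.sp
    have f1 := ft W hm.ss hm.sp
    have f2 := fr W hm.ss hm.sp
    have f3 := fb W hm.ss hm.sp
    have f4 := fl W hm.ss hm.sp
    have hn : (s.X c - s.r W) + (s.b W - s.Y c) ≤ 2 ∧ (s.l W - s.X c) + (s.Y c - s.t W) ≤ 2 := by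
      clear h6 h7 h8 h9 h10 f1 f2 f3 f4
      unfold Near at h5
      omega
    clear h5
    rcases lt_or_ge (s.r W) (s.X c) with g | g
    · left
      have lW : s.l W = s.l Q := by clear h6 h8 h9 h10 f1 f2 f3 f4; omega
      have rQ : s.r Q = s.X c := by clear h6 h7 h9 h10 f1 f2 f3 f4; omega
      have g4 := f4 lW
      have bQ : s.b Q = s.Y c := by clear h6 h7 h8 h10 f1 f2 f3 f4; omega
      have tW : s.t W = s.t Q := by clear h6 h7 h8 h9 f1 f2 f3 f4; omega
      have g1 := f1 tW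
      clear f1 f2 f3 f4 h6 h7 h8 h9 h10
      omega
    · rcases lt_or_ge (s.X c) (s.l W) with g' | g'
      · right
        have rW : s.r W = s.r Q := by clear h6 h7 h9 h10 f1 f2 f3 f4; omega
        have lQ : s.l Q = s.X c := by clear h6 h8 h9 h10 f1 f2 f3 f4; omega
        have g2 := f2 rW
        have tQ : s.t Q = s.Y c := by clear h6 h7 h8 h9 f1 f2 f3 f4; omega
        have bW : s.b W = s.b Q := by clear h6 h7 h8 h10 f1 f2 f3 f4; omega
        have g3 := f3 bW
        clear f1 f2 f3 f4 h6 h7 h8 h9 h10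
        omega
      · exfalso
        have lW : s.l W = s.l Q := by clear h6 h8 h9 h10 f1 f2 f3 f4; omega
        have rW : s.r W = s.r Q := by clear h6 h7 h9 h10 f1 f2 f3 f4; omega
        have g2 := f2 rW
        have g4 := f4 lW
        clear h6 h7 h8 f1 f2 f3 f4
        omega
  have fin1 : (κ = 1 ∧ ρ' = 1) ∨ (κ' = 1 ∧ ρ = 1) →
      2 * ((κ - 1) * (ρ - 1)) + 2 * ((κ' - 1) * (ρ' - 1)) ≤ s.dl Q ∧
      κ + κ' - 1 ≤ s.w Q ∧ ρ + ρ' - 1 ≤ s.h Q := by
    intro hh
    have hP := hPQ.nonneg hbig.1 hbig.2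
    rcases hh with ⟨rfl, rfl⟩ | ⟨rfl, rfl⟩
    · refine ⟨?_, by omega, by omega⟩
      have : 2 * (((1 : ℤ) - 1) * (ρ - 1)) + 2 * ((κ' - 1) * (1 - 1)) = 0 := by ring
      rw [this]; exact hP
    · refine ⟨?_, by omega, by omega⟩
      have : 2 * ((κ - 1) * ((1 : ℤ) - 1)) + 2 * ((1 - 1) * (ρ' - 1)) = 0 := by ring
      rw [this]; exact hP
  by_cases c1 : (Q \ S1).card = 1
  · exact fin1 (one S1 h1 c1)
  by_cases c2 : (Q \ S2).card = 1
  · exact fin1 (one S2 h2 c2)
  obtain ⟨p1, p2⟩ := diag_pos hQ h1 h2 h12 (by omega) (by omega)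
  have a1 := ft S1 h1.ss h1.sp
  have a2 := ft S2 h2.ss h2.sp
  have a3 := fb S1 h1.ss h1.sp
  have a4 := fb S2 h2.ss h2.sp
  rcases p1 with p1 | p1
  · rcases p2 with p2 | p2
    · exfalso
      have := a1 p2.2.1
      omega
    · -- S2 upper left, S1 lower right
      clear a1 a2 a3 a4
      have hcfg : Cfg s.negY Q S1 S2 := ⟨hQ, h1, h2, h12, by omega, by omega,
        by simpa using p1.1, by simpa using p2.2.1⟩
      obtain ⟨G, H, cd⟩ := cut_data hcfg IH
      have bd := cd.bound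
      have lG := cd.lG
      have bG := cd.bG
      have rH := cd.rH
      have tH := cd.tH
      have m1 := cd.n1
      have m2 := cd.n2
      rw [negY_dl] at bd
      simp only [negY_l, negY_r, negY_b, negY_t] at bd lG bG rH tH m1 m2
      have g1 := ft G cd.GT cd.G_sp (by omega)
      have g2 := fl G cd.GT cd.G_sp lG
      have g3 := fr H cd.HT cd.H_sp rH
      have g4 := fb H cd.HT cd.H_sp (by omega)
      refine ⟨?_, by omega, by omega⟩
      have q1 : (κ' - 1) * (ρ' - 1) ≤ (s.l H - s.l Q - 1) * (-s.b Q - -s.b G - 1) :=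
        mul_le_mul (by omega) (by omega) (by omega) (by omega)
      have q2 : (κ - 1) * (ρ - 1) ≤ (s.r Q - s.r G - 1) * (-s.t H - -s.t Q - 1) :=
        mul_le_mul (by omega) (by omega) (by omega) (by omega)
      omega
  · rcases p2 with p2 | p2
    · -- S1 upper left, S2 lower right
      clear a1 a2 a3 a4
      have hcfg : Cfg s.negX Q S1 S2 := ⟨hQ, h1, h2, h12, by omega, by omega,
        by simpa using p1.2.1, by simpa using p2.1⟩
      obtain ⟨G, H, cd⟩ := cut_data hcfg IH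
      have bd := cd.bound
      have lG := cd.lG
      have bG := cd.bG
      have rH := cd.rH
      have tH := cd.tH
      have m1 := cd.n1
      have m2 := cd.n2
      rw [negX_dl] at bd
      simp only [negX_l, negX_r, negX_b, negX_t] at bd lG bG rH tH m1 m2
      have g1 := ft H cd.HT cd.H_sp tH
      have g2 := fl H cd.HT cd.H_sp (by omega)
      have g3 := fr G cd.GT cd.G_sp (by omega)
      have g4 := fb G cd.GT cd.G_sp bG
      refine ⟨?_, by omega, by omega⟩
      have q1 : (κ - 1) * (ρ - 1) ≤ (-s.r H - -s.r Q - 1) * (s.t Q - s.t G - 1) :=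
        mul_le_mul (by omega) (by omega) (by omega) (by omega)
      have q2 : (κ' - 1) * (ρ' - 1) ≤ (-s.l Q - -s.l G - 1) * (s.b H - s.b Q - 1) :=
        mul_le_mul (by omega) (by omega) (by omega) (by omega)
      omega
    · exfalso
      have := a2 p2.2.1
      omega

/-- Type two of the second claim. -/
theorem Q_two {S S' Q : Finset α} {l b : ℤ} (hS : s.Sp S) (hS' : s.Sp S') (hQ : s.Sp Q)
    (hd : Disjoint S' Q) (hU : S = S' ∪ Q) (hc : 2 ≤ Q.card) (h1 : s.FA Q l b)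
    (h2 : s.neg.FA Q (- s.r S') (- s.t S')) (hg : Good s S' (s.l Q) (s.b Q))
    (hnn : ¬ s.nearQ S' l b) (hnear : s.Near S' Q) (p1 : s.l S' < s.l Q) (p2 : s.b S' < s.b Q)
    (p3 : s.r S' < s.r Q) (p4 : s.t S' < s.t Q) (hn : s.nearQ S l b) (hl : s.l S < l)
    (hb : s.b S < b)
    (IH : ∀ (s : Sys α) (T' : Finset α), T'.card < S.card → s.Sp T' → PC s T' ∧ QC s T') :
    s.star S l b ≤ s.dl S := by
  have e := union_bd hS' hQ
  rw [← hU] at e
  have e1 : s.r S = s.r Q ∧ s.t S = s.t Q ∧ s.l S = s.l S' ∧ s.b S = s.b S' := by omega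
  clear e
  obtain ⟨er, et, el, eb⟩ := e1
  have hcard : (S.card : ℤ) = S'.card + Q.card := by
    rw [hU, Finset.card_union_of_disjoint hd]; push_cast; ring
  have cpos := Finset.card_pos.2 (s.ne hS')
  have cpos' := Finset.card_pos.2 (s.ne hQ)
  have cS' : S'.card < S.card := by omega
  have cQ : Q.card < S.card := by omega
  have hnQ : s.nearQ Q l b := by
    unfold nearQ at hn ⊢
    rw [← er, ← et]; exact hn
  have hnS' : s.nearQ S' (s.l Q) (s.b Q) := by
    unfold Near at hnear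
    unfold nearQ
    omega
  have hnQ' : s.neg.nearQ Q (- s.r S') (- s.t S') := by
    unfold Near at hnear
    unfold nearQ
    rw [neg_r, neg_t]
    omega
  have star' := (IH s S' cS' hS').2 _ _ hg hnS' p1 p2
  have ov := h2.over (s := s.neg) hQ hc hnQ'
  simp only [neg_l, neg_r, neg_b, neg_t] at ov
  have bigQ := big_of_FA hQ hc h1 hnQ
  have db := DB hQ hc bigQ (IH s Q cQ hQ).1
    (fun s' T' hT' hs' => IH s' T' (hT'.trans cQ) hs')
    (κ := min (s.r Q - l + 3) (s.r Q - l + (s.t Q - b) + 3))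
    (ρ := min (s.t Q - b + 3) (s.r Q - l + (s.t Q - b) + 3))
    (κ' := min (s.r S' - s.l Q + 3) (s.r S' - s.l Q + (s.t S' - s.b Q) + 3))
    (ρ' := min (s.t S' - s.b Q + 3) (s.r S' - s.l Q + (s.t S' - s.b Q) + 3))
    (by unfold nearQ at hnQ; omega) (by unfold nearQ at hnQ; omega)
    (by unfold nearQ at hnS'; omega) (by unfold nearQ at hnS'; omega)
    (fun C hC hCs ht => h1.top hnQ hC hCs ht)
    (fun C hC hCs ht => h1.right hnQ hC hCs ht)
    (fun C hC hCs ht => by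
      have := h2.top (s := s.neg) hnQ' hC hCs (by rw [neg_t, neg_t, ht])
      simp only [neg_r, neg_t] at this
      omega)
    (fun C hC hCs ht => by
      have := h2.right (s := s.neg) hnQ' hC hCs (by rw [neg_r, neg_r, ht])
      simp only [neg_r, neg_t] at this
      omega)
  obtain ⟨d1, d2, d3⟩ := db
  have hdl := dl_union (s := s) hcard el.symm eb.symm er.symm et.symm
  rw [hdl]
  unfold nearQ at hnQ hnS'
  have kw : s.w Q = s.r Q - s.l Q + 1 := rfl
  have kh : s.h Q = s.t Q - s.b Q + 1 := rfl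
  have := arith_two (u := s.r Q - l) (v := s.t Q - b) (u' := s.r S' - s.l Q)
    (v' := s.t S' - s.b Q) (aa := s.r Q - s.r S') (bb := s.l Q - s.l S')
    (cc := s.t Q - s.t S') (dd := s.b Q - s.b S') (x := s.dl S') (y := s.dl Q)
    (by omega) (by omega) (by omega) (by omega) (by omega) (by omega) (by omega) (by omega)
    (by omega) (by omega) (by omega) (by omega)
    (by
      unfold star at star'
      exact star') d1
  unfold star
  rw [er, et, el, eb]
  refine le_trans (le_of_eq ?_) (this.trans (le_of_eq ?_))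
  · ring
  · ring

end Sys

end Pool.Agent.BootPerc
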