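import Pool.Agent.BootPerc.Main2

set_option autoImplicit false
set_option linter.unusedSectionVars false
set_option linter.unusedVariables false
set_option linter.unusedSimpArgs false

namespace Pool.Agent.BootPerc

namespace Sys

variable {α : Type*} [DecidableEq α] {s : Sys α}

/-- If the rest after deleting one site is a column, then some proper spanned set touches the right
side and misses the top by at most two rows. -/
theorem column_case {S W : Finset α} {c : α} (hS : s.Sp S) (hm : s.IsMax S W) (hcS : c ∈ S)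
    (hcW : c ∉ W) (hc : 2 ≤ S.card) (hn : s.Near {c} W) (hXc : s.X c = s.r S)
    (hcol : s.l W = s.r W) (hlt : s.r W < s.X c) (ht : s.t W = s.t S) :
    ∃ C, C ⊂ S ∧ s.Sp C ∧ s.r C = s.r S ∧ s.t S - 2 ≤ s.t C := by
  have e := single_bd (s := s) c
  have mc := mem_bd (s := s) hcS
  have wW := wf hm.sp
  have hcs := s.single hS hcS
  rcases Nat.lt_or_ge W.card 2 with h2 | h2
  · have h1 : W.card = 1 := by
      have := Finset.card_pos.2 (s.ne hm.sp); omega
    obtain ⟨q, hq⟩ := Finset.card_eq_one.1 h1
    refine ⟨{c}, single_ssub hcS hc, hcs, by rw [e.2.1, hXc], ?_⟩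
    have e2 := single_bd (s := s) q
    rw [← hq] at e2
    unfold Near at hn
    rw [e.2.2.2]
    omega
  · obtain ⟨q, hq, hq2⟩ := exists_bot hm.sp
    obtain ⟨W', f5, f6⟩ := exists_max (s.single hm.sp hq) (single_ssub hq h2)
    have b1 := sub_bd f5 (s.single hm.sp hq)
    have b2 := sub_bd f6.ss.1 f6.sp
    have wW' := wf f6.sp
    have eq1 := single_bd (s := s) q
    have hfull : s.l W' = s.l W ∧ s.r W' = s.r W := by omega
    have hc1 : (W \ W').card = 1 := by
      have h3 := Finset.card_pos.2 (s.ne (SL hm.sp f6).1)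
      have h4 : ¬ 2 ≤ (W \ W').card := fun h4 => SL2y hm.sp f6 h4 hfull
      omega
    obtain ⟨z, hzW, hzW', hins', hcard', hn2, hbox2, v1, v2, v3, v4⟩ := one_shape hm.sp f6 hc1
    have ez := single_bd (s := s) z
    have hbot : s.b W' = s.b W := by omega
    have mz := mem_bd (s := s) hzW
    have hz1 : s.t W' < s.Y z := by
      clear hn hn2
      omega
    have hz2 : s.Y z ≤ s.t W' + 2 := by
      clear hbox2 v1 v2 v3 v4 hn
      unfold Near at hn2
      omega
    have htW : s.t W = s.Y z := by
      clear hbox2 v1 v2 v3 hn hn2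
      omega
    clear hbox2 v1 v2 v3 v4 hn2
    by_cases hnear : s.Near W' {c}
    · refine ⟨W' ∪ {c}, ?_, merge' f6.sp hcs hnear, ?_, ?_⟩
      · rw [Finset.ssubset_iff_subset_ne]
        refine ⟨Finset.union_subset (f6.ss.1.trans hm.ss.1)
          (Finset.singleton_subset_iff.2 hcS), ?_⟩
        intro h
        have : z ∈ W' ∪ {c} := by rw [h]; exact hm.ss.1 hzW
        rw [Finset.mem_union, Finset.mem_singleton] at this
        rcases this with h' | h'
        · exact hzW' h'
        · exact hcW (h' ▸ hzW)
      · have u := union_bd f6.sp hcs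
        rw [u.2.1, e.2.1]; omega
      · have u := union_bd f6.sp hcs
        rw [u.2.2.2]; omega
    · refine ⟨{c}, single_ssub hcS hc, hcs, by rw [e.2.1, hXc], ?_⟩
      rw [e.2.2.2]
      by_contra hcon
      apply hnear
      unfold Near at hn ⊢
      omega

/-- Type F with a single remaining site. -/
theorem Q_F1 {S W : Finset α} {l b : ℤ} (hS : s.Sp S) (hm : s.IsMax S W)
    (hc1 : (S \ W).card = 1) (hc : 2 ≤ S.card) (hFA : s.FA S l b) (hn : s.nearQ S l b)
    (hl : s.l S < l) (hb : s.b S < b) (ht : s.t W = s.t S) (IHP : PC s W) :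
    s.star S l b ≤ s.dl S := by
  obtain ⟨c, h1, h2, h3, h4, h5, h6, h7, h8, h9, h10⟩ := one_shape hS hm hc1
  have big := big_of_FA hS hc hFA hn
  have f1 := hFA.top hn hm.ss hm.sp ht
  have nnW := hFA W hm.ss hm.sp
  have e := single_bd (s := s) c
  have mc := mem_bd (s := s) h1
  have wW := wf hm.sp
  have bd := sub_bd hm.ss.1 hm.sp
  have hcs := s.single hS h1
  have hlt : s.r W < s.r S := by unfold nearQ at hn; clear h6 h7 h8 h9 h10 nnW; omega
  have hXc : s.X c = s.r S := by clear h6 h7 h9 h10 nnW f1; omega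
  have hlW : s.l W = s.l S := by clear h6 h8 h9 h10 nnW f1; omega
  have hnr : s.r S - s.r W ≤ 2 ∧ (s.r S - s.r W) + (s.b W - s.Y c) ≤ 2 := by
    clear h6 h7 h8 h9 h10 nnW f1
    unfold Near at h5
    omega
  have kw : s.w S = s.r S - s.l S + 1 := rfl
  have kh : s.h S = s.t S - s.b S + 1 := rfl
  have kw' : s.w W = s.r W - s.l W + 1 := rfl
  have kh' : s.h W = s.t W - s.b W + 1 := rfl
  have hYt : s.Y c ≤ s.t W := by omega
  clear h6 h7 h8 h10
  have hstar : s.star S l b = (4 + (s.r S - l)) * (4 + (s.t S - b)) -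
      2 * ((s.w S - 1 - (s.r S - l)) + (s.h S - 1 - (s.t S - b))) := by
    unfold star; rw [kw, kh]; ring
  by_cases hcol : s.l W = s.r W
  · -- column
    obtain ⟨C, c1, c2, c3, c4⟩ := column_case hS hm h1 h2 hc h5 hXc hcol (by omega) ht
    have g := hFA.right hn c1 c2 c3
    have hρ : min (s.t S - b + 3) (s.r S - l + (s.t S - b) + 3) ≤ 2 := by
      clear h9 f1 nnW
      omega
    clear g
    unfold nearQ at hn
    rw [hstar]
    rcases (show s.r S = s.r W + 1 ∨ s.r S = s.r W + 2 by omega) with hi | hi
    · -- width two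
      have hw2 : s.w S = 2 := by omega
      have hbn := base_narrow hS (by omega) (by omega) (Or.inl (by omega))
      have hb5 : base (s.w S) (s.h S) = 5 := by unfold base; rw [if_pos (Or.inl hw2)]
      rw [hb5] at hbn
      refine le_trans ?_ hbn
      rw [hw2]
      have hh2 : 2 ≤ s.h S := by omega
      clear h9 nnW
      generalize hu : s.r S - l = u at *
      generalize hv : s.t S - b = v at *
      generalize s.h S = n at *
      have hu0 : u ≤ 0 := by omega
      have f2 : min (u + 3) (u + v + 3) ≤ 1 := by omega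
      rcases (show u = -2 ∨ u = -1 ∨ u = 0 by omega) with h | h | h
      · subst h; clear f1 hbn; omega
      · subst h; clear f1 hbn; omega
      · subst h; clear f1 hbn; omega
    · -- width three
      have hb1 := bound1 hm.sp hcol.symm
      have hbS : s.b S = s.b W := by clear nnW f1 hρ; omega
      have hw3 : s.w S = 3 := by omega
      have hdl : 2 * s.h S + 6 ≤ s.dl S := by
        unfold dl
        rw [hw3, h4]
        clear nnW f1 hρ
        omega
      refine le_trans ?_ hdl
      rw [hw3]
      clear h9 nnW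
      generalize hu : s.r S - l = u at *
      generalize hv : s.t S - b = v at *
      generalize s.h S = n at *
      have hu0 : u ≤ 1 := by omega
      have f2 : min (u + 3) (u + v + 3) ≤ 2 := by omega
      rcases (show u = -2 ∨ u = -1 ∨ u = 0 ∨ u = 1 by omega) with h | h | h | h
      · subst h; clear f1 hdl; omega
      · subst h; clear f1 hdl; omega
      · subst h; clear f1 hdl; omega
      · subst h; clear f1 hdl; omega
  · by_cases hrow : s.b W = s.t W
    · -- row
      have hY : s.Y c = s.b W - 1 := by clear f1 nnW; omega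
      have hh2 : s.h S = 2 := by clear f1 nnW; omega
      have hbn := base_narrow hS (by omega) (by omega) (Or.inr (by omega))
      have hb5 : base (s.w S) (s.h S) = 5 := by unfold base; rw [if_pos (Or.inr hh2)]
      rw [hb5] at hbn
      have g := hFA.right hn (single_ssub h1 hc) hcs (by rw [e.2.1, hXc])
      rw [e.2.2.2] at g
      unfold nearQ at hn
      rw [hstar]
      refine le_trans ?_ hbn
      rw [hh2]
      have hi : s.r S - s.r W = 1 := by clear f1 nnW g; omega
      have hj : s.t S - s.Y c = 1 := by clear f1 nnW g; omega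
      rw [hi] at f1
      rw [hj] at g
      have hw2 : 2 ≤ s.w S := by omega
      clear h9 nnW hnr
      generalize hu : s.r S - l = u at *
      generalize hv : s.t S - b = v at *
      generalize s.w S = m at *
      rcases (show (u = -2 ∧ v = 0) ∨ (u = -1 ∧ v = -1) ∨ (u = 0 ∧ v = -2) by omega)
        with ⟨hu', hv'⟩ | ⟨hu', hv'⟩ | ⟨hu', hv'⟩
      · subst hu' hv'; omega
      · subst hu' hv'; omega
      · subst hu' hv'; omega
    · -- at least two by two
      have hp := IHP (by omega) (by omega)
      unfold dl at hp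
      unfold nearQ at hn nnW
      rcases lt_or_ge (s.Y c) (s.b W) with g | g
      · have hbS : s.b S = s.b W - 1 := by clear f1 nnW; omega
        have hi : s.r S - s.r W = 1 := by clear f1 nnW; omega
        have ew : s.w W = s.w S - 1 := by omega
        have eh : s.h W = s.h S - 1 := by omega
        have hb0 := (base_facts (m := s.w W) (n := s.h W) (by omega) (by omega)).1
        rw [ew, eh] at hp hb0
        have := arith_one11 (m := s.w S) (n := s.h S) (u := s.r S - l) (v := s.t S - b)
          (k := (W.card : ℤ)) (by omega) (by omega) (by omega) (by omega) (by omega) (by omega)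
          (by omega) (by omega) (hb0.trans hp)
        rw [hstar]
        unfold dl
        rw [h4]
        exact this
      · have hbS : s.b S = s.b W := by clear f1 nnW; omega
        have ew : s.w W = s.w S - (s.r S - s.r W) := by omega
        have eh : s.h W = s.h S - 0 := by omega
        rw [ew, eh] at hp
        have := arith_one (m := s.w S) (n := s.h S) (u := s.r S - l) (v := s.t S - b)
          (i := s.r S - s.r W) (j := 0)
          (k := (W.card : ℤ)) (by omega) (by omega) (by omega) (by omega) (by omega) (by omega)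
          (by omega) (by omega) (by omega) hp
        rw [hstar]
        unfold dl
        rw [h4]
        exact this

/-- Type F with two large parts. -/
theorem Q_F2 {S T1 T2 : Finset α} {l b : ℤ} (hcfg : Cfg s.negX S T1 T2) (hFA : s.FA S l b)
    (hn : s.nearQ S l b) (hl : s.l S < l) (hb : s.b S < b)
    (IH : ∀ (s : Sys α) (T' : Finset α), T'.card < S.card → s.Sp T' → PC s T' ∧ QC s T') :
    s.star S l b ≤ s.dl S := by
  obtain ⟨G, H, cd⟩ := cut_data hcfg IH
  have lG := cd.lG
  have bG := cd.bG
  have rH := cd.rH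
  have tH := cd.tH
  have rG := cd.rG
  have tG := cd.tG
  have lH := cd.lH
  have bH := cd.bH
  have n1 := cd.n1
  have n2 := cd.n2
  have n3 := cd.n3
  have bigG := cd.bigG
  have bigH := cd.bigH
  have pG := cd.pG
  have pH := cd.pH
  have qG := cd.qG
  have qH := cd.qH
  have dT := cd.dT
  have fG := cd.fG
  have fH := cd.fH
  simp only [negX_l, negX_r, negX_b, negX_t, negX_dl] at lG bG rH tH rG tG lH bH n1 n2 n3
  simp only [negX_l, negX_r, negX_b, negX_t, negX_dl] at bigG bigH pG pH qG qH dT fG fH
  have k1 := hFA.top hn cd.HT cd.H_sp tH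
  have k2 := hFA.right hn cd.GT cd.G_sp (by omega)
  unfold nearQ at hn
  rw [dT]
  have := arith_F2 (u := s.r S - l) (v := s.t S - b) (u' := -s.l G - -s.r H)
    (v' := s.t G - s.b H) (κ := -s.r H - -s.r S) (ρ := s.t S - s.t G) (a := -s.l S - -s.l G)
    (c := s.b H - s.b S) (x := s.dl G) (y := s.dl H)
    (by omega) (by omega) (by omega) n1 n2 n3
    (by clear fG fH k2; omega) (by clear fG fH k1; omega) (by clear fG fH k1 k2; omega)
    (by clear fG fH k1 k2; omega) (by clear fG fH k1 k2; omega) (by clear fG fH k1 k2; omega)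
    pG pH qG qH
    (fun a1 a2 => ⟨(fG.1 a1 a2).1, (fH.1 a1 a2).2⟩) fG.2.1
    (fun a1 => by
      rcases fH.2.2 a1 with h | h
      · exact Or.inl h
      · exact Or.inr h)
    (by clear fG fH k1 k2; omega) (by clear fG fH k1 k2; omega)
  unfold star
  refine le_trans (le_of_eq ?_) (this.trans (le_of_eq ?_))
  · ring_nf
  · ring

/-- Type F of the second claim. -/
theorem Q_F {S : Finset α} {l b : ℤ} (hS : s.Sp S) (hc : 2 ≤ S.card) (hFA : s.FA S l b)
    (hn : s.nearQ S l b) (hl : s.l S < l) (hb : s.b S < b)
    (IH : ∀ (s : Sys α) (T' : Finset α), T'.card < S.card → s.Sp T' → PC s T' ∧ QC s T') :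
    s.star S l b ≤ s.dl S := by
  obtain ⟨p, hp, hp2⟩ := exists_top hS
  obtain ⟨T1, h1, m1⟩ := exists_max (s.single hS hp) (single_ssub hp hc)
  have e := single_bd (s := s) p
  have bd1 := sub_bd h1 (s.single hS hp)
  have bd2 := sub_bd m1.ss.1 m1.sp
  have tT1 : s.t T1 = s.t S := by omega
  have k1 := hFA.top hn m1.ss m1.sp tT1
  have hr1 : s.r T1 < s.r S := by unfold nearQ at hn; omega
  have hB := SL hS m1
  have tch := (compl_touch hS m1).2.1 hr1
  obtain ⟨T2, h2, m2⟩ := exists_max hB.1 (sdiff_ssub m1.ss (s.ne m1.sp))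
  have bd3 := sub_bd h2 hB.1
  have bd4 := sub_bd m2.ss.1 m2.sp
  have rT2 : s.r T2 = s.r S := by omega
  have k2 := hFA.right hn m2.ss m2.sp rT2
  have ht2 : s.t T2 < s.t S := by unfold nearQ at hn; omega
  have n1 := Finset.card_pos.2 (s.ne (SL hS m1).1)
  have n2 := Finset.card_pos.2 (s.ne (SL hS m2).1)
  by_cases c1 : (S \ T1).card = 1
  · exact Q_F1 hS m1 c1 hc hFA hn hl hb tT1 (IH s T1 (Finset.card_lt_card m1.ss) m1.sp).1
  by_cases c2 : (S \ T2).card = 1
  · have hFA' : s.swap.FA S b l := by
      intro C hC hCs hnq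
      refine hFA C hC hCs ?_
      unfold nearQ at hnq ⊢
      simp only [swap_r, swap_t] at hnq
      omega
    have hn' : s.swap.nearQ S b l := by
      unfold nearQ at hn ⊢
      simp only [swap_r, swap_t]
      omega
    have := Q_F1 (s := s.swap) hS m2.swap c2 hc hFA' hn' hb hl rT2
      (IH s.swap T2 (Finset.card_lt_card m2.ss) m2.sp).1
    rw [swap_dl] at this
    refine le_trans (le_of_eq ?_) this
    unfold star
    simp only [swap_l, swap_r, swap_b, swap_t]
    ring
  obtain ⟨p1, p2⟩ := diag_pos hS m1 m2 h2 (by omega) (by omega)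
  have hcfg : Cfg s.negX S T1 T2 := by
    refine ⟨hS, m1, m2, h2, by omega, by omega, ?_, ?_⟩
    · rw [negX_l, negX_l, rT2]
    · rw [negX_b, negX_b]
      clear p1
      omega
  exact Q_F2 hcfg hFA hn hl hb IH

/-- The main induction. -/
theorem main_ind (n : ℕ) : IHyp α n := by
  induction n with
  | zero => intro s T h; omega
  | succ n ih =>
    intro s T hT hs
    have IH : ∀ (s : Sys α) (T' : Finset α), T'.card < T.card → s.Sp T' → PC s T' ∧ QC s T' :=
      fun s' T' h1 h2 => ih s' T' (by omega) h2
    refine ⟨P_step hs IH, ?_⟩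
    intro l b hg hn hl hb
    cases hg with
    | F hS hc hFA => exact Q_F hS hc hFA hn hl hb IH
    | @one _ S' c _ _ hS hS' hins hc hnn e1 e2 h1 h2 =>
      exact Q_one hS hS' hins hc hnn e1 e2 h1 h2 hn hl hb
        (IH s _ (by rw [hins, Finset.card_insert_of_notMem hc]; omega) hS').1
    | two hS hS' hQ hd hU hc h1 h2 hg' hnn hnear p1 p2 p3 p4 =>
      exact Q_two hS hS' hQ hd hU hc h1 h2 hg' hnn hnear p1 p2 p3 p4 hn hl hb IH

/-- The upper bound in the abstract setting. -/
theorem upper {T : Finset α} (hT : s.Sp T) (hw : 2 ≤ s.w T) (hh : 2 ≤ s.h T) :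
    15 * (T.card : ℤ) ≤ 2 * (s.w T + 3) * (s.h T + 3) - 5 := by
  have h := (main_ind (T.card + 1) s T (by omega) hT).1 hw hh
  have := (base_facts hw hh).1
  unfold dl at h
  omega

end Sys

end Pool.Agent.BootPerc
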