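import Pool.Agent.BootPerc.Core

set_option autoImplicit false
set_option linter.unusedSectionVars false

namespace Pool.Agent.BootPerc

section LoHi

variable {α : Type*}

/-- Minimum of `f` over `A` (zero for the empty set). -/
noncomputable def lo (f : α → ℤ) (A : Finset α) : ℤ := if h : A.Nonempty then A.inf' h f else 0

/-- Maximum of `f` over `A` (zero for the empty set). -/
noncomputable def hi (f : α → ℤ) (A : Finset α) : ℤ := if h : A.Nonempty then A.sup' h f else 0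

theorem lo_le {f : α → ℤ} {A : Finset α} {a : α} (h : a ∈ A) : lo f A ≤ f a := by
  unfold lo
  rw [dif_pos ⟨a, h⟩]
  exact Finset.inf'_le f h

theorem le_hi {f : α → ℤ} {A : Finset α} {a : α} (h : a ∈ A) : f a ≤ hi f A := by
  unfold hi
  rw [dif_pos ⟨a, h⟩]
  exact Finset.le_sup' f h

theorem exists_lo {f : α → ℤ} {A : Finset α} (h : A.Nonempty) : ∃ a ∈ A, f a = lo f A := by
  obtain ⟨a, ha, h2⟩ := Finset.exists_mem_eq_inf' h f
  refine ⟨a, ha, ?_⟩
  unfold lo
  rw [dif_pos h, h2]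

theorem exists_hi {f : α → ℤ} {A : Finset α} (h : A.Nonempty) : ∃ a ∈ A, f a = hi f A := by
  obtain ⟨a, ha, h2⟩ := Finset.exists_mem_eq_sup' h f
  refine ⟨a, ha, ?_⟩
  unfold hi
  rw [dif_pos h, h2]

theorem lo_neg (f : α → ℤ) (A : Finset α) : lo (fun a => - f a) A = - hi f A := by
  rcases A.eq_empty_or_nonempty with rfl | h
  · simp [lo, hi]
  · obtain ⟨a, ha, h1⟩ := exists_lo (f := fun a => - f a) h
    obtain ⟨b, hb, h2⟩ := exists_hi (f := f) h
    have h3 := lo_le (f := fun a => - f a) hb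
    have h4 := le_hi (f := f) ha
    omega

theorem hi_neg (f : α → ℤ) (A : Finset α) : hi (fun a => - f a) A = - lo f A := by
  rcases A.eq_empty_or_nonempty with rfl | h
  · simp [lo, hi]
  · obtain ⟨a, ha, h1⟩ := exists_hi (f := fun a => - f a) h
    obtain ⟨b, hb, h2⟩ := exists_lo (f := f) h
    have h3 := le_hi (f := fun a => - f a) hb
    have h4 := lo_le (f := f) ha
    omega

theorem lo_anti {f : α → ℤ} {A B : Finset α} (h : A ⊆ B) (hA : A.Nonempty) :
    lo f B ≤ lo f A := by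
  obtain ⟨a, ha, h1⟩ := exists_lo (f := f) hA
  have := lo_le (f := f) (h ha)
  omega

theorem hi_mono {f : α → ℤ} {A B : Finset α} (h : A ⊆ B) (hA : A.Nonempty) :
    hi f A ≤ hi f B := by
  obtain ⟨a, ha, h1⟩ := exists_hi (f := f) hA
  have := le_hi (f := f) (h ha)
  omega

theorem lo_union [DecidableEq α] {f : α → ℤ} {A B : Finset α} (hA : A.Nonempty)
    (hB : B.Nonempty) : lo f (A ∪ B) = min (lo f A) (lo f B) := by
  have h1 := lo_anti (f := f) (Finset.subset_union_left (s₁ := A) (s₂ := B)) hA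
  have h2 := lo_anti (f := f) (Finset.subset_union_right (s₁ := A) (s₂ := B)) hB
  obtain ⟨a, ha, h3⟩ := exists_lo (f := f) (hA.mono (Finset.subset_union_left (s₂ := B)))
  rcases Finset.mem_union.1 ha with h | h
  · have := lo_le (f := f) h; omega
  · have := lo_le (f := f) h; omega

theorem hi_union [DecidableEq α] {f : α → ℤ} {A B : Finset α} (hA : A.Nonempty)
    (hB : B.Nonempty) : hi f (A ∪ B) = max (hi f A) (hi f B) := by
  have h1 := hi_mono (f := f) (Finset.subset_union_left (s₁ := A) (s₂ := B)) hA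
  have h2 := hi_mono (f := f) (Finset.subset_union_right (s₁ := A) (s₂ := B)) hB
  obtain ⟨a, ha, h3⟩ := exists_hi (f := f) (hA.mono (Finset.subset_union_left (s₂ := B)))
  rcases Finset.mem_union.1 ha with h | h
  · have := le_hi (f := f) h; omega
  · have := le_hi (f := f) h; omega

theorem lo_single (f : α → ℤ) (a : α) : lo f {a} = f a := by
  obtain ⟨b, hb, h1⟩ := exists_lo (f := f) (Finset.singleton_nonempty a)
  rw [Finset.mem_singleton] at hb
  rw [← h1, hb]

theorem hi_single (f : α → ℤ) (a : α) : hi f {a} = f a := by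
  obtain ⟨b, hb, h1⟩ := exists_hi (f := f) (Finset.singleton_nonempty a)
  rw [Finset.mem_singleton] at hb
  rw [← h1, hb]

end LoHi

/-- The abstract structure of internally spanned subsets of a minimal percolating set. -/
structure Sys (α : Type*) [DecidableEq α] where
  /-- first coordinate -/
  X : α → ℤ
  /-- second coordinate -/
  Y : α → ℤ
  /-- internally spanned sets -/
  Sp : Finset α → Prop
  ne : ∀ {A : Finset α}, Sp A → A.Nonempty
  single : ∀ {A : Finset α} {p : α}, Sp A → p ∈ A → Sp {p}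
  merge : ∀ {A B : Finset α}, Sp A → Sp B →
    NearB (lo X A) (hi X A) (lo Y A) (hi Y A) (lo X B) (hi X B) (lo Y B) (hi Y B) → Sp (A ∪ B)
  W : ∀ {S T : Finset α}, Sp S → Sp T → S ⊂ T → ∃ B, B ⊆ T \ S ∧ Sp B ∧
    NearB (lo X B) (hi X B) (lo Y B) (hi Y B) (lo X S) (hi X S) (lo Y S) (hi Y S)
  stripX : ∀ {S : Finset α} (x : ℤ), Sp S → lo X S ≤ x → x + 1 ≤ hi X S →
    ∃ p ∈ S, X p = x ∨ X p = x + 1
  stripY : ∀ {S : Finset α} (y : ℤ), Sp S → lo Y S ≤ y → y + 1 ≤ hi Y S →
    ∃ p ∈ S, Y p = y ∨ Y p = y + 1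
  mono : ∀ {S S' : Finset α}, Sp S → Sp S' → lo X S' ≤ lo X S → hi X S ≤ hi X S' →
    lo Y S' ≤ lo Y S → hi Y S ≤ hi Y S' → S ⊆ S'

namespace Sys

variable {α : Type*} [DecidableEq α] (s : Sys α)

/-- left side of the bounding box -/
noncomputable def l (A : Finset α) : ℤ := lo s.X A
/-- right side of the bounding box -/
noncomputable def r (A : Finset α) : ℤ := hi s.X A
/-- bottom of the bounding box -/
noncomputable def b (A : Finset α) : ℤ := lo s.Y A
/-- top of the bounding box -/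
noncomputable def t (A : Finset α) : ℤ := hi s.Y A

/-- boxes at L1 distance at most two -/
def Near (A B : Finset α) : Prop :=
  s.l B - s.r A ≤ 2 ∧ s.l A - s.r B ≤ 2 ∧ s.b B - s.t A ≤ 2 ∧ s.b A - s.t B ≤ 2 ∧
  (s.l B - s.r A) + (s.b B - s.t A) ≤ 2 ∧ (s.l B - s.r A) + (s.b A - s.t B) ≤ 2 ∧
  (s.l A - s.r B) + (s.b B - s.t A) ≤ 2 ∧ (s.l A - s.r B) + (s.b A - s.t B) ≤ 2

/-- reflection in the first coordinate -/
def negX : Sys α where
  X := fun a => - s.X a
  Y := s.Y
  Sp := s.Sp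
  ne := s.ne
  single := s.single
  merge := by
    intro A B hA hB h
    refine s.merge hA hB ?_
    simp only [lo_neg, hi_neg] at h
    unfold NearB at *
    omega
  W := by
    intro S T hS hT hST
    obtain ⟨B, h1, h2, h3⟩ := s.W hS hT hST
    refine ⟨B, h1, h2, ?_⟩
    simp only [lo_neg, hi_neg]
    unfold NearB at *
    omega
  stripX := by
    intro S x hS h1 h2
    simp only [lo_neg, hi_neg] at h1 h2
    obtain ⟨p, hp, h3⟩ := s.stripX (-x - 1) hS (by omega) (by omega)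
    exact ⟨p, hp, by omega⟩
  stripY := s.stripY
  mono := by
    intro S S' hS hS' h1 h2 h3 h4
    simp only [lo_neg, hi_neg] at h1 h2
    exact s.mono hS hS' (by omega) (by omega) h3 h4

/-- exchange of the coordinates -/
def swap : Sys α where
  X := s.Y
  Y := s.X
  Sp := s.Sp
  ne := s.ne
  single := s.single
  merge := by
    intro A B hA hB h
    refine s.merge hA hB ?_
    unfold NearB at *
    omega
  W := by
    intro S T hS hT hST
    obtain ⟨B, h1, h2, h3⟩ := s.W hS hT hST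
    refine ⟨B, h1, h2, ?_⟩
    unfold NearB at *
    omega
  stripX := s.stripY
  stripY := s.stripX
  mono := by
    intro S S' hS hS' h1 h2 h3 h4
    exact s.mono hS hS' h3 h4 h1 h2

/-- reflection in the second coordinate -/
def negY : Sys α := s.swap.negX.swap

/-- point reflection -/
def neg : Sys α := s.negX.negY

@[simp] theorem negX_Sp (A : Finset α) : s.negX.Sp A ↔ s.Sp A := Iff.rfl
@[simp] theorem swap_Sp (A : Finset α) : s.swap.Sp A ↔ s.Sp A := Iff.rfl
@[simp] theorem negY_Sp (A : Finset α) : s.negY.Sp A ↔ s.Sp A := Iff.rfl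
@[simp] theorem neg_Sp (A : Finset α) : s.neg.Sp A ↔ s.Sp A := Iff.rfl
@[simp] theorem negX_X (a : α) : s.negX.X a = - s.X a := rfl
@[simp] theorem negX_Y (a : α) : s.negX.Y a = s.Y a := rfl
@[simp] theorem negY_X (a : α) : s.negY.X a = s.X a := rfl
@[simp] theorem negY_Y (a : α) : s.negY.Y a = - s.Y a := rfl
@[simp] theorem swap_X (a : α) : s.swap.X a = s.Y a := rfl
@[simp] theorem swap_Y (a : α) : s.swap.Y a = s.X a := rfl
@[simp] theorem neg_X (a : α) : s.neg.X a = - s.X a := rfl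
@[simp] theorem neg_Y (a : α) : s.neg.Y a = - s.Y a := rfl
@[simp] theorem negX_l (A : Finset α) : s.negX.l A = - s.r A := lo_neg _ _
@[simp] theorem negX_r (A : Finset α) : s.negX.r A = - s.l A := hi_neg _ _
@[simp] theorem negX_b (A : Finset α) : s.negX.b A = s.b A := rfl
@[simp] theorem negX_t (A : Finset α) : s.negX.t A = s.t A := rfl
@[simp] theorem swap_l (A : Finset α) : s.swap.l A = s.b A := rfl
@[simp] theorem swap_r (A : Finset α) : s.swap.r A = s.t A := rfl
@[simp] theorem swap_b (A : Finset α) : s.swap.b A = s.l A := rfl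
@[simp] theorem swap_t (A : Finset α) : s.swap.t A = s.r A := rfl
@[simp] theorem negY_l (A : Finset α) : s.negY.l A = s.l A := rfl
@[simp] theorem negY_r (A : Finset α) : s.negY.r A = s.r A := rfl
@[simp] theorem negY_b (A : Finset α) : s.negY.b A = - s.t A := lo_neg _ _
@[simp] theorem negY_t (A : Finset α) : s.negY.t A = - s.b A := hi_neg _ _
@[simp] theorem neg_l (A : Finset α) : s.neg.l A = - s.r A := lo_neg _ _
@[simp] theorem neg_r (A : Finset α) : s.neg.r A = - s.l A := hi_neg _ _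
@[simp] theorem neg_b (A : Finset α) : s.neg.b A = - s.t A := lo_neg _ _
@[simp] theorem neg_t (A : Finset α) : s.neg.t A = - s.b A := hi_neg _ _

theorem negX_Near (A B : Finset α) : s.negX.Near A B ↔ s.Near A B := by
  unfold Near; simp only [negX_l, negX_r, negX_b, negX_t]; omega

theorem swap_Near (A B : Finset α) : s.swap.Near A B ↔ s.Near A B := by
  unfold Near; simp only [swap_l, swap_r, swap_b, swap_t]; omega

theorem negY_Near (A B : Finset α) : s.negY.Near A B ↔ s.Near A B := by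
  unfold Near; simp only [negY_l, negY_r, negY_b, negY_t]; omega

theorem neg_Near (A B : Finset α) : s.neg.Near A B ↔ s.Near A B := by
  unfold Near; simp only [neg_l, neg_r, neg_b, neg_t]; omega

theorem near_comm {A B : Finset α} (h : s.Near A B) : s.Near B A := by
  unfold Near at *; omega

variable {s}

theorem mem_bd {A : Finset α} {p : α} (h : p ∈ A) :
    s.l A ≤ s.X p ∧ s.X p ≤ s.r A ∧ s.b A ≤ s.Y p ∧ s.Y p ≤ s.t A :=
  ⟨lo_le h, le_hi h, lo_le h, le_hi h⟩

theorem exists_left {A : Finset α} (h : s.Sp A) : ∃ p ∈ A, s.X p = s.l A := exists_lo (s.ne h)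
theorem exists_right {A : Finset α} (h : s.Sp A) : ∃ p ∈ A, s.X p = s.r A := exists_hi (s.ne h)
theorem exists_bot {A : Finset α} (h : s.Sp A) : ∃ p ∈ A, s.Y p = s.b A := exists_lo (s.ne h)
theorem exists_top {A : Finset α} (h : s.Sp A) : ∃ p ∈ A, s.Y p = s.t A := exists_hi (s.ne h)

theorem wf {A : Finset α} (h : s.Sp A) : s.l A ≤ s.r A ∧ s.b A ≤ s.t A := by
  obtain ⟨p, hp⟩ := s.ne h
  have := mem_bd (s := s) hp
  omega

theorem sub_bd {A B : Finset α} (h : A ⊆ B) (hA : s.Sp A) :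
    s.l B ≤ s.l A ∧ s.r A ≤ s.r B ∧ s.b B ≤ s.b A ∧ s.t A ≤ s.t B :=
  ⟨lo_anti h (s.ne hA), hi_mono h (s.ne hA), lo_anti h (s.ne hA), hi_mono h (s.ne hA)⟩

theorem union_bd {A B : Finset α} (hA : s.Sp A) (hB : s.Sp B) :
    s.l (A ∪ B) = min (s.l A) (s.l B) ∧ s.r (A ∪ B) = max (s.r A) (s.r B) ∧
    s.b (A ∪ B) = min (s.b A) (s.b B) ∧ s.t (A ∪ B) = max (s.t A) (s.t B) :=
  ⟨lo_union (s.ne hA) (s.ne hB), hi_union (s.ne hA) (s.ne hB), lo_union (s.ne hA) (s.ne hB),
    hi_union (s.ne hA) (s.ne hB)⟩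

theorem single_bd (p : α) :
    s.l {p} = s.X p ∧ s.r {p} = s.X p ∧ s.b {p} = s.Y p ∧ s.t {p} = s.Y p :=
  ⟨lo_single _ _, hi_single _ _, lo_single _ _, hi_single _ _⟩

theorem merge' {A B : Finset α} (hA : s.Sp A) (hB : s.Sp B) (h : s.Near A B) : s.Sp (A ∪ B) :=
  s.merge hA hB h

theorem W' {S T : Finset α} (hS : s.Sp S) (hT : s.Sp T) (h : S ⊂ T) :
    ∃ B, B ⊆ T \ S ∧ s.Sp B ∧ s.Near B S := s.W hS hT h

theorem stripX' {S : Finset α} (x : ℤ) (hS : s.Sp S) (h1 : s.l S ≤ x) (h2 : x + 1 ≤ s.r S) :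
    ∃ p ∈ S, s.X p = x ∨ s.X p = x + 1 := s.stripX x hS h1 h2

theorem stripY' {S : Finset α} (y : ℤ) (hS : s.Sp S) (h1 : s.b S ≤ y) (h2 : y + 1 ≤ s.t S) :
    ∃ p ∈ S, s.Y p = y ∨ s.Y p = y + 1 := s.stripY y hS h1 h2

theorem mono' {S S' : Finset α} (hS : s.Sp S) (hS' : s.Sp S') (h1 : s.l S' ≤ s.l S)
    (h2 : s.r S ≤ s.r S') (h3 : s.b S' ≤ s.b S) (h4 : s.t S ≤ s.t S') : S ⊆ S' :=
  s.mono hS hS' h1 h2 h3 h4

/-- A site (of a spanned set) lying in the box of a spanned set belongs to it. -/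
theorem mem_of_box {T A : Finset α} {p : α} (hT : s.Sp T) (hp : p ∈ T) (hA : s.Sp A)
    (h1 : s.l A ≤ s.X p) (h2 : s.X p ≤ s.r A) (h3 : s.b A ≤ s.Y p) (h4 : s.Y p ≤ s.t A) :
    p ∈ A := by
  have e := single_bd (s := s) p
  have := mono' (s.single hT hp) hA (by omega) (by omega) (by omega) (by omega)
  exact this (Finset.mem_singleton_self p)

theorem eq_of_box {S T : Finset α} (hS : s.Sp S) (hT : s.Sp T) (hST : S ⊆ T)
    (h1 : s.l S ≤ s.l T) (h2 : s.r T ≤ s.r S) (h3 : s.b S ≤ s.b T) (h4 : s.t T ≤ s.t S) :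
    S = T :=
  Finset.Subset.antisymm hST (mono' hT hS h1 h2 h3 h4)

theorem near_mono {A A' B : Finset α} (h : A ⊆ A') (hA : s.Sp A) (hn : s.Near A B) :
    s.Near A' B := by
  have := sub_bd (s := s) h hA
  unfold Near at *
  omega

/-- maximal proper spanned subsets -/
def IsMax (s : Sys α) (T S : Finset α) : Prop :=
  s.Sp S ∧ S ⊂ T ∧ ∀ S', s.Sp S' → S ⊆ S' → S' ⊂ T → S' = S

theorem exists_max {T A : Finset α} (hA : s.Sp A) (hAT : A ⊂ T) : ∃ S, A ⊆ S ∧ s.IsMax T S := by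
  classical
  set F := T.powerset.filter (fun S => A ⊆ S ∧ S ⊂ T ∧ s.Sp S) with hF
  have hne : F.Nonempty := ⟨A, by
    rw [hF, Finset.mem_filter, Finset.mem_powerset]
    exact ⟨hAT.1, Finset.Subset.refl _, hAT, hA⟩⟩
  obtain ⟨S, hS, hmax⟩ := Finset.exists_max_image F Finset.card hne
  rw [hF, Finset.mem_filter] at hS
  refine ⟨S, hS.2.1, hS.2.2.2, hS.2.2.1, ?_⟩
  intro S' h1 h2 h3
  have := hmax S' (by
    rw [hF, Finset.mem_filter, Finset.mem_powerset]
    exact ⟨h3.1, hS.2.1.trans h2, h3, h1⟩)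
  exact (Finset.eq_of_subset_of_card_le h2 this).symm

theorem IsMax.sp {T S : Finset α} (h : s.IsMax T S) : s.Sp S := h.1
theorem IsMax.ss {T S : Finset α} (h : s.IsMax T S) : S ⊂ T := h.2.1

/-- The structure of a maximal proper spanned subset: its complement. -/
theorem SL {T S : Finset α} (hT : s.Sp T) (h : s.IsMax T S) :
    s.Sp (T \ S) ∧ s.Near (T \ S) S ∧ ∀ B', B' ⊂ T \ S → s.Sp B' → ¬ s.Near B' S := by
  have key : ∀ B', B' ⊆ T \ S → s.Sp B' → s.Near B' S → B' = T \ S := by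
    intro B' h1 h2 h3
    have h4 : s.Sp (S ∪ B') := merge' h.1 h2 (s.near_comm h3)
    have h5 : ¬ (S ∪ B' ⊂ T) := by
      intro h6
      have h7 := h.2.2 _ h4 Finset.subset_union_left h6
      obtain ⟨p, hp⟩ := s.ne h2
      have h8 : p ∈ S := by rw [← h7]; exact Finset.mem_union_right _ hp
      exact (Finset.mem_sdiff.1 (h1 hp)).2 h8
    have h6 : S ∪ B' = T := by
      by_contra hne
      exact h5 (Finset.ssubset_iff_subset_ne.2 ⟨Finset.union_subset h.2.1.1
        (h1.trans Finset.sdiff_subset), hne⟩)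
    apply Finset.Subset.antisymm h1
    intro p hp
    rw [Finset.mem_sdiff] at hp
    rw [← h6, Finset.mem_union] at hp
    tauto
  obtain ⟨B, h1, h2, h3⟩ := W' h.1 hT h.2.1
  have h4 := key B h1 h2 h3
  refine ⟨h4 ▸ h2, h4 ▸ h3, ?_⟩
  intro B' h5 h6 h7
  exact h5.ne (key B' h5.1 h6 h7)

theorem single_ssub {A : Finset α} {p : α} (hp : p ∈ A) (hc : 2 ≤ A.card) : {p} ⊂ A := by
  rw [Finset.ssubset_iff_subset_ne]
  refine ⟨Finset.singleton_subset_iff.2 hp, ?_⟩
  intro h
  rw [← h, Finset.card_singleton] at hc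
  omega

theorem SL2x {T S : Finset α} (hT : s.Sp T) (h : s.IsMax T S) (hc : 2 ≤ (T \ S).card) :
    ¬ (s.b S = s.b T ∧ s.t S = s.t T) := by
  rintro ⟨e1, e2⟩
  obtain ⟨hB, hn, hmin⟩ := SL hT h
  have wS := wf h.1
  have key : ∃ c ∈ T \ S, s.l S - 2 ≤ s.X c ∧ s.X c ≤ s.r S + 2 := by
    by_contra hno
    push Not at hno
    obtain ⟨cl, hcl, hcl2⟩ := exists_left hB
    obtain ⟨cr, hcr, hcr2⟩ := exists_right hB
    have h1 := hno cl hcl
    have h2 := hno cr hcr
    unfold Near at hn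
    obtain ⟨p, hp, hp2⟩ := stripX' (s.l S) hB (by omega) (by omega)
    have h3 := hno p hp
    omega
  obtain ⟨c, hc1, hc2, hc3⟩ := key
  refine hmin {c} (single_ssub hc1 hc) (s.single hB hc1) ?_
  have e3 := single_bd (s := s) c
  have e4 := mem_bd (s := s) (Finset.sdiff_subset hc1)
  unfold Near
  omega

theorem IsMax.swap {T S : Finset α} (h : s.IsMax T S) : s.swap.IsMax T S := h
theorem IsMax.negX {T S : Finset α} (h : s.IsMax T S) : s.negX.IsMax T S := h
theorem IsMax.negY {T S : Finset α} (h : s.IsMax T S) : s.negY.IsMax T S := h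
theorem IsMax.neg {T S : Finset α} (h : s.IsMax T S) : s.neg.IsMax T S := h

theorem SL2y {T S : Finset α} (hT : s.Sp T) (h : s.IsMax T S) (hc : 2 ≤ (T \ S).card) :
    ¬ (s.l S = s.l T ∧ s.r S = s.r T) := SL2x (s := s.swap) hT h.swap hc

end Sys

end Pool.Agent.BootPerc
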